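import Pool.Agent.Y662.ERG.Mn

/-! # The projection onto the absolutely continuous subspace: measurability and covariance -/

set_option autoImplicit false

open MeasureTheory Filter Topology Set
open scoped ENNReal NNReal InnerProductSpace

namespace Pool.Agent.Y662.ERG

open Pool.Agent.TH980.IM Pool.Agent.H5R2
open Pool.Agent.H12R2.And (Rz isUnit_sub sub_Rz im_inner norm_Rz_le diff_inner diff_Rz)
open Pool.Agent.TH980.IM.PR

section abstract

variable {X : Type} [NormedAddCommGroup X] [InnerProductSpace ℂ X] [CompleteSpace X]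
variable {T : X →L[ℂ] X}

theorem spm_add_le (hT : IsSelfAdjoint T) (u v : X) :
    spm hT (u + v) ≤ (2 : ℝ≥0) • (spm hT u + spm hT v) := by
  apply meas_le
  intro f hf hf0 hf1
  have hs : Continuous (fun x => Real.sqrt (f x)) := Real.continuous_sqrt.comp hf
  have e : ∀ x, ‖Real.sqrt (f x)‖ₑ ^ 2 = ENNReal.ofReal (f x) := by
    intro x
    rw [← ofReal_norm, ← ENNReal.ofReal_pow (norm_nonneg _), Real.norm_eq_abs, sq_abs,
      Real.sq_sqrt (hf0 x)]
  have h1 := spm_lint hT (u + v) hs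
  have h2 := spm_lint hT u hs
  have h3 := spm_lint hT v hs
  simp_rw [e] at h1 h2 h3
  rw [h1, lintegral_smul_measure, lintegral_add_measure, h2, h3, map_add]
  set a := cfc (fun x => Real.sqrt (f x)) T u
  set b := cfc (fun x => Real.sqrt (f x)) T v
  have h4 : ‖a + b‖ ^ 2 ≤ 2 * (‖a‖ ^ 2 + ‖b‖ ^ 2) := by
    have h5 : ‖a + b‖ ^ 2 ≤ (‖a‖ + ‖b‖) ^ 2 :=
      pow_le_pow_left₀ (norm_nonneg _) (norm_add_le _ _) 2
    nlinarith [sq_nonneg (‖a‖ - ‖b‖)]
  have e2 : ∀ w : X, ‖w‖ₑ ^ 2 = ENNReal.ofReal (‖w‖ ^ 2) := fun w => by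
    rw [← ofReal_norm, ENNReal.ofReal_pow (norm_nonneg _)]
  rw [e2, e2, e2, ← ENNReal.ofReal_add (by positivity) (by positivity), ENNReal.smul_def,
    smul_eq_mul]
  have e3 : (((2 : ℝ≥0) : ℝ≥0∞)) = ENNReal.ofReal 2 := by simp
  rw [e3, ← ENNReal.ofReal_mul (by norm_num)]
  exact ENNReal.ofReal_le_ofReal h4

theorem spm_zero (hT : IsSelfAdjoint T) : spm hT (0 : X) = 0 := by
  rw [← Measure.measure_univ_eq_zero, spm_univ]
  simp

/-- the absolutely continuous subspace -/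
noncomputable def acS (hT : IsSelfAdjoint T) : Submodule ℂ X where
  carrier := {v | spm hT v ≪ volume}
  zero_mem' := by
    show spm hT 0 ≪ volume
    rw [spm_zero]
    exact Measure.AbsolutelyContinuous.zero _
  add_mem' := by
    intro u v hu hv
    refine (Measure.absolutelyContinuous_of_le (spm_add_le hT u v)).trans ?_
    refine Measure.AbsolutelyContinuous.trans Measure.smul_absolutelyContinuous ?_
    exact Measure.AbsolutelyContinuous.add_left hu hv
  smul_mem' := by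
    intro c u hu
    exact spm_comm_ac hT (C := c • (1 : X →L[ℂ] X)) (fun x => by
      show c • T x = T (c • x)
      rw [map_smul]) hu

theorem mem_acS (hT : IsSelfAdjoint T) (v : X) : v ∈ acS hT ↔ spm hT v ≪ volume := Iff.rfl

theorem isClosed_acS (hT : IsSelfAdjoint T) : IsClosed (acS hT : Set X) := by
  apply isClosed_of_closure_subset
  intro v hv
  show spm hT v ≪ volume
  intro N hN
  refine le_antisymm ?_ zero_le
  refine le_of_forall_pos_le_add fun ε hε => ?_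
  rw [zero_add]
  -- a close vector
  obtain ⟨δ, hδ0, hδ⟩ : ∃ δ : ℝ, 0 < δ ∧ 2 * ENNReal.ofReal (δ ^ 2) ≤ ε := by
    have h1 : Tendsto (fun δ : ℝ => 2 * ENNReal.ofReal (δ ^ 2)) (𝓝[>] 0)
        (𝓝 (2 * ENNReal.ofReal (0 ^ 2))) := by
      apply ENNReal.Tendsto.const_mul _ (Or.inr (by norm_num))
      have : Continuous fun ε : ℝ => ENNReal.ofReal (ε ^ 2) :=
        ENNReal.continuous_ofReal.comp (by fun_prop)
      exact (this.tendsto 0).mono_left nhdsWithin_le_nhds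
    have h3 : 2 * ENNReal.ofReal ((0 : ℝ) ^ 2) = 0 := by simp
    rw [h3] at h1
    obtain ⟨δ, h4, h5⟩ := ((h1.eventually (gt_mem_nhds hε)).and self_mem_nhdsWithin).exists
    exact ⟨δ, h5, h4.le⟩
  obtain ⟨w, hw, hd⟩ := Metric.mem_closure_iff.1 hv δ hδ0
  rw [dist_eq_norm] at hd
  have h1 := spm_add_le hT w (v - w)
  rw [add_sub_cancel] at h1
  have h2 := h1 N
  have h3 : spm hT w N = 0 := hw hN
  have h4 : ((2 : ℝ≥0) • (spm hT w + spm hT (v - w))) N = 2 * spm hT (v - w) N := by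
    rw [Measure.smul_apply, Measure.add_apply, h3, zero_add, ENNReal.smul_def, smul_eq_mul]
    rfl
  rw [h4] at h2
  refine h2.trans (le_trans ?_ hδ)
  gcongr
  calc spm hT (v - w) N ≤ spm hT (v - w) univ := measure_mono (subset_univ _)
    _ = ‖v - w‖ₑ ^ 2 := spm_univ hT _
    _ = ENNReal.ofReal (‖v - w‖ ^ 2) := by
        rw [← ofReal_norm, ENNReal.ofReal_pow (norm_nonneg _)]
    _ ≤ ENNReal.ofReal (δ ^ 2) :=
        ENNReal.ofReal_le_ofReal (pow_le_pow_left₀ (norm_nonneg _) hd.le 2)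

instance (hT : IsSelfAdjoint T) : (acS hT).HasOrthogonalProjection := by
  have : CompleteSpace (acS hT) := (isClosed_acS hT).completeSpace_coe
  infer_instance

/-- the projection onto the absolutely continuous subspace -/
noncomputable def acP (hT : IsSelfAdjoint T) : X →L[ℂ] X := (acS hT).starProjection

theorem acP_ac (hT : IsSelfAdjoint T) (u : X) : spm hT (acP hT u) ≪ volume :=
  Submodule.starProjection_apply_mem (acS hT) u

theorem acP_of (hT : IsSelfAdjoint T) {v : X} (hv : spm hT v ≪ volume) : acP hT v = v :=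
  Submodule.starProjection_eq_self_iff.2 hv

theorem acP_symm (hT : IsSelfAdjoint T) (x y : X) : ⟪acP hT x, y⟫_ℂ = ⟪x, acP hT y⟫_ℂ :=
  Submodule.inner_starProjection_left_eq_right _ _ _

theorem acP_norm (hT : IsSelfAdjoint T) (x : X) : ‖acP hT x‖ ≤ ‖x‖ :=
  Submodule.norm_starProjection_apply_le _ _

theorem acP_orth (hT : IsSelfAdjoint T) {w : X} (hw : spm hT w ≪ volume) (u : X) :
    ⟪u - acP hT u, w⟫_ℂ = 0 :=
  Submodule.starProjection_inner_eq_zero _ _ hw

theorem acP_eq (hT : IsSelfAdjoint T) {u p : X} (h1 : spm hT p ≪ volume)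
    (h2 : ∀ w, spm hT w ≪ volume → ⟪u - p, w⟫_ℂ = 0) : acP hT u = p :=
  Submodule.eq_starProjection_of_mem_of_inner_eq_zero h1 h2

theorem acP_comm (hT : IsSelfAdjoint T) {C C' : X →L[ℂ] X} (hC : ∀ x, C (T x) = T (C x))
    (hC' : ∀ x, C' (T x) = T (C' x)) (hCC : ∀ x y, ⟪C x, y⟫_ℂ = ⟪x, C' y⟫_ℂ) (x : X) :
    acP hT (C x) = C (acP hT x) := by
  apply acP_eq hT (spm_comm_ac hT hC (acP_ac hT x))
  intro w hw
  rw [← map_sub, hCC]
  exact acP_orth hT (spm_comm_ac hT hC' hw) x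

/-- the norm of the absolutely continuous part -/
theorem acP_mass (hT : IsSelfAdjoint T) (u : X) :
    ‖acP hT u‖ₑ ^ 2 = ∫⁻ E, ENNReal.ofReal (dn hT u E) := by
  have h1 := dn_le_proj hT (acP hT) (fun v hv => acP_of hT hv) (acP_symm hT) (u - acP hT u)
  rw [map_sub, acP_of hT (acP_ac hT u), sub_self] at h1
  have h2 : ∫⁻ E, ENNReal.ofReal (dn hT (u - acP hT u) E) = 0 := by
    refine le_antisymm (h1.trans (by simp)) zero_le
  rw [lintegral_eq_zero_iff (dn_meas hT _).ennreal_ofReal] at h2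
  have h3 : ∀ᵐ E : ℝ, dn hT u E = dn hT (acP hT u) E := by
    filter_upwards [h2, qn_tendsto hT u, qn_tendsto hT (acP hT u),
      qn_tendsto hT (u - acP hT u)] with E e1 e2 e3 e4
    have e5 : dn hT (u - acP hT u) E = 0 :=
      le_antisymm (ENNReal.ofReal_eq_zero.1 e1) (dn_nonneg _ _ _)
    rw [e5, mul_zero, Real.sqrt_zero] at e4
    have e6 : Ngl T E (u - acP hT u) := e4
    have e7 := tendsto_nhds_unique e2 (e6.lim e3)
    have e8 : Real.sqrt (kap * dn hT u E) ^ 2 = Real.sqrt (kap * dn hT (acP hT u) E) ^ 2 := by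
      rw [e7]
    rw [Real.sq_sqrt (mul_nonneg kap_pos.le (dn_nonneg _ _ _)),
      Real.sq_sqrt (mul_nonneg kap_pos.le (dn_nonneg _ _ _))] at e8
    exact mul_left_cancel₀ kap_pos.ne' e8
  have h4 := spm_dn hT (acP_ac hT u) (g := fun _ => 1) measurable_const
  rw [lintegral_one, spm_univ] at h4
  rw [h4]
  refine lintegral_congr_ae ?_
  filter_upwards [h3] with E hE
  rw [hE, one_mul]

end abstract

/-! ### The lattice -/

variable {d : ℕ}

/-- the projection for the potential `ω` -/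
noncomputable def PA (K : ℝ) (ω : Sd d → ℝ) : L2 d →L[ℂ] L2 d := acP (HV_sa K ω)

theorem PA_meas_sq (K : ℝ) (ν : Measure ℝ) [IsProbabilityMeasure ν] (u : L2 d) :
    AEMeasurable (fun ω => ‖PA K ω u‖ ^ 2) (PP (Sd d) ν) := by
  haveI : IsProbabilityMeasure (PP (Sd d) ν) := by unfold PP; infer_instance
  obtain ⟨f, hf, hlim⟩ := exists_limV (d := d) K ν u u
  have hm : Measurable fun ω : Sd d → ℝ => ∫⁻ E : ℝ, ENNReal.ofReal ((f (ω, E)).im / kap) := by
    have h1 : Measurable fun q : (Sd d → ℝ) × ℝ => ENNReal.ofReal ((f q).im / kap) :=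
      ((Complex.measurable_im.comp hf).div_const kap).ennreal_ofReal
    exact h1.lintegral_prod_right'
  refine ⟨fun ω => (∫⁻ E : ℝ, ENNReal.ofReal ((f (ω, E)).im / kap)).toReal,
    hm.ennreal_toReal, ?_⟩
  filter_upwards [Measure.ae_ae_of_ae_prod hlim] with ω hω
  have h1 := acP_mass (HV_sa K ω) u
  have h2 : ∫⁻ E, ENNReal.ofReal (dn (HV_sa K ω) u E) =
      ∫⁻ E : ℝ, ENNReal.ofReal ((f (ω, E)).im / kap) := by
    refine lintegral_congr_ae ?_
    filter_upwards [hω, boundary_spm (HV_sa K ω) u] with E e1 ⟨l, hl, hl2⟩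
    have e2 := tendsto_nhds_unique e1 hl
    rw [e2, hl2, mul_div_cancel_left₀ _ kap_pos.ne']
  rw [← h2, ← h1, ENNReal.toReal_pow, toReal_enorm]
  rfl

theorem PA_idem (K : ℝ) (ω : Sd d → ℝ) (u : L2 d) : PA K ω (PA K ω u) = PA K ω u :=
  acP_of _ (acP_ac _ _)

theorem PA_symm (K : ℝ) (ω : Sd d → ℝ) (x y : L2 d) : ⟪PA K ω x, y⟫_ℂ = ⟪x, PA K ω y⟫_ℂ :=
  acP_symm _ _ _

theorem PA_inner_meas (K : ℝ) (ν : Measure ℝ) [IsProbabilityMeasure ν] (u w : L2 d) :
    AEMeasurable (fun ω => ⟪u, PA K ω w⟫_ℂ) (PP (Sd d) ν) := by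
  have h1 : ∀ ω : Sd d → ℝ, ⟪u, PA K ω w⟫_ℂ =
      ((((‖PA K ω (u + w)‖ ^ 2 : ℝ) : ℂ) - ((‖PA K ω (u - w)‖ ^ 2 : ℝ) : ℂ)) +
      (((‖PA K ω (u - Complex.I • w)‖ ^ 2 : ℝ) : ℂ) -
        ((‖PA K ω (u + Complex.I • w)‖ ^ 2 : ℝ) : ℂ)) * Complex.I) / 4 := by
    intro ω
    have h2 : ⟪u, PA K ω w⟫_ℂ = ⟪PA K ω u, PA K ω w⟫_ℂ := by
      rw [PA_symm, PA_idem]
    rw [h2, inner_eq_sum_norm_sq_div_four]
    simp only [map_add, map_sub, map_smul]
    push_cast
    rfl
  simp_rw [h1]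
  have hm : ∀ x : L2 d, AEMeasurable (fun ω => ((‖PA K ω x‖ ^ 2 : ℝ) : ℂ)) (PP (Sd d) ν) :=
    fun x => Complex.measurable_ofReal.comp_aemeasurable (PA_meas_sq K ν x)
  exact ((((hm _).sub (hm _)).add (((hm _).sub (hm _)).mul_const _))).div_const _

theorem aesm_of_coord {Ω : Type} [MeasurableSpace Ω] {P : Measure Ω} {g : Ω → L2 d}
    (h : ∀ x, AEMeasurable (fun ω => (g ω) x) P) : AEStronglyMeasurable g P := by
  refine aestronglyMeasurable_of_tendsto_ae (u := (atTop : Filter (Finset (Sd d))))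
    (f := fun s ω => ∑ x ∈ s, (g ω) x • (ee x : L2 d)) (fun s => ?_) (ae_of_all _ fun ω => ?_)
  · refine Finset.aestronglyMeasurable_fun_sum s fun x _ => ?_
    exact (h x).aestronglyMeasurable.smul_const _
  · have h1 := lp.hasSum_single (E := fun _ : Sd d => ℂ) (p := 2) (by norm_num) (g ω)
    refine Tendsto.congr (fun s => ?_) h1
    refine Finset.sum_congr rfl fun x _ => ?_
    unfold ee
    rw [← lp.single_smul, smul_eq_mul, mul_one]

theorem PA_aesm (K : ℝ) (ν : Measure ℝ) [IsProbabilityMeasure ν] {ψ : (Sd d → ℝ) → L2 d}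
    (hψ : AEStronglyMeasurable ψ (PP (Sd d) ν)) :
    AEStronglyMeasurable (fun ω => PA K ω (ψ ω)) (PP (Sd d) ν) := by
  have h1 : ∀ w : L2 d, AEStronglyMeasurable (fun ω => PA K ω w) (PP (Sd d) ν) := by
    intro w
    refine aesm_of_coord fun x => ?_
    have h2 := PA_inner_meas K ν (ee x) w
    simpa only [inner_ee] using h2
  refine aesm_of_coord fun x => ?_
  have h2 : ∀ ω, (PA K ω (ψ ω)) x = ⟪PA K ω (ee x), ψ ω⟫_ℂ := fun ω => by
    rw [PA_symm, inner_ee]
  simp_rw [h2]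
  exact ((h1 (ee x)).inner hψ).aemeasurable

/-! covariance -/

theorem HV_shift' (K : ℝ) (ω : Sd d → ℝ) (z : Sd d) {S : L2 d →L[ℂ] L2 d}
    (hS : NB.IsShift z S) (w : L2 d) : HV K (sh z ω) (S w) = S (HV K ω w) := by
  refine lp.ext (funext fun x => ?_)
  have h1 := hS (HV K ω w) x
  rw [h1, HV_apply, HV_apply]
  have e0 : sh z ω x = ω (x + z) := rfl
  rw [e0, hS w x]
  congr 1
  refine Finset.sum_congr rfl fun i _ => ?_
  rw [hS w (x + Pi.single i 1), hS w (x - Pi.single i 1)]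
  have e1 : x + Pi.single i 1 + z = x + z + Pi.single i 1 := by abel
  have e2 : x - Pi.single i 1 + z = x + z - Pi.single i 1 := by abel
  rw [e1, e2]

theorem aeval_shift (K : ℝ) (ω : Sd d → ℝ) (z : Sd d) {S : L2 d →L[ℂ] L2 d}
    (hS : NB.IsShift z S) (p : Polynomial ℂ) (w : L2 d) :
    Polynomial.aeval (HV K (sh z ω)) p (S w) = S (Polynomial.aeval (HV K ω) p w) := by
  have hpow : ∀ n : ℕ, ((HV K (sh z ω)) ^ n) (S w) = S (((HV K ω) ^ n) w) := by
    intro n
    induction n with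
    | zero => rfl
    | succ n ih =>
      have e : ∀ (A : L2 d →L[ℂ] L2 d) (y : L2 d), (A ^ (n + 1)) y = A ((A ^ n) y) := by
        intro A y
        rw [pow_succ']
        rfl
      rw [e, e, ih, HV_shift' K ω z hS]
  induction p using Polynomial.induction_on' with
  | add p q hp hq =>
    rw [map_add, map_add]
    show (Polynomial.aeval (HV K (sh z ω)) p) (S w) + (Polynomial.aeval (HV K (sh z ω)) q) (S w) =
      S ((Polynomial.aeval (HV K ω) p) w + (Polynomial.aeval (HV K ω) q) w)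
    rw [hp, hq, map_add]
  | monomial n a =>
    have e : ∀ B : L2 d →L[ℂ] L2 d, Polynomial.aeval B (Polynomial.monomial n a) = a • B ^ n := by
      intro B
      rw [Polynomial.aeval_monomial, Algebra.algebraMap_eq_smul_one, smul_mul_assoc, one_mul]
    rw [e, e]
    show a • ((HV K (sh z ω)) ^ n) (S w) = S (a • ((HV K ω) ^ n) w)
    rw [hpow, map_smul]

theorem Ex_shift (K : ℝ) (ω : Sd d → ℝ) (z : Sd d) {S : L2 d →L[ℂ] L2 d}
    (hS : NB.IsShift z S) (t : ℝ) (w : L2 d) :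
    Ex (HV K (sh z ω)) t (S w) = S (Ex (HV K ω) t w) := by
  have h1 : Tendsto (fun n => Polynomial.aeval (HV K (sh z ω)) (PN t n) (S w)) atTop
      (𝓝 (Ex (HV K (sh z ω)) t (S w))) :=
    ((ContinuousLinearMap.apply ℂ (L2 d) (S w)).continuous.tendsto _).comp (PN_op _ t)
  have h2 : Tendsto (fun n => S (Polynomial.aeval (HV K ω) (PN t n) w)) atTop
      (𝓝 (S (Ex (HV K ω) t w))) :=
    (S.continuous.tendsto _).comp
      (((ContinuousLinearMap.apply ℂ (L2 d) w).continuous.tendsto _).comp (PN_op _ t))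
  refine tendsto_nhds_unique h1 (h2.congr fun n => ?_)
  exact (aeval_shift K ω z hS _ w).symm

theorem spm_shift (K : ℝ) (ω : Sd d → ℝ) (z : Sd d) {S : L2 d →L[ℂ] L2 d}
    (hS : NB.IsShift z S) (w : L2 d) :
    spm (HV_sa K ω) w = spm (HV_sa K (sh z ω)) (S w) := by
  obtain ⟨S', hS'⟩ := (NB.t_OPS d).1 (-z)
  apply spm_unique
  intro t
  rw [Ex_shift K ω z hS, NB.STAT.shift_inner z S S' hS hS', NBA.ZAC.inv2 hS hS', Ex_spm]

theorem PA_shift (K : ℝ) (ω : Sd d → ℝ) (z : Sd d) {S : L2 d →L[ℂ] L2 d}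
    (hS : NB.IsShift z S) (w : L2 d) : PA K (sh z ω) (S w) = S (PA K ω w) := by
  obtain ⟨S', hS'⟩ := (NB.t_OPS d).1 (-z)
  apply acP_eq
  · rw [← spm_shift K ω z hS]
    exact acP_ac _ _
  · intro y hy
    rw [← map_sub, NB.STAT.shift_inner z S S' hS hS']
    apply acP_orth
    rw [spm_shift K ω z hS, NBA.ZAC.inv1 hS hS']
    exact hy

end Pool.Agent.Y662.ERG
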