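import Pool.Agent.Y662.ERG.PerV

/-! # The fibre coefficient is deterministic -/

set_option autoImplicit false

open MeasureTheory Filter Topology Set
open scoped ENNReal NNReal InnerProductSpace

namespace Pool.Agent.Y662.ERG

open Pool.Agent.TH980.IM Pool.Agent.H5R2
open Pool.Agent.H12R2.And (Rz isUnit_sub sub_Rz im_inner norm_Rz_le diff_inner diff_Rz)
open Pool.Agent.TH980.IM.PR

variable {d : ℕ}

theorem const_of_inv (hd : 1 ≤ d) (ν : Measure ℝ) [IsProbabilityMeasure ν]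
    {φ : (Sd d → ℝ) → ℝ} (hφ : Measurable φ)
    (h : ∀ᵐ ω ∂(PP (Sd d) ν), ∀ z, φ (sh z ω) = φ ω) :
    ∃ c : ℝ, ∀ᵐ ω ∂(PP (Sd d) ν), φ ω = c := by
  haveI : Nonempty (Fin d) := ⟨⟨0, hd⟩⟩
  haveI : Infinite (Sd d) := Pi.infinite_of_right
  haveI : IsProbabilityMeasure (PP (Sd d) ν) := by unfold PP; infer_instance
  have key : ∀ U : Set ℝ, MeasurableSet U →
      (∀ᵐ ω ∂(PP (Sd d) ν), φ ω ∈ U) ∨ (∀ᵐ ω ∂(PP (Sd d) ν), φ ω ∉ U) := by
    intro U hU
    set N : Set (Sd d → ℝ) := {ω | ∀ z, φ (sh z ω) ∈ U} with hN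
    have hNm : MeasurableSet N := by
      rw [hN, setOf_forall]
      exact MeasurableSet.iInter fun z => (hφ.comp (meas_sh z)) hU
    have hinv : ∀ x, sh x ⁻¹' N = N := by
      intro x
      ext ω
      simp only [mem_preimage, hN, mem_setOf_eq]
      constructor
      · intro h1 z
        have h2 := h1 (z - x)
        rw [sh_sh, sub_add_cancel] at h2
        exact h2
      · intro h1 z
        rw [sh_sh]
        exact h1 _
    rcases zero_one ν hNm hinv with h0 | h1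
    · right
      have h2 : PP (Sd d) ν N = 0 := by
        rw [measureReal_def, ENNReal.toReal_eq_zero_iff] at h0
        rcases h0 with h0 | h0
        · exact h0
        · exact absurd h0 (measure_ne_top _ _)
      have h3 : ∀ᵐ ω ∂(PP (Sd d) ν), ω ∉ N := measure_eq_zero_iff_ae_notMem.1 h2
      filter_upwards [h, h3] with ω e1 e2 e3
      apply e2
      intro z
      rw [e1 z]
      exact e3
    · left
      have h2 : PP (Sd d) ν Nᶜ = 0 := by
        rw [prob_compl_eq_zero_iff hNm]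
        rw [measureReal_def] at h1
        rw [← ENNReal.ofReal_toReal (measure_ne_top (PP (Sd d) ν) N), h1, ENNReal.ofReal_one]
      have h3 : ∀ᵐ ω ∂(PP (Sd d) ν), ω ∉ Nᶜ := measure_eq_zero_iff_ae_notMem.1 h2
      filter_upwards [h, h3] with ω e1 e2
      have e3 : ω ∈ N := not_not.1 e2
      have e4 := e3 0
      rw [e1 0] at e4
      exact e4
  obtain ⟨c, hc⟩ := exists_eventuallyEq_const_of_forall_separating (l := ae (PP (Sd d) ν))
    (f := φ) MeasurableSet key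
  exact ⟨c, hc⟩

theorem Rz_cont2 (K : ℝ) {z : ℂ} (hz : 0 < z.im) :
    Continuous fun p : (Sd d → ℝ) × L2 d => Rz (HV K p.1) z p.2 := by
  rw [continuous_iff_continuousAt]
  intro p0
  rw [ContinuousAt, tendsto_iff_norm_sub_tendsto_zero]
  have h1 : Tendsto (fun p : (Sd d → ℝ) × L2 d => ‖p.2 - p0.2‖ / z.im +
      ‖Rz (HV K p.1) z p0.2 - Rz (HV K p0.1) z p0.2‖) (𝓝 p0) (𝓝 (0 / z.im + 0)) := by
    refine Tendsto.add ?_ ?_
    · refine Tendsto.div_const ?_ _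
      exact tendsto_iff_norm_sub_tendsto_zero.1 continuous_snd.continuousAt
    · have h2 := ((Rz_cont K hz p0.2).comp continuous_fst).continuousAt (x := p0)
      exact tendsto_iff_norm_sub_tendsto_zero.1 h2
  rw [zero_div, add_zero] at h1
  refine squeeze_zero (fun _ => norm_nonneg _) (fun p => ?_) h1
  have e : Rz (HV K p.1) z p.2 - Rz (HV K p0.1) z p0.2 = Rz (HV K p.1) z (p.2 - p0.2) +
      (Rz (HV K p.1) z p0.2 - Rz (HV K p0.1) z p0.2) := by
    rw [map_sub]; abel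
  rw [e]
  refine (norm_add_le _ _).trans (add_le_add ?_ le_rfl)
  exact norm_Rz_le (HV_sa K _) hz _

theorem cont_inner2 (K : ℝ) {z : ℂ} (hz : 0 < z.im) :
    Continuous fun p : (Sd d → ℝ) × L2 d =>
      inner ℂ (Rz (HV K p.1) z (ee 0 : L2 d)) (Rz (HV K p.1) z p.2) := by
  have h1 : Continuous fun p : (Sd d → ℝ) × L2 d => Rz (HV K p.1) z (ee 0 : L2 d) :=
    (Rz_cont K hz (ee 0)).comp continuous_fst
  exact h1.inner (Rz_cont2 K hz)

theorem inner_sm (K : ℝ) {z : ℂ} (hz : 0 < z.im) {b : (Sd d → ℝ) → L2 d}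
    (hb : StronglyMeasurable b) : Measurable fun V : Sd d → ℝ =>
      inner ℂ (Rz (HV K V) z (ee 0 : L2 d)) (Rz (HV K V) z (b V)) := by
  have h1 : StronglyMeasurable fun V : Sd d → ℝ => ((V, b V) : (Sd d → ℝ) × L2 d) :=
    StronglyMeasurable.prodMk stronglyMeasurable_id hb
  have h2 : StronglyMeasurable fun V : Sd d → ℝ =>
      (fun p : (Sd d → ℝ) × L2 d =>
      inner ℂ (Rz (HV K p.1) z (ee 0 : L2 d)) (Rz (HV K p.1) z p.2)) (V, b V) :=
    Continuous.comp_stronglyMeasurable (cont_inner2 K hz) h1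
  exact h2.measurable

/-- the numerator of the coefficient -/
noncomputable def nmr (K : ℝ) (b : (Sd d → ℝ) → L2 d) (k : ℕ) (q : (Sd d → ℝ) × ℝ) : ℝ :=
  (zk k q.2).im *
    (inner ℂ (Rz (HV K q.1) (zk k q.2) (ee 0)) (Rz (HV K q.1) (zk k q.2) (b q.1))).re

theorem nmr_meas (K : ℝ) {b : (Sd d → ℝ) → L2 d} (hb : StronglyMeasurable b) (k : ℕ) :
    Measurable (nmr K b k) := by
  have h1 : Measurable (fun q : (Sd d → ℝ) × ℝ =>
      inner ℂ (Rz (HV K q.1) (zk k q.2) (ee 0)) (Rz (HV K q.1) (zk k q.2) (b q.1))) := by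
    refine meas_gen (F := fun V E => inner ℂ (Rz (HV K V) (zk k E) (ee 0))
      (Rz (HV K V) (zk k E) (b V))) (fun V => ?_) fun E => ?_
    · rw [continuous_iff_continuousAt]
      intro E
      have h2 : ∀ u : L2 d, ContinuousAt (fun E : ℝ => Rz (HV K V) (zk k E) u) E := by
        intro u
        have h2 : ContinuousAt (fun z => Rz (HV K V) z u) (zk k E) :=
          ((diff_Rz (HV_sa K V) (zk_im_pos k E).ne').clm_apply
            (differentiableAt_const _)).continuousAt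
        exact ContinuousAt.comp (f := fun E : ℝ => zk k E) h2 (continuous_zk k).continuousAt
      exact ContinuousAt.inner (h2 (ee 0)) (h2 (b V))
    · exact inner_sm K (zk_im_pos k E) hb
  unfold nmr
  refine Measurable.mul ?_ (Complex.measurable_re.comp h1)
  exact (Complex.continuous_im.comp ((continuous_zk k))).measurable.comp measurable_snd

/-- the limit of the numerator -/
theorem nmr_lim {X : Type} [NormedAddCommGroup X] [InnerProductSpace ℂ X] [CompleteSpace X]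
    {T : X →L[ℂ] X} (hT : IsSelfAdjoint T) {C : X →L[ℂ] X} (hC : ∀ x, C (T x) = T (C x))
    (hCs : ∀ x y, ⟪C x, y⟫_ℂ = ⟪x, C y⟫_ℂ) {E : ℝ} {u : X} {g : ℂ} {a : ℝ} (ha : 0 < a)
    (hu : Tendsto (fun k => qn T (zk k E) u) atTop (𝓝 a)) (h : Ngl T E (C u - g • u)) :
    g.im = 0 ∧ Tendsto (fun k => (zk k E).im *
      (inner ℂ (Rz T (zk k E) u) (Rz T (zk k E) (C u))).re) atTop (𝓝 (g.re * a ^ 2)) := by
  have h1 : Tendsto (fun k => (((zk k E).im : ℝ) : ℂ) *
      inner ℂ (Rz T (zk k E) u) (Rz T (zk k E) (C u - g • u))) atTop (𝓝 0) := by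
    have h2 := hu.mul h
    rw [mul_zero] at h2
    refine squeeze_zero_norm (fun k => ?_) h2
    have hz := zk_im_pos k E
    rw [norm_mul, Complex.norm_real, Real.norm_of_nonneg hz.le]
    unfold qn
    calc (zk k E).im * ‖inner ℂ (Rz T (zk k E) u) (Rz T (zk k E) (C u - g • u))‖
        ≤ (zk k E).im * (‖Rz T (zk k E) u‖ * ‖Rz T (zk k E) (C u - g • u)‖) :=
          mul_le_mul_of_nonneg_left (norm_inner_le_norm _ _) hz.le
      _ = (Real.sqrt (zk k E).im * Real.sqrt (zk k E).im) *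
          (‖Rz T (zk k E) u‖ * ‖Rz T (zk k E) (C u - g • u)‖) := by
          rw [Real.mul_self_sqrt hz.le]
      _ = _ := by ring
  have h3 : Tendsto (fun k => (((zk k E).im : ℝ) : ℂ) *
      inner ℂ (Rz T (zk k E) u) (Rz T (zk k E) (C u))) atTop (𝓝 (g * ((a ^ 2 : ℝ) : ℂ))) := by
    have h4 : Tendsto (fun k => g * (((qn T (zk k E) u) ^ 2 : ℝ) : ℂ)) atTop
        (𝓝 (g * ((a ^ 2 : ℝ) : ℂ))) :=
      (((Complex.continuous_ofReal.tendsto _).comp (hu.pow 2))).const_mul g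
    have h5 := h1.add h4
    rw [zero_add] at h5
    refine h5.congr fun k => ?_
    have hz := zk_im_pos k E
    have e1 : C u = (C u - g • u) + g • u := by abel
    conv_rhs => rw [e1]
    have e2 : (inner ℂ (Rz T (zk k E) u) (Rz T (zk k E) u) : ℂ) =
        ((‖Rz T (zk k E) u‖ ^ 2 : ℝ) : ℂ) := by
      rw [inner_self_eq_norm_sq_to_K]
      push_cast
      rfl
    rw [map_add, inner_add_right, map_smul, inner_smul_right, e2, mul_add]
    congr 1
    unfold qn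
    rw [mul_pow, Real.sq_sqrt hz.le]
    push_cast
    ring
  have him : ∀ k, ((((zk k E).im : ℝ) : ℂ) *
      inner ℂ (Rz T (zk k E) u) (Rz T (zk k E) (C u))).im = 0 := by
    intro k
    rw [Rz_comm hT hC (zk_im_pos k E).ne', Complex.im_ofReal_mul]
    have e : (inner ℂ (Rz T (zk k E) u) (C (Rz T (zk k E) u))).im = 0 := by
      have e2 : (starRingEnd ℂ) (inner ℂ (Rz T (zk k E) u) (C (Rz T (zk k E) u))) =
          inner ℂ (Rz T (zk k E) u) (C (Rz T (zk k E) u)) := by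
        rw [inner_conj_symm, hCs]
      exact Complex.conj_eq_iff_im.1 e2
    rw [e, mul_zero]
  have hre : ∀ k, ((((zk k E).im : ℝ) : ℂ) *
      inner ℂ (Rz T (zk k E) u) (Rz T (zk k E) (C u))).re = (zk k E).im *
      (inner ℂ (Rz T (zk k E) u) (Rz T (zk k E) (C u))).re := fun k => Complex.re_ofReal_mul _ _
  constructor
  · have h4 := (Complex.continuous_im.tendsto _).comp h3
    have h5 : Tendsto (fun _ : ℕ => (0 : ℝ)) atTop (𝓝 (g * ((a ^ 2 : ℝ) : ℂ)).im) :=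
      h4.congr fun k => him k
    have h6 := tendsto_nhds_unique h5 tendsto_const_nhds
    rw [Complex.im_mul_ofReal] at h6
    rcases mul_eq_zero.1 h6 with h7 | h7
    · exact h7
    · exact absurd h7 (by positivity)
  · have h4 := (Complex.continuous_re.tendsto _).comp h3
    have h5 : (g * ((a ^ 2 : ℝ) : ℂ)).re = g.re * a ^ 2 := Complex.re_mul_ofReal _ _
    rw [h5] at h4
    exact h4.congr fun k => hre k

theorem HV_shift (K : ℝ) (ω : Sd d → ℝ) (z : Sd d) {S : L2 d →L[ℂ] L2 d}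
    (hS : NB.IsShift (-z) S) (w : L2 d) : HV K ω (S w) = S (HV K (sh z ω) w) := by
  refine lp.ext (funext fun x => ?_)
  have h1 := hS (HV K (sh z ω) w) x
  rw [h1, HV_apply, HV_apply]
  have e0 : sh z ω (x + -z) = ω x := by
    unfold sh
    rw [neg_add_cancel_right]
  rw [e0, hS w x]
  congr 1
  refine Finset.sum_congr rfl fun i _ => ?_
  rw [hS w (x + Pi.single i 1), hS w (x - Pi.single i 1)]
  have e1 : x + Pi.single i 1 + -z = x + -z + Pi.single i 1 := by abel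
  have e2 : x - Pi.single i 1 + -z = x + -z - Pi.single i 1 := by abel
  rw [e1, e2]

theorem qn_shift (K : ℝ) (ω : Sd d → ℝ) (z : Sd d) {S : L2 d →L[ℂ] L2 d}
    (hS : NB.IsShift (-z) S) {ζ : ℂ} (hζ : ζ.im ≠ 0) (w : L2 d) :
    qn (HV K ω) ζ (S w) = qn (HV K (sh z ω)) ζ w := by
  have h1 : S (Rz (HV K (sh z ω)) ζ w) = Rz (HV K ω) ζ (S w) := by
    apply Rz_unique (HV_sa K ω) hζ
    rw [HV_shift K ω z hS, ← map_smul, ← map_sub, sub_Rz (HV_sa K _) hζ]
  obtain ⟨S', hS'⟩ := (NB.t_OPS d).1 z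
  unfold qn
  rw [← h1, NBA.ZAC.normT hS' hS]

theorem Ngl.shift {K : ℝ} {ω : Sd d → ℝ} {z : Sd d} {S : L2 d →L[ℂ] L2 d}
    (hS : NB.IsShift (-z) S) {E : ℝ} {w : L2 d} (h : Ngl (HV K (sh z ω)) E w) :
    Ngl (HV K ω) E (S w) :=
  Tendsto.congr (fun k => (qn_shift K ω z hS (zk_im_pos k E).ne' w).symm) h

/-- **determinism of the coefficient** -/
theorem det_core (hd : 1 ≤ d) {K : ℝ} {ν : Measure ℝ} [IsProbabilityMeasure ν]
    {Sg : Set ℝ} (hSg : MeasurableSet Sg)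
    (b : (Sd d → ℝ) → L2 d) (hb : AEStronglyMeasurable b (PP (Sd d) ν)) {M : ℝ} (hM0 : 0 ≤ M)
    (Bop : (Sd d → ℝ) → L2 d →L[ℂ] L2 d)
    (hB1 : ∀ᵐ ω ∂(PP (Sd d) ν), ∀ x y, ⟪Bop ω x, y⟫_ℂ = ⟪x, Bop ω y⟫_ℂ)
    (hB2 : ∀ᵐ ω ∂(PP (Sd d) ν), ∀ x, Bop ω (HV K ω x) = HV K ω (Bop ω x))
    (hB3 : ∀ᵐ ω ∂(PP (Sd d) ν), ‖Bop ω‖ ≤ M)
    (hB4 : ∀ᵐ ω ∂(PP (Sd d) ν), ∀ (z : Sd d) (S : L2 d →L[ℂ] L2 d), NB.IsShift (-z) S →
      Bop ω (ee z) = S (b (sh z ω)))
    (hB5 : ∀ᵐ ω ∂(PP (Sd d) ν), ∀ᵐ E : ℝ,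
      (∃ g : ℂ, ∀ x, Ngl (HV K ω) E (Bop ω (ee x) - g • ee x)) ∧
      (E ∉ Sg → ∀ x, Ngl (HV K ω) E (ee x)) ∧
      (E ∈ Sg → ∀ x, ∃ a : ℝ, 0 < a ∧
        Tendsto (fun k => qn (HV K ω) (zk k E) (ee x)) atTop (𝓝 a))) :
    ∃ f : ℝ → ℝ, Measurable f ∧ (∀ E, |f E| ≤ M) ∧
      ∀ᵐ ω ∂(PP (Sd d) ν), ∀ᵐ E : ℝ, ∀ x, Ngl (HV K ω) E (Bop ω (ee x) - ((f E : ℝ) : ℂ) • ee x) := by
  haveI : IsProbabilityMeasure (PP (Sd d) ν) := by unfold PP; infer_instance
  obtain ⟨b', hb', hbb⟩ := hb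
  -- the approximations
  set F : ℕ → (Sd d → ℝ) × ℝ → ℝ := fun k => {q : (Sd d → ℝ) × ℝ | q.2 ∈ Sg}.indicator
    (fun q => nmr K b' k q / (GG K q.1 (zk k q.2) 0 0).im) with hF
  have hSgm : MeasurableSet {q : (Sd d → ℝ) × ℝ | q.2 ∈ Sg} := measurable_snd hSg
  have hFm : ∀ k, Measurable (F k) := fun k =>
    ((nmr_meas K hb' k).div (Complex.measurable_im.comp (GG_meas K k 0 0))).indicator hSgm
  have hb0 : ∀ᵐ ω ∂(PP (Sd d) ν), Bop ω (ee 0) = b' ω := by
    filter_upwards [hB4, hbb] with ω h1 h2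
    have h3 := h1 0 (ContinuousLinearMap.id ℂ (L2 d)) (fun ψ x => by
      show ψ x = ψ (x + -0)
      rw [neg_zero, add_zero])
    have h4 : sh (0 : Sd d) ω = ω := by funext y; simp [sh]
    rw [h4] at h3
    rw [h3, ← h2]
    rfl
  -- convergence
  have hconv : ∀ᵐ ω ∂(PP (Sd d) ν), ∀ᵐ E : ℝ, ∃ r : ℝ, Tendsto (fun k => F k (ω, E)) atTop (𝓝 r) ∧
      (∀ x, Ngl (HV K ω) E (Bop ω (ee x) - ((r : ℝ) : ℂ) • ee x)) ∧
      (E ∈ Sg → |r| ≤ M) := by
    filter_upwards [hB1, hB2, hB3, hB5, hb0] with ω h1 h2 h3 h4 h5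
    filter_upwards [h4] with E ⟨⟨g, hg⟩, e2, e3⟩
    by_cases hE : E ∈ Sg
    · obtain ⟨a, ha, hta⟩ := e3 hE 0
      obtain ⟨him, hlim⟩ := nmr_lim (HV_sa K ω) h2 h1 ha hta (hg 0)
      have hgr : ((g.re : ℝ) : ℂ) = g := by
        apply Complex.ext
        · simp
        · simp [him]
      refine ⟨g.re, ?_, ?_, fun _ => ?_⟩
      · have h6 := hlim.div (hta.pow 2) (by positivity)
        have h7 : g.re * a ^ 2 / a ^ 2 = g.re := by
          field_simp
        rw [h7] at h6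
        refine h6.congr fun k => ?_
        rw [hF]
        simp only [Pi.div_apply]
        rw [indicator_of_mem (show (ω, E) ∈ {q : (Sd d → ℝ) × ℝ | q.2 ∈ Sg} from hE)]
        unfold nmr
        simp only
        rw [qn_sq (HV_sa K ω) (zk_im_pos k E), h5, GG_inner]
      · intro x
        rw [hgr]
        exact hg x
      · have h8 := bound_of_ngl (HV_sa K ω) h2 ha hta (hg 0)
        rw [← hgr, Complex.norm_real, Real.norm_eq_abs] at h8
        exact h8.trans h3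
    · refine ⟨0, ?_, fun x => ?_, fun h => absurd h hE⟩
      · refine tendsto_const_nhds.congr fun k => ?_
        rw [hF]
        simp only
        rw [indicator_of_notMem (show (ω, E) ∉ {q : (Sd d → ℝ) × ℝ | q.2 ∈ Sg} from hE)]
      · rw [Complex.ofReal_zero, zero_smul, sub_zero]
        exact Ngl.comm (HV_sa K ω) h2 (e2 hE x)
  -- the measurable limit
  obtain ⟨G, hGm, hG⟩ : ∃ G : (Sd d → ℝ) × ℝ → ℝ, Measurable G ∧
      ∀ᵐ q ∂((PP (Sd d) ν).prod volume), Tendsto (fun k => F k q) atTop (𝓝 (G q)) := by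
    apply measurable_limit_of_tendsto_metrizable_ae
    · intro k
      exact (hFm k).aemeasurable
    · have hm : MeasurableSet {q : (Sd d → ℝ) × ℝ |
          ∃ l : ℝ, Tendsto (fun k => F k q) atTop (𝓝 l)} :=
        measurableSet_exists_tendsto fun k => hFm k
      have h1 : ∀ᵐ V ∂(PP (Sd d) ν), ∀ᵐ E : ℝ, (V, E) ∈ {q : (Sd d → ℝ) × ℝ |
          ∃ l : ℝ, Tendsto (fun k => F k q) atTop (𝓝 l)} := by
        filter_upwards [hconv] with V hV
        filter_upwards [hV] with E ⟨r, hr, _⟩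
        exact ⟨r, hr⟩
      exact (Measure.ae_prod_mem_iff_ae_ae_mem hm).2 h1
  have hGa := Measure.ae_ae_of_ae_prod hG
  have hQ : ∀ᵐ ω ∂(PP (Sd d) ν), ∀ᵐ E : ℝ,
      (∀ x, Ngl (HV K ω) E (Bop ω (ee x) - ((G (ω, E) : ℝ) : ℂ) • ee x)) ∧
      (E ∈ Sg → |G (ω, E)| ≤ M) := by
    filter_upwards [hconv, hGa] with ω h1 h2
    filter_upwards [h1, h2] with E ⟨r, hr1, hr2, hr3⟩ e2
    have := tendsto_nhds_unique e2 hr1
    rw [this]
    exact ⟨hr2, hr3⟩
  -- translation invariance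
  have hinv0 : ∀ᵐ ω ∂(PP (Sd d) ν), ∀ᵐ E : ℝ, ∀ z, E ∈ Sg → G (sh z ω, E) = G (ω, E) := by
    have hQs : ∀ᵐ ω ∂(PP (Sd d) ν), ∀ z : Sd d, (∀ᵐ E : ℝ,
        (∀ x, Ngl (HV K (sh z ω)) E
          (Bop (sh z ω) (ee x) - ((G (sh z ω, E) : ℝ) : ℂ) • ee x))) ∧
        Bop (sh z ω) (ee 0) = b' (sh z ω) ∧ b (sh z ω) = b' (sh z ω) := by
      rw [ae_all_iff]
      intro z
      refine (mp_sh ν z).quasiMeasurePreserving.ae
        (p := fun ω => (∀ᵐ E : ℝ, (∀ x, Ngl (HV K ω) E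
          (Bop ω (ee x) - ((G (ω, E) : ℝ) : ℂ) • ee x))) ∧
        Bop ω (ee 0) = b' ω ∧ b ω = b' ω) ?_
      filter_upwards [hQ, hb0, hbb] with ω h1 h2 h3
      exact ⟨h1.mono fun E hE => hE.1, h2, h3⟩
    filter_upwards [hQ, hQs, hB4, hB5] with ω h1 h2 h3 h4
    rw [ae_all_iff]
    intro z
    obtain ⟨h5, h6, h7⟩ := h2 z
    filter_upwards [h1, h5, h4] with E e1 e2 e3 hE
    obtain ⟨S, hS⟩ := (NB.t_OPS d).1 (-z)
    have h8 := Ngl.shift hS (e2 0)
    rw [map_sub, map_smul, h6, ← h7, ← h3 z S hS] at h8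
    have h9 : S (ee 0) = ee z := NB.LIMB.shift_dl z S hS
    rw [h9] at h8
    obtain ⟨a, ha, hta⟩ := e3.2.2 hE z
    have h10 := unique_of_ngl ha hta h8 (e1.1 z)
    exact_mod_cast h10
  have hinv : ∀ᵐ E : ℝ, E ∈ Sg → ∀ᵐ ω ∂(PP (Sd d) ν), ∀ z, G (sh z ω, E) = G (ω, E) := by
    have hm : MeasurableSet {q : (Sd d → ℝ) × ℝ | ∀ z, q.2 ∈ Sg →
        G (sh z q.1, q.2) = G (q.1, q.2)} := by
      rw [setOf_forall]
      refine MeasurableSet.iInter fun z => ?_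
      have h1 : MeasurableSet {q : (Sd d → ℝ) × ℝ | G (sh z q.1, q.2) = G (q.1, q.2)} :=
        measurableSet_eq_fun (hGm.comp (((meas_sh z).comp measurable_fst).prodMk measurable_snd))
          (hGm.comp (measurable_fst.prodMk measurable_snd))
      have h2 : {q : (Sd d → ℝ) × ℝ | q.2 ∈ Sg → G (sh z q.1, q.2) = G (q.1, q.2)} =
          {q : (Sd d → ℝ) × ℝ | q.2 ∈ Sg}ᶜ ∪ {q | G (sh z q.1, q.2) = G (q.1, q.2)} := by
        ext q
        simp only [mem_setOf_eq, mem_union, mem_compl_iff]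
        tauto
      rw [h2]
      exact hSgm.compl.union h1
    have h1 : ∀ᵐ q ∂((PP (Sd d) ν).prod volume), q ∈ {q : (Sd d → ℝ) × ℝ | ∀ z, q.2 ∈ Sg →
        G (sh z q.1, q.2) = G (q.1, q.2)} := (Measure.ae_prod_mem_iff_ae_ae_mem hm).2 hinv0
    filter_upwards [ae_swap h1] with E hE hES
    filter_upwards [hE] with ω hω z
    exact hω z hES
  -- the deterministic function
  set f0 : ℝ → ℝ := fun E => ∫ ω, G (ω, E) ∂(PP (Sd d) ν) with hf0
  have hf0m : Measurable f0 := by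
    have h1 : StronglyMeasurable (Function.uncurry fun (E : ℝ) (ω : Sd d → ℝ) => G (ω, E)) :=
      (hGm.comp measurable_swap).stronglyMeasurable
    exact (h1.integral_prod_right (ν := PP (Sd d) ν)).measurable
  have hconst : ∀ᵐ E : ℝ, E ∈ Sg → ∀ᵐ ω ∂(PP (Sd d) ν), G (ω, E) = f0 E := by
    filter_upwards [hinv] with E hE hES
    obtain ⟨c, hc⟩ := const_of_inv hd ν (φ := fun ω => G (ω, E))
      (hGm.comp (measurable_id.prodMk measurable_const)) (hE hES)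
    have h1 : f0 E = c := by
      rw [hf0]
      simp only
      rw [integral_congr_ae hc]
      simp
    filter_upwards [hc] with ω hω
    rw [hω, h1]
  have hconst2 : ∀ᵐ ω ∂(PP (Sd d) ν), ∀ᵐ E : ℝ, E ∈ Sg → G (ω, E) = f0 E := by
    have hm : MeasurableSet {q : ℝ × (Sd d → ℝ) | q.1 ∈ Sg → G (q.2, q.1) = f0 q.1} := by
      have h1 : MeasurableSet {q : ℝ × (Sd d → ℝ) | G (q.2, q.1) = f0 q.1} :=
        measurableSet_eq_fun (hGm.comp (measurable_snd.prodMk measurable_fst))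
          (hf0m.comp measurable_fst)
      have h2 : {q : ℝ × (Sd d → ℝ) | q.1 ∈ Sg → G (q.2, q.1) = f0 q.1} =
          {q : ℝ × (Sd d → ℝ) | q.1 ∈ Sg}ᶜ ∪ {q | G (q.2, q.1) = f0 q.1} := by
        ext q
        simp only [mem_setOf_eq, mem_union, mem_compl_iff]
        tauto
      rw [h2]
      exact (measurable_fst hSg).compl.union h1
    have h1 : ∀ᵐ E : ℝ, ∀ᵐ ω ∂(PP (Sd d) ν), (E, ω) ∈
        {q : ℝ × (Sd d → ℝ) | q.1 ∈ Sg → G (q.2, q.1) = f0 q.1} := by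
      filter_upwards [hconst] with E hE
      by_cases hES : E ∈ Sg
      · filter_upwards [hE hES] with ω hω _
        exact hω
      · exact ae_of_all _ fun ω h => absurd h hES
    have h2 := (Measure.ae_prod_mem_iff_ae_ae_mem hm).2 h1
    have h3 := (Measure.measurePreserving_swap (μ := PP (Sd d) ν)
      (ν := (volume : Measure ℝ))).quasiMeasurePreserving.ae h2
    exact Measure.ae_ae_of_ae_prod h3
  set f : ℝ → ℝ := {E | E ∈ Sg ∧ |f0 E| ≤ M}.indicator f0 with hf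
  have hfs : MeasurableSet {E | E ∈ Sg ∧ |f0 E| ≤ M} :=
    hSg.inter (measurableSet_le hf0m.abs measurable_const)
  refine ⟨f, hf0m.indicator hfs, fun E => ?_, ?_⟩
  · by_cases hE : E ∈ {E | E ∈ Sg ∧ |f0 E| ≤ M}
    · rw [hf, indicator_of_mem hE]
      exact hE.2
    · rw [hf, indicator_of_notMem hE, abs_zero]
      exact hM0
  · filter_upwards [hQ, hconst2, hB5, hB2] with ω h1 h2 h3 h4
    filter_upwards [h1, h2, h3] with E e1 e2 e3 x
    by_cases hES : E ∈ Sg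
    · have h5 := e2 hES
      have h6 : E ∈ {E | E ∈ Sg ∧ |f0 E| ≤ M} := ⟨hES, by rw [← h5]; exact e1.2 hES⟩
      rw [hf, indicator_of_mem h6, ← h5]
      exact e1.1 x
    · have h6 : E ∉ {E | E ∈ Sg ∧ |f0 E| ≤ M} := fun h => hES h.1
      rw [hf, indicator_of_notMem h6, Complex.ofReal_zero, zero_smul, sub_zero]
      exact Ngl.comm (HV_sa K ω) h4 (e3.2.1 hES x)

end Pool.Agent.Y662.ERG
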