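import Pool.Agent.Y662.ERG.Mi2

/-! # The density of states of the absolutely continuous subspace -/

set_option autoImplicit false

open MeasureTheory Filter Topology Set
open scoped ENNReal NNReal InnerProductSpace ComplexConjugate

namespace Pool.Agent.Y662.ERG

open Pool.Agent.TH980.IM Pool.Agent.H5R2
open Pool.Agent.H12R2.And (Rz isUnit_sub sub_Rz im_inner norm_Rz_le diff_inner diff_Rz)
open Pool.Agent.TH980.IM.PR

variable {d : ℕ} {v : (NB.Site d → ℝ) → L2 d →L[ℂ] L2 d} {M : ℝ}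
  {ev : (NB.Site d → ℝ) → NB.UG (L2 d)}

theorem dos (K : ℝ) (ν : Measure ℝ) [IsProbabilityMeasure ν] :
    ∃ κ : Measure ℝ, IsFiniteMeasure κ ∧ κ ≪ volume ∧
      ∀ g : ℝ → ℂ, Measurable g → (∃ C : ℝ, ∀ E, ‖g E‖ ≤ C) →
      ∫ ω, (∫ E, g E ∂(spm (HV_sa K ω) (PA K ω (NB.dl 0 : L2 d)))) ∂(NB.PP d ν) =
        ∫ E, g E ∂κ := by
  haveI : IsProbabilityMeasure (NB.PP d ν) := by unfold NB.PP; infer_instance
  set u : L2 d := NB.dl 0 with hu
  obtain ⟨f, hf, hlim⟩ := exists_limV (d := d) K ν u u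
  set P : Measure (Sd d → ℝ) := NB.PP d ν with hP
  have hlim' : ∀ᵐ q ∂(P.prod (volume : Measure ℝ)),
      Tendsto (fun k => inner ℂ u (Rz (HV K q.1) (zk k q.2) u)) atTop (𝓝 (f q)) := hlim
  set n : (Sd d → ℝ) × ℝ → ℝ≥0∞ := fun q => ENNReal.ofReal ((f q).im / kap) with hn
  have hnm : Measurable n := ((Complex.measurable_im.comp hf).div_const kap).ennreal_ofReal
  have hdn : ∀ᵐ ω ∂P, ∀ᵐ E : ℝ, ENNReal.ofReal (dn (HV_sa K ω) u E) = n (ω, E) := by
    filter_upwards [Measure.ae_ae_of_ae_prod hlim'] with ω hω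
    filter_upwards [hω, boundary_spm (HV_sa K ω) u] with E e1 ⟨l, hl, hl2⟩
    have e2 := tendsto_nhds_unique e1 hl
    simp only [hn]
    rw [e2, hl2, mul_div_cancel_left₀ _ kap_pos.ne']
  have hm : ∀ᵐ ω ∂P, spm (HV_sa K ω) (PA K ω u) = volume.withDensity (fun E => n (ω, E)) := by
    filter_upwards [hdn] with ω hω
    refine Measure.ext fun A hA => ?_
    rw [withDensity_apply _ hA]
    have h1 := spm_acP (HV_sa K ω) u (g := A.indicator 1) (measurable_one.indicator hA)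
    rw [lintegral_indicator_one hA] at h1
    have h2 : ∫⁻ E, A.indicator 1 E * ENNReal.ofReal (dn (HV_sa K ω) u E) =
        ∫⁻ E in A, n (ω, E) := by
      rw [← lintegral_indicator hA]
      refine lintegral_congr_ae ?_
      filter_upwards [hω] with E hE
      by_cases h : E ∈ A
      · simp [h, hE]
      · simp [h]
    rw [← h2, ← h1]
    rfl
  have hu1 : ‖u‖ = 1 := NB.STAT.norm_dl 0
  have hfin : ∫⁻ q, n q ∂(P.prod (volume : Measure ℝ)) ≤ 1 := by
    rw [lintegral_prod _ hnm.aemeasurable]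
    calc ∫⁻ ω, (∫⁻ E : ℝ, n (ω, E)) ∂P ≤ ∫⁻ _ω, 1 ∂P := by
          refine lintegral_mono_ae ?_
          filter_upwards [hm] with ω hω
          have h1 : spm (HV_sa K ω) (PA K ω u) univ =
            (volume.withDensity (fun E => n (ω, E))) univ := by rw [hω]
          rw [withDensity_apply _ MeasurableSet.univ, Measure.restrict_univ, spm_univ] at h1
          rw [← h1]
          have h2 : ‖PA K ω u‖ₑ ≤ 1 := by
            rw [← ofReal_norm, ← ENNReal.ofReal_one]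
            exact ENNReal.ofReal_le_ofReal ((acP_norm _ _).trans hu1.le)
          calc ‖PA K ω u‖ₑ ^ 2 ≤ 1 ^ 2 := by gcongr
            _ = 1 := one_pow 2
      _ = 1 := by simp
  have hfin' : ∫⁻ q, n q ∂(P.prod (volume : Measure ℝ)) ≠ ∞ :=
    ne_top_of_le_ne_top ENNReal.one_ne_top hfin
  set Θ := (P.prod (volume : Measure ℝ)).withDensity n with hΘ
  have hΘf : IsFiniteMeasure Θ := isFiniteMeasure_withDensity hfin'
  refine ⟨Θ.map Prod.snd, inferInstance, ?_, fun g hg ⟨C, hC⟩ => ?_⟩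
  · have h1 : Θ ≪ P.prod (volume : Measure ℝ) := withDensity_absolutelyContinuous _ _
    have h2 := h1.map measurable_snd
    rwa [Measure.map_snd_prod, measure_univ, one_smul] at h2
  · rw [integral_map measurable_snd.aemeasurable hg.aestronglyMeasurable, hΘ,
      integral_withDensity_eq_integral_toReal_smul hnm
        (ae_of_all _ fun q => ENNReal.ofReal_lt_top)]
    rw [integral_prod]
    · refine integral_congr_ae ?_
      filter_upwards [hm] with ω hω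
      have h := integral_withDensity_eq_integral_toReal_smul (μ := (volume : Measure ℝ))
        (f := fun E => n (ω, E)) (hnm.comp measurable_prodMk_left)
        (ae_of_all _ fun _ => ENNReal.ofReal_lt_top) g
      rw [hω]
      exact h
    · have h1 : Integrable (fun q => (n q).toReal) (P.prod (volume : Measure ℝ)) :=
        integrable_toReal_of_lintegral_ne_top hnm.aemeasurable hfin'
      have h2 := (h1.ofReal (𝕜 := ℂ)).mul_bdd (c := C)
        ((hg.comp measurable_snd).aestronglyMeasurable) (ae_of_all _ fun q => hC q.2)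
      refine h2.congr (ae_of_all _ fun q => ?_)
      show ((n q).toReal : ℂ) * g q.2 = (n q).toReal • g q.2
      rw [Complex.real_smul]

/-- the complete main theorem -/
theorem main_mic (hd : 1 ≤ d) {K : ℝ} {ν : Measure ℝ} [IsProbabilityMeasure ν]
    (hK : ∀ᵐ r ∂ν, |r| ≤ K) (hν : ∀ r : ℝ, ν {r} ≠ 1)
    (hev : ∀ ω : NB.Site d → ℝ, NB.IsGrp (-1) (fun x => 2 * d + ω x) (ev ω)) :
    ∃ κ : Measure ℝ, IsFiniteMeasure κ ∧ κ ≪ volume ∧
      (∀ t : ℝ, ∫ ω, ⟪PA K ω (NB.dl 0), (ev ω).U t (PA K ω (NB.dl 0))⟫_ℂ ∂(NB.PP d ν) =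
        ∫ E : ℝ, Complex.exp (-(Complex.I * t * E)) ∂κ) ∧
      ∀ (v : (NB.Site d → ℝ) → L2 d →L[ℂ] L2 d) (M : ℝ), Obs d v M →
      ∃ (f : ℝ → ℝ) (Bop : (NB.Site d → ℝ) → L2 d →L[ℂ] L2 d), Measurable f ∧ (∀ E, |f E| ≤ M) ∧
      (∀ Mk : ℕ → ℕ, Tendsto Mk atTop atTop → ∃ a : ℕ → ℕ, StrictMono a ∧
        ∀ᵐ ω ∂(NB.PP d ν), NB.Good (ev ω) (v ω) (Mk ∘ a) (Bop ω)) ∧
      (∀ᵐ ω ∂(NB.PP d ν), (∀ x, |ω x| ≤ K) ∧ (∀ x, Bop ω (HV K ω x) = HV K ω (Bop ω x)) ∧
        ∀ ψ, ∀ᵐ E : ℝ, Ngl (HV K ω) E (Bop ω ψ - ((f E : ℝ) : ℂ) • ψ)) ∧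
      ∀ t : ℝ, ∫ ω, ⟪(ev ω).U t (PA K ω (NB.dl 0)), v ω (PA K ω (NB.dl 0))⟫_ℂ ∂(NB.PP d ν) =
        ∫ E : ℝ, Complex.exp (Complex.I * t * E) * f E ∂κ := by
  obtain ⟨κ, hκ1, hκ2, hκ⟩ := dos (d := d) K ν
  have hbd := bd_ae (d := d) hK
  refine ⟨κ, hκ1, hκ2, fun t => ?_, fun v M hO => ?_⟩
  · rw [← hκ (fun E => Complex.exp (-(Complex.I * t * E))) (by fun_prop)
      ⟨1, fun E => by rw [Complex.norm_exp]; simp⟩]
    refine integral_congr_ae ?_
    filter_upwards [hbd] with ω hω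
    rw [grp_Ex hω (hev ω), Ex_spm (HV_sa K ω)]
  · obtain ⟨f, Bop, hf1, hf2, hlim, hB⟩ := main_f hd hK hν hev hO
    refine ⟨f, Bop, hf1, hf2, hlim, hB, fun t => ?_⟩
    rw [mic hK hev hO hlim t, ← hκ (fun E => Complex.exp (Complex.I * t * E) * f E) (by fun_prop)
      ⟨M, fun E => by
        rw [norm_mul, Complex.norm_exp, Complex.norm_real]
        have : (Complex.I * t * E).re = 0 := by simp
        rw [this, Real.exp_zero, one_mul]
        exact hf2 E⟩]
    refine integral_congr_ae ?_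
    filter_upwards [hB] with ω ⟨h1, h2, h3⟩
    rw [grp_Ex h1 (hev ω)]
    exact inner_of_ngl (HV_sa K ω) h2 hf1 hf2 h3 (acP_ac _ _) t

end Pool.Agent.Y662.ERG
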