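import Pool.Agent.Y662.ERG.Obs
import Pool.Agent.Y662.ERG.Fam

/-! # Orthogonality to the cyclic subspace of a site is preserved by averaged observables -/

set_option autoImplicit false

open MeasureTheory Filter Topology
open scoped BigOperators ENNReal NNReal InnerProductSpace ComplexConjugate

namespace Pool.Agent.Y662.ERG

open Pool.Agent.H5R2.NB Pool.Agent.H5R2.NBA

variable {d : ℕ} {v : (Site d → ℝ) → L2 (Site d) →L[ℂ] L2 (Site d)} {M : ℝ}
  {c : ℝ} {ev : (Site d → ℝ) → UG (L2 (Site d))}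

theorem f1_0 (hev : ∀ V, IsGrp c V (ev V)) (hO : Obs d v M) (ν : Measure ℝ)
    [IsProbabilityMeasure ν] (hν : ∀ κ : ℝ, ν {κ} ≠ 1) (Nk : ℕ → ℕ) (hNk : Tendsto Nk atTop atTop)
    (hG : ∀ᵐ V ∂(PP d ν), ∃ B : L2 (Site d) →L[ℂ] L2 (Site d), Good (ev V) (v V) Nk B) :
    ∀ᵐ V ∂(PP d ν), ∀ B : L2 (Site d) →L[ℂ] L2 (Site d), Good (ev V) (v V) Nk B →
      ∀ φ ∈ HAC (ev V), (∀ t, ⟪φ, (ev V).U t (dl 0)⟫_ℂ = 0) → ⟪B φ, (dl 0 : L2 (Site d))⟫_ℂ = 0 := by
  have hmp := (t_RES d ν).1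
  have h1 : ∀ᵐ p ∂((PP d ν).prod ν), ∃ B : L2 (Site d) →L[ℂ] L2 (Site d),
      Good (ev (Function.update p.1 0 p.2)) (v (Function.update p.1 0 p.2)) Nk B :=
    hmp.quasiMeasurePreserving.ae hG
  have h2 := Measure.ae_ae_of_ae_prod h1
  filter_upwards [h2] with V hV B hB φ hφ hort
  have h3 : ∃ k, k ≠ V 0 ∧ ∃ B : L2 (Site d) →L[ℂ] L2 (Site d),
      Good (ev (Function.update V 0 k)) (v (Function.update V 0 k)) Nk B := by
    by_contra h
    have h4 : ∀ᵐ k ∂ν, k = V 0 := by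
      filter_upwards [hV] with k hk
      by_contra hne
      exact h ⟨k, hne, hk⟩
    have h5 : ν {V 0} = 1 := by
      rw [← prob_compl_eq_zero_iff (measurableSet_singleton _)]
      exact h4
    exact hν _ h5
  obtain ⟨k, hk, B', hB'⟩ := h3
  have hfam := t_FAM ALL.a_UN d c ev hev V
  have hup : Function.update V 0 (V 0) = V := Function.update_eq_self 0 V
  obtain ⟨F, C, hF⟩ := hO.loc V k
  refine w6_hac (fun κ => ev (Function.update V 0 κ)) (dl 0) hfam hk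
    (v (Function.update V 0 k)) (v V) (hO.symm V) F (fun x => (dl x : L2 (Site d))) C
    (fun x => ?_) Nk hNk B' B hB' ?_ φ ?_ ?_
  · rw [norm_sub_rev]
    exact hF x
  · simpa only [hup] using hB
  · simpa only [hup] using hφ
  · simpa only [hup] using hort

theorem f1 (hev : ∀ V, IsGrp c V (ev V)) (hO : Obs d v M) (ν : Measure ℝ)
    [IsProbabilityMeasure ν] (hν : ∀ κ : ℝ, ν {κ} ≠ 1) (Nk : ℕ → ℕ) (hNk : Tendsto Nk atTop atTop)
    (hG : ∀ᵐ V ∂(PP d ν), ∃ B : L2 (Site d) →L[ℂ] L2 (Site d), Good (ev V) (v V) Nk B) :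
    ∀ᵐ V ∂(PP d ν), ∀ B : L2 (Site d) →L[ℂ] L2 (Site d), Good (ev V) (v V) Nk B →
      ∀ z : Site d, ∀ φ ∈ HAC (ev V), (∀ t, ⟪φ, (ev V).U t (dl z)⟫_ℂ = 0) →
        ⟪B φ, (dl z : L2 (Site d))⟫_ℂ = 0 := by
  have h2 := f1_0 hev hO ν hν Nk hNk hG
  have h3 : ∀ᵐ V ∂(PP d ν), ∀ z : Site d, ∀ B : L2 (Site d) →L[ℂ] L2 (Site d),
      Good (ev fun y => V (y + z)) (v fun y => V (y + z)) Nk B →
        ∀ φ ∈ HAC (ev fun y => V (y + z)),
          (∀ t, ⟪φ, (ev fun y => V (y + z)).U t (dl 0)⟫_ℂ = 0) →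
          ⟪B φ, (dl 0 : L2 (Site d))⟫_ℂ = 0 := by
    rw [ae_all_iff]
    intro z
    exact ((t_RES d ν).2 z).quasiMeasurePreserving.ae h2
  filter_upwards [h3] with V hV B hB z φ hφ hort
  obtain ⟨S, hS⟩ := (t_OPS d).1 z
  obtain ⟨T, hT⟩ := (t_OPS d).1 (-z)
  have hSd : S (dl z) = dl 0 := by
    ext x
    rw [hS]
    unfold dl
    rw [lp.single_apply, lp.single_apply, Pi.single_apply, Pi.single_apply]
    by_cases h : x = 0
    · subst h; simp
    · rw [if_neg h, if_neg]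
      intro h'
      apply h
      exact add_eq_right.1 h'
  have hSi : ∀ a b : L2 (Site d), ⟪S a, S b⟫_ℂ = ⟪a, b⟫_ℂ := by
    intro a b
    rw [STAT.shift_inner z S T hS hT, ZAC.inv2 hS hT]
  have h4 := hV z _ (good_conj hev hO hS hT V Nk B hB) (S φ) (ZAC.hac_conj hev hS hT V φ hφ)
    (fun t => by
      rw [← hSd, ALL.a_COV d c ev hev z S hS V, hSi]
      exact hort t)
  have h5 : ((S.comp B).comp T) (S φ) = S (B φ) := by
    show S (B (T (S φ))) = _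
    rw [ZAC.inv2 hS hT]
  rw [h5, ← hSd, hSi] at h4
  exact h4

end Pool.Agent.Y662.ERG
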