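import Pool.Agent.TH980.IM.Loc

/-! # Fibres: bounded operators commuting with a self-adjoint operator, resolvent seminorms -/

set_option autoImplicit false

open MeasureTheory Filter Topology Set
open scoped ENNReal NNReal InnerProductSpace

namespace Pool.Agent.Y662.ERG

open Pool.Agent.TH980.IM
open Pool.Agent.H12R2.And (Rz isUnit_sub sub_Rz im_inner norm_Rz_le diff_inner)

variable {X : Type} [NormedAddCommGroup X] [InnerProductSpace ℂ X] [CompleteSpace X]
variable {T : X →L[ℂ] X}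

theorem Rz_comm (hT : IsSelfAdjoint T) {C : X →L[ℂ] X} (hC : ∀ x, C (T x) = T (C x)) {z : ℂ}
    (hz : z.im ≠ 0) (w : X) : Rz T z (C w) = C (Rz T z w) := by
  symm
  apply Rz_unique hT hz
  rw [← hC, ← map_smul, ← map_sub, sub_Rz hT hz w]

theorem qn_comm (hT : IsSelfAdjoint T) {C : X →L[ℂ] X} (hC : ∀ x, C (T x) = T (C x)) {z : ℂ}
    (hz : z.im ≠ 0) (w : X) : qn T z (C w) ≤ ‖C‖ * qn T z w := by
  unfold qn
  rw [Rz_comm hT hC hz]
  calc Real.sqrt z.im * ‖C (Rz T z w)‖ ≤ Real.sqrt z.im * (‖C‖ * ‖Rz T z w‖) :=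
        mul_le_mul_of_nonneg_left (C.le_opNorm _) (Real.sqrt_nonneg _)
    _ = _ := by ring

theorem cfc_comm (hT : IsSelfAdjoint T) {C : X →L[ℂ] X} (hC : ∀ x, C (T x) = T (C x))
    (f : ℝ → ℝ) (w : X) : cfc f T (C w) = C (cfc f T w) := by
  have h1 : Commute T C := by
    apply ContinuousLinearMap.ext
    intro x
    exact (hC x).symm
  have h2 := h1.cfc_real f
  exact congrArg (fun A : X →L[ℂ] X => A w) h2.eq

theorem spm_lint (hT : IsSelfAdjoint T) (u : X) {g : ℝ → ℝ} (hg : Continuous g) :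
    ∫⁻ x, ‖g x‖ₑ ^ 2 ∂(spm hT u) = ‖cfc g T u‖ₑ ^ 2 := by
  rw [← eLpNorm_eq hT u hg, eLpNorm_two_sq]

theorem spm_univ (hT : IsSelfAdjoint T) (u : X) : spm hT u univ = ‖u‖ₑ ^ 2 := by
  have h := spm_lint hT u (g := fun _ => (1 : ℝ)) continuous_const
  rw [cfc_const_one ℝ T] at h
  simpa using h

theorem spm_comm_le (hT : IsSelfAdjoint T) {C : X →L[ℂ] X} (hC : ∀ x, C (T x) = T (C x))
    (u : X) : spm hT (C u) ≤ (‖C‖₊ ^ 2) • spm hT u := by
  apply meas_le
  intro f hf hf0 hf1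
  have hs : Continuous (fun x => Real.sqrt (f x)) := Real.continuous_sqrt.comp hf
  have e : ∀ x, ‖Real.sqrt (f x)‖ₑ ^ 2 = ENNReal.ofReal (f x) := by
    intro x
    rw [← ofReal_norm, ← ENNReal.ofReal_pow (norm_nonneg _), Real.norm_eq_abs, sq_abs,
      Real.sq_sqrt (hf0 x)]
  have h1 := spm_lint hT (C u) hs
  have h2 := spm_lint hT u hs
  simp_rw [e] at h1 h2
  rw [h1, lintegral_smul_measure, h2, cfc_comm hT hC]
  have h3 : ‖C (cfc (fun x => Real.sqrt (f x)) T u)‖ₑ ≤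
      ‖C‖ₑ * ‖cfc (fun x => Real.sqrt (f x)) T u‖ₑ := C.le_opENorm _
  calc ‖C (cfc (fun x => Real.sqrt (f x)) T u)‖ₑ ^ 2
      ≤ (‖C‖ₑ * ‖cfc (fun x => Real.sqrt (f x)) T u‖ₑ) ^ 2 := by gcongr
    _ = ‖C‖ₑ ^ 2 * ‖cfc (fun x => Real.sqrt (f x)) T u‖ₑ ^ 2 := mul_pow _ _ _
    _ = _ := by
      rw [ENNReal.smul_def, smul_eq_mul, ENNReal.coe_pow]
      rfl

theorem spm_comm_ac (hT : IsSelfAdjoint T) {C : X →L[ℂ] X} (hC : ∀ x, C (T x) = T (C x))
    {u : X} (hu : spm hT u ≪ volume) : spm hT (C u) ≪ volume := by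
  refine (Measure.absolutelyContinuous_of_le (spm_comm_le hT hC u)).trans ?_
  refine Measure.AbsolutelyContinuous.trans ?_ hu
  exact Measure.smul_absolutelyContinuous

/-- the mass of the absolutely continuous part -/
theorem dn_mass (hT : IsSelfAdjoint T) (u : X) :
    ∫⁻ E, ENNReal.ofReal (dn hT u E) ≤ ‖u‖ₑ ^ 2 := by
  rw [← spm_univ hT u]
  refine le_trans (lintegral_mono fun E => ENNReal.ofReal_toReal_le) ?_
  exact Measure.lintegral_rnDeriv_le

theorem dn_meas (hT : IsSelfAdjoint T) (u : X) : Measurable (dn hT u) :=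
  (Measure.measurable_rnDeriv _ _).ennreal_toReal

/-- for an absolutely continuous vector: integrals against the density -/
theorem spm_dn (hT : IsSelfAdjoint T) {u : X} (hu : spm hT u ≪ volume) {g : ℝ → ℝ≥0∞}
    (hg : Measurable g) :
    ∫⁻ E, g E ∂(spm hT u) = ∫⁻ E, g E * ENNReal.ofReal (dn hT u E) := by
  have h1 : (volume : Measure ℝ).withDensity ((spm hT u).rnDeriv volume) = spm hT u :=
    Measure.withDensity_rnDeriv_eq _ _ hu
  conv_lhs => rw [← h1]
  rw [lintegral_withDensity_eq_lintegral_mul _ (Measure.measurable_rnDeriv _ _) hg]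
  refine lintegral_congr_ae ?_
  filter_upwards [Measure.rnDeriv_lt_top (spm hT u) (volume : Measure ℝ)] with E hE
  simp only [Pi.mul_apply]
  unfold dn
  rw [ENNReal.ofReal_toReal hE.ne, mul_comm]

/-- a summable family -/
theorem dn_small (hT : IsSelfAdjoint T) (u : ℕ → X)
    (hu : ∀ n, ∫⁻ E, ENNReal.ofReal (dn hT (u n) E) ≤ (2⁻¹ : ℝ≥0∞) ^ n) :
    ∀ᵐ E : ℝ, Tendsto (fun n => dn hT (u n) E) atTop (𝓝 0) := by
  have hm : ∀ n, AEMeasurable (fun E => ENNReal.ofReal (dn hT (u n) E)) volume := fun n =>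
    (dn_meas hT (u n)).ennreal_ofReal.aemeasurable
  have h1 : ∫⁻ E, ∑' n, ENNReal.ofReal (dn hT (u n) E) ≠ ∞ := by
    rw [lintegral_tsum hm]
    refine ne_top_of_le_ne_top ?_ (ENNReal.tsum_le_tsum hu)
    rw [ENNReal.tsum_geometric]
    simp
  filter_upwards [ae_lt_top' (AEMeasurable.tsum hm) h1] with E hE
  have h2 := ENNReal.tendsto_atTop_zero_of_tsum_ne_top hE.ne
  have h3 := (ENNReal.tendsto_toReal (ENNReal.zero_ne_top)).comp h2
  rw [ENNReal.toReal_zero] at h3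
  refine h3.congr fun n => ?_
  exact ENNReal.toReal_ofReal (dn_nonneg hT _ _)

theorem sqrt_kap_tendsto {a : ℕ → ℝ} (h : Tendsto a atTop (𝓝 0)) :
    Tendsto (fun n => Real.sqrt (kap * a n)) atTop (𝓝 0) := by
  have h1 := (Real.continuous_sqrt.tendsto _).comp (h.const_mul kap)
  rw [mul_zero, Real.sqrt_zero] at h1
  exact h1

/-- negligible at `E` -/
def Ngl (T : X →L[ℂ] X) (E : ℝ) (u : X) : Prop := Tendsto (fun k => qn T (zk k E) u) atTop (𝓝 0)

theorem Ngl.add {E : ℝ} {u w : X} (h1 : Ngl T E u) (h2 : Ngl T E w) : Ngl T E (u + w) := by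
  have h := Tendsto.add h1 h2
  rw [add_zero] at h
  exact squeeze_zero (fun k => qn_nonneg _ _) (fun k => qn_add _ _ _) h

theorem Ngl.smul {E : ℝ} {u : X} (c : ℂ) (h1 : Ngl T E u) : Ngl T E (c • u) := by
  have h := h1.const_mul ‖c‖
  rw [mul_zero] at h
  exact h.congr fun k => (qn_smul _ _ _).symm

theorem Ngl.neg {E : ℝ} {u : X} (h1 : Ngl T E u) : Ngl T E (-u) := by
  rw [← neg_one_smul ℂ u]
  exact h1.smul _

theorem Ngl.sub {E : ℝ} {u w : X} (h1 : Ngl T E u) (h2 : Ngl T E w) : Ngl T E (u - w) := by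
  rw [sub_eq_add_neg]
  exact h1.add h2.neg

theorem Ngl.zero (E : ℝ) : Ngl T E (0 : X) := by
  refine tendsto_const_nhds.congr fun k => ?_
  exact (qn_zero _).symm

theorem Ngl.sum {E : ℝ} {α : Type} (s : Finset α) {u : α → X} (h : ∀ i ∈ s, Ngl T E (u i)) :
    Ngl T E (∑ i ∈ s, u i) := by
  classical
  induction s using Finset.induction_on with
  | empty => exact Ngl.zero E
  | insert a s ha ih =>
    rw [Finset.sum_insert ha]
    exact (h a (Finset.mem_insert_self _ _)).add (ih fun i hi => h i (Finset.mem_insert_of_mem hi))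

theorem Ngl.comm (hT : IsSelfAdjoint T) {C : X →L[ℂ] X} (hC : ∀ x, C (T x) = T (C x)) {E : ℝ}
    {u : X} (h1 : Ngl T E u) : Ngl T E (C u) := by
  have h := h1.const_mul ‖C‖
  rw [mul_zero] at h
  exact squeeze_zero (fun k => qn_nonneg _ _)
    (fun k => qn_comm hT hC (zk_im_pos k E).ne' u) h

theorem qn_sub_abs (z : ℂ) (u w : X) : |qn T z u - qn T z w| ≤ qn T z (u - w) := by
  have h1 : qn T z u ≤ qn T z (u - w) + qn T z w := by
    have := qn_add (T := T) z (u - w) w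
    rwa [sub_add_cancel] at this
  have h2 : qn T z w ≤ qn T z (u - w) + qn T z u := by
    have := qn_add (T := T) z (w - u) u
    rw [sub_add_cancel] at this
    have e : qn T z (w - u) = qn T z (u - w) := by
      have e1 : w - u = (-1 : ℂ) • (u - w) := by
        rw [neg_one_smul, neg_sub]
      rw [e1, qn_smul]
      simp
    rwa [e] at this
  rw [abs_le]
  constructor <;> linarith

theorem Ngl.lim {E : ℝ} {u w : X} (h : Ngl T E (u - w)) {a : ℝ}
    (hw : Tendsto (fun k => qn T (zk k E) w) atTop (𝓝 a)) :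
    Tendsto (fun k => qn T (zk k E) u) atTop (𝓝 a) := by
  have h1 : Tendsto (fun k => qn T (zk k E) u - qn T (zk k E) w) atTop (𝓝 0) :=
    squeeze_zero_norm (fun k => qn_sub_abs _ u w) h
  have h2 := h1.add hw
  rw [zero_add] at h2
  refine h2.congr fun k => ?_
  ring

/-- approximation: negligibility passes to limits in the sense of densities -/
theorem Ngl.of_approx (hT : IsSelfAdjoint T) {E : ℝ} {u : X} {r : ℕ → X} {A : ℝ}
    (hr : ∀ n, Tendsto (fun k => qn T (zk k E) (r n)) atTop (𝓝 (Real.sqrt (kap * dn hT (r n) E))))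
    (hr0 : Tendsto (fun n => dn hT (r n) E) atTop (𝓝 0))
    (h : ∀ n, ∃ w : X, Ngl T E w ∧ ∀ k, qn T (zk k E) u ≤ A * qn T (zk k E) (r n) +
      qn T (zk k E) w) : Ngl T E u := by
  have h0 := (sqrt_kap_tendsto hr0).const_mul A
  rw [mul_zero] at h0
  unfold Ngl
  rw [Metric.tendsto_atTop]
  intro ε hε
  obtain ⟨n, hn⟩ := (h0.eventually (gt_mem_nhds (half_pos hε))).exists
  obtain ⟨w, hw, hle⟩ := h n
  have h1 := ((hr n).const_mul A).add hw
  rw [add_zero] at h1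
  have h2 := h1.eventually (gt_mem_nhds (lt_trans hn (half_lt_self hε)))
  obtain ⟨N, hN⟩ := eventually_atTop.1 h2
  refine ⟨N, fun k hk => ?_⟩
  rw [Real.dist_eq, sub_zero, abs_of_nonneg (qn_nonneg _ _)]
  exact (hle k).trans_lt (hN k hk)

/-- from a dense set of vectors to all vectors -/
theorem fib_all (hT : IsSelfAdjoint T) {C : X →L[ℂ] X} (hC : ∀ x, C (T x) = T (C x))
    (c : ℝ → ℂ) (D : Set X) (hD : ∀ (ψ : X) (δ : ℝ), 0 < δ → ∃ φ ∈ D, ‖ψ - φ‖ < δ)
    (h : ∀ φ ∈ D, ∀ᵐ E : ℝ, Ngl T E (C φ - c E • φ)) (ψ : X) :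
    ∀ᵐ E : ℝ, Ngl T E (C ψ - c E • ψ) := by
  choose φ hφD hφ using fun n : ℕ => hD ψ ((2⁻¹ : ℝ) ^ n) (by positivity)
  have hsm : ∀ᵐ E : ℝ, Tendsto (fun n => dn hT (ψ - φ n) E) atTop (𝓝 0) := by
    apply dn_small hT
    intro n
    refine (dn_mass hT _).trans ?_
    have h1 : ‖ψ - φ n‖ₑ ≤ (2⁻¹ : ℝ≥0∞) ^ n := by
      rw [← ofReal_norm]
      refine (ENNReal.ofReal_le_ofReal (hφ n).le).trans (le_of_eq ?_)
      rw [ENNReal.ofReal_pow (by norm_num), ENNReal.ofReal_inv_of_pos (by norm_num)]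
      norm_num
    have h2 : ((2⁻¹ : ℝ≥0∞) ^ n) ≤ 1 := pow_le_one₀ (by simp) (by simp)
    calc ‖ψ - φ n‖ₑ ^ 2 ≤ ((2⁻¹ : ℝ≥0∞) ^ n) ^ 2 := by gcongr
      _ = ((2⁻¹ : ℝ≥0∞) ^ n) * ((2⁻¹ : ℝ≥0∞) ^ n) := by rw [pow_two]
      _ ≤ ((2⁻¹ : ℝ≥0∞) ^ n) * 1 := by gcongr
      _ = _ := mul_one _
  have h1 : ∀ᵐ E : ℝ, ∀ n, Ngl T E (C (φ n) - c E • φ n) :=
    ae_all_iff.2 fun n => h _ (hφD n)
  have h2 : ∀ᵐ E : ℝ, ∀ n, Tendsto (fun k => qn T (zk k E) (ψ - φ n)) atTop
      (𝓝 (Real.sqrt (kap * dn hT (ψ - φ n) E))) := ae_all_iff.2 fun n => qn_tendsto hT _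
  filter_upwards [hsm, h1, h2] with E e1 e2 e3
  refine Ngl.of_approx hT (r := fun n => ψ - φ n) (A := ‖C‖ + ‖c E‖) e3 e1 fun n => ?_
  refine ⟨_, e2 n, fun k => ?_⟩
  have e4 : C ψ - c E • ψ = (C (ψ - φ n) + (-(c E)) • (ψ - φ n)) + (C (φ n) - c E • φ n) := by
    rw [map_sub, smul_sub, neg_smul, neg_smul]
    abel
  rw [e4]
  refine (qn_add _ _ _).trans (add_le_add ?_ le_rfl)
  refine (qn_add _ _ _).trans ?_
  rw [qn_smul, norm_neg, add_mul]
  exact add_le_add (qn_comm hT hC (zk_im_pos k E).ne' _) le_rfl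

/-- the density of `C u` -/
theorem dn_of_ngl (hT : IsSelfAdjoint T) {C : X →L[ℂ] X} {c : ℝ → ℂ} {u : X}
    (h : ∀ᵐ E : ℝ, Ngl T E (C u - c E • u)) :
    ∀ᵐ E : ℝ, dn hT (C u) E = ‖c E‖ ^ 2 * dn hT u E := by
  filter_upwards [h, qn_tendsto hT u, qn_tendsto hT (C u)] with E h1 h2 h3
  have h4 : Tendsto (fun k => qn T (zk k E) (c E • u)) atTop
      (𝓝 (‖c E‖ * Real.sqrt (kap * dn hT u E))) :=
    (h2.const_mul ‖c E‖).congr fun k => (qn_smul _ _ _).symm
  have h5 := tendsto_nhds_unique h3 (h1.lim h4)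
  have h6 := congrArg (fun x : ℝ => x ^ 2) h5
  simp only [mul_pow] at h6
  rw [Real.sq_sqrt (mul_nonneg kap_pos.le (dn_nonneg _ _ _)),
    Real.sq_sqrt (mul_nonneg kap_pos.le (dn_nonneg _ _ _))] at h6
  have h7 := kap_pos
  have h8 : kap * dn hT (C u) E = kap * (‖c E‖ ^ 2 * dn hT u E) := by rw [h6]; ring
  exact mul_left_cancel₀ h7.ne' h8

/-- the norm of `C u` for an absolutely continuous vector -/
theorem norm_of_ngl (hT : IsSelfAdjoint T) {C : X →L[ℂ] X} (hC : ∀ x, C (T x) = T (C x))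
    {c : ℝ → ℂ} (hc : Measurable c) {u : X} (hu : spm hT u ≪ volume)
    (h : ∀ᵐ E : ℝ, Ngl T E (C u - c E • u)) :
    ‖C u‖ₑ ^ 2 = ∫⁻ E, ‖c E‖ₑ ^ 2 ∂(spm hT u) := by
  have h1 := spm_dn hT (spm_comm_ac hT hC hu) (g := fun _ => 1) measurable_const
  rw [lintegral_one, spm_univ] at h1
  rw [h1, spm_dn hT hu (hc.enorm.pow_const 2)]
  refine lintegral_congr_ae ?_
  filter_upwards [dn_of_ngl hT h] with E hE
  show 1 * ENNReal.ofReal (dn hT (C u) E) = ‖c E‖ₑ ^ 2 * ENNReal.ofReal (dn hT u E)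
  rw [hE, one_mul, ENNReal.ofReal_mul (by positivity), ENNReal.ofReal_pow (norm_nonneg _),
    ofReal_norm]

/-- bounded coefficients -/
theorem bound_of_ngl (hT : IsSelfAdjoint T) {C : X →L[ℂ] X} (hC : ∀ x, C (T x) = T (C x))
    {E : ℝ} {u : X} {c : ℂ} {a : ℝ} (ha : 0 < a)
    (hu : Tendsto (fun k => qn T (zk k E) u) atTop (𝓝 a)) (h : Ngl T E (C u - c • u)) :
    ‖c‖ ≤ ‖C‖ := by
  have h4 : Tendsto (fun k => qn T (zk k E) (c • u)) atTop (𝓝 (‖c‖ * a)) :=
    (hu.const_mul ‖c‖).congr fun k => (qn_smul _ _ _).symm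
  have h5 := h.lim h4
  have h6 := le_of_tendsto_of_tendsto' h5 (hu.const_mul ‖C‖) fun k =>
    qn_comm hT hC (zk_im_pos k E).ne' u
  exact le_of_mul_le_mul_right h6 ha

/-- uniqueness of the coefficient -/
theorem unique_of_ngl {E : ℝ} {u w : X} {c c' : ℂ} {a : ℝ} (ha : 0 < a)
    (hu : Tendsto (fun k => qn T (zk k E) u) atTop (𝓝 a)) (h : Ngl T E (w - c • u))
    (h' : Ngl T E (w - c' • u)) : c = c' := by
  have h1 := h'.sub h
  have e : w - c' • u - (w - c • u) = (c - c') • u := by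
    rw [sub_smul]; abel
  rw [e] at h1
  have h2 : Tendsto (fun k => qn T (zk k E) ((c - c') • u)) atTop (𝓝 (‖c - c'‖ * a)) :=
    (hu.const_mul ‖c - c'‖).congr fun k => (qn_smul _ _ _).symm
  have h3 := tendsto_nhds_unique h2 h1
  rcases mul_eq_zero.1 h3 with h4 | h4
  · exact sub_eq_zero.1 (norm_eq_zero.1 h4)
  · exact absurd h4 ha.ne'

/-- existence of the coefficient: `w` is approximated by polynomials in `T` applied to `u`, in the
sense of densities -/
theorem exists_coeff (hT : IsSelfAdjoint T) {C : X →L[ℂ] X} (hC : ∀ x, C (T x) = T (C x)) (u : X)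
    (p : ℕ → Polynomial ℂ)
    (hp : ∀ n, ∫⁻ E, ENNReal.ofReal (dn hT (C u - Polynomial.aeval T (p n) u) E) ≤
      (2⁻¹ : ℝ≥0∞) ^ n) :
    ∀ᵐ E : ℝ, ∃ g : ℂ, Ngl T E (C u - g • u) := by
  have h1 := dn_small hT (fun n => C u - Polynomial.aeval T (p n) u) hp
  have h2 : ∀ᵐ E : ℝ, ∀ n, Tendsto (fun k => qn T (zk k E) (C u - Polynomial.aeval T (p n) u))
      atTop (𝓝 (Real.sqrt (kap * dn hT (C u - Polynomial.aeval T (p n) u) E))) :=
    ae_all_iff.2 fun n => qn_tendsto hT _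
  filter_upwards [h1, h2, qn_tendsto hT u] with E e1 e2 e3
  set a := Real.sqrt (kap * dn hT u E) with ha
  rcases (Real.sqrt_nonneg (kap * dn hT u E)).eq_or_lt with h0 | h0
  · rw [← ha] at h0
    rw [← h0] at e3
    refine ⟨0, ?_⟩
    rw [zero_smul, sub_zero]
    exact Ngl.comm hT hC e3
  · rw [← ha] at h0
    -- polynomials
    have e4 : ∀ n, Ngl T E (Polynomial.aeval T (p n) u - (p n).eval (E : ℂ) • u) := by
      intro n
      have h := qn_poly hT (p n - Polynomial.C ((p n).eval (E : ℂ))) u E (by simp)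
      have e : (Polynomial.aeval T (p n - Polynomial.C ((p n).eval (E : ℂ)))) u =
          Polynomial.aeval T (p n) u - (p n).eval (E : ℂ) • u := by
        rw [map_sub, Polynomial.aeval_C, Algebra.algebraMap_eq_smul_one]
        rfl
      rw [e] at h
      exact h
    set s : ℕ → ℝ := fun n => Real.sqrt (kap * dn hT (C u - Polynomial.aeval T (p n) u) E) with hs
    have hs0 : Tendsto s atTop (𝓝 0) := sqrt_kap_tendsto e1
    have hs00 : ∀ n, 0 ≤ s n := fun n => Real.sqrt_nonneg _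
    -- `C u - p_n(E) u`
    have e5 : ∀ n, Tendsto (fun k => qn T (zk k E) (C u - (p n).eval (E : ℂ) • u)) atTop
        (𝓝 (s n)) := by
      intro n
      refine Ngl.lim ?_ (e2 n)
      have e : C u - (p n).eval (E : ℂ) • u - (C u - Polynomial.aeval T (p n) u) =
          Polynomial.aeval T (p n) u - (p n).eval (E : ℂ) • u := by abel
      rw [e]
      exact e4 n
    have e6 : ∀ n m, ‖(p n).eval (E : ℂ) - (p m).eval (E : ℂ)‖ * a ≤ s n + s m := by
      intro n m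
      have h3 : Tendsto (fun k => qn T (zk k E) (((p n).eval (E : ℂ) - (p m).eval (E : ℂ)) • u))
          atTop (𝓝 (‖(p n).eval (E : ℂ) - (p m).eval (E : ℂ)‖ * a)) :=
        (e3.const_mul _).congr fun k => (qn_smul _ _ _).symm
      refine le_of_tendsto_of_tendsto' h3 ((e5 n).add (e5 m)) fun k => ?_
      have e : ((p n).eval (E : ℂ) - (p m).eval (E : ℂ)) • u =
          (C u - (p m).eval (E : ℂ) • u) + (-1 : ℂ) • (C u - (p n).eval (E : ℂ) • u) := by
        rw [neg_one_smul, sub_smul]; abel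
      rw [e]
      refine (qn_add _ _ _).trans ?_
      rw [qn_smul]
      simp only [norm_neg, norm_one, one_mul]
      linarith
    have hcs : CauchySeq fun n => (p n).eval (E : ℂ) := by
      rw [Metric.cauchySeq_iff]
      intro ε hε
      have hh : 0 < ε * a / 2 := by positivity
      obtain ⟨N, hN⟩ := eventually_atTop.1 (hs0.eventually (gt_mem_nhds hh))
      refine ⟨N, fun m hm n hn => ?_⟩
      rw [dist_eq_norm]
      have h3 := e6 m n
      have h4 := hN m hm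
      have h5 := hN n hn
      have h6 : ‖(p m).eval (E : ℂ) - (p n).eval (E : ℂ)‖ * a < ε * a := by linarith
      exact lt_of_mul_lt_mul_right h6 h0.le
    obtain ⟨g, hg⟩ := cauchySeq_tendsto_of_complete hcs
    refine ⟨g, ?_⟩
    unfold Ngl
    rw [Metric.tendsto_atTop]
    intro ε hε
    have h3 : Tendsto (fun n => s n + ‖(p n).eval (E : ℂ) - g‖ * (a + 1)) atTop (𝓝 0) := by
      have h4 := (tendsto_iff_norm_sub_tendsto_zero.1 hg).mul_const (a + 1)
      have h5 := hs0.add h4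
      rwa [zero_mul, add_zero] at h5
    obtain ⟨n, hn⟩ := (h3.eventually (gt_mem_nhds (half_pos hε))).exists
    have h6 := (e5 n).eventually (gt_mem_nhds (show s n < s n + ε / 2 by linarith))
    have h7 := e3.eventually (gt_mem_nhds (show a < a + 1 by linarith))
    obtain ⟨N, hN⟩ := eventually_atTop.1 (h6.and h7)
    refine ⟨N, fun k hk => ?_⟩
    obtain ⟨h8, h9⟩ := hN k hk
    rw [Real.dist_eq, sub_zero, abs_of_nonneg (qn_nonneg _ _)]
    have e : C u - g • u = (C u - (p n).eval (E : ℂ) • u) + ((p n).eval (E : ℂ) - g) • u := by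
      rw [sub_smul]; abel
    rw [e]
    refine (qn_add _ _ _).trans_lt ?_
    rw [qn_smul]
    have h10 : ‖(p n).eval (E : ℂ) - g‖ * qn T (zk k E) u ≤
        ‖(p n).eval (E : ℂ) - g‖ * (a + 1) := mul_le_mul_of_nonneg_left h9.le (norm_nonneg _)
    linarith

end Pool.Agent.Y662.ERG
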