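import Pool.Agent.Y662.ERG.Fib
import Pool.Agent.H5R2.NBA.ALL

/-! # The unitary group and the functional calculus -/

set_option autoImplicit false

open MeasureTheory Filter Topology Set
open scoped ENNReal NNReal InnerProductSpace

namespace Pool.Agent.Y662.ERG

open Pool.Agent.TH980.IM
open Pool.Agent.H12R2.And (Rz isUnit_sub sub_Rz im_inner norm_Rz_le diff_inner)

variable {X : Type} [NormedAddCommGroup X] [InnerProductSpace ℂ X] [CompleteSpace X]
variable {T : X →L[ℂ] X}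

/-- `exp(-itT)` -/
noncomputable def Ex (T : X →L[ℂ] X) (t : ℝ) : X →L[ℂ] X :=
  NormedSpace.exp (t • ((-Complex.I) • T))

theorem Ex_deriv (T : X →L[ℂ] X) (t : ℝ) (u : X) :
    HasDerivAt (fun s : ℝ => Ex T s u) (-Complex.I • T (Ex T t u)) t := by
  have h := hasDerivAt_exp_smul_const' (𝕂 := ℝ) ((-Complex.I) • T) t
  exact ((ContinuousLinearMap.apply ℂ X u).restrictScalars ℝ).hasFDerivAt.comp_hasDerivAt t h

theorem Ex_zero (T : X →L[ℂ] X) (u : X) : Ex T 0 u = u := by
  unfold Ex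
  rw [zero_smul, NormedSpace.exp_zero]
  rfl

theorem Ex_comm (T : X →L[ℂ] X) (t : ℝ) (u : X) : Ex T t (T u) = T (Ex T t u) := by
  have h1 : Commute T (t • ((-Complex.I) • T)) := ((Commute.refl T).smul_right _).smul_right _
  have h2 : Commute T (Ex T t) := h1.exp_right
  exact (congrArg (fun A : X →L[ℂ] X => A u) h2.eq).symm

theorem exp_eq {M : Type} [CStarAlgebra M] (x : M) (hx : IsSelfAdjoint x) (t : ℝ) :
    NormedSpace.exp ((Complex.I * t) • x) = cfc (fun y : ℝ => Real.cos (t * y)) x +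
      Complex.I • cfc (fun y : ℝ => Real.sin (t * y)) x := by
  have hn : IsStarNormal x := hx.isStarNormal
  have hn2 : IsStarNormal ((Complex.I * t) • x) := by
    constructor
    rw [star_smul, hx.star_eq]
    exact (Commute.refl x).smul_left _ |>.smul_right _
  have h1 : NormedSpace.exp ((Complex.I * t) • x) =
      cfc (fun z : ℂ => Complex.exp ((Complex.I * t) * z)) x := by
    rw [← CFC.complex_exp_eq_normedSpace_exp hn2]
    exact (cfc_comp_const_mul (Complex.I * t) Complex.exp x (by fun_prop) hn).symm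
  rw [h1, cfc_real_eq_complex (fun y : ℝ => Real.cos (t * y)) hx,
    cfc_real_eq_complex (fun y : ℝ => Real.sin (t * y)) hx,
    ← cfc_const_mul Complex.I (fun z : ℂ => ((Real.sin (t * z.re) : ℝ) : ℂ)) x
      (by
        have : Continuous fun z : ℂ => ((Real.sin (t * z.re) : ℝ) : ℂ) := by fun_prop
        exact this.continuousOn),
    ← cfc_add (a := x) (fun z : ℂ => ((Real.cos (t * z.re) : ℝ) : ℂ))
      (fun z : ℂ => Complex.I * ((Real.sin (t * z.re) : ℝ) : ℂ))
      (by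
        have : Continuous fun z : ℂ => ((Real.cos (t * z.re) : ℝ) : ℂ) := by fun_prop
        exact this.continuousOn)
      (by
        have : Continuous fun z : ℂ => Complex.I * ((Real.sin (t * z.re) : ℝ) : ℂ) := by fun_prop
        exact this.continuousOn)]
  refine cfc_congr fun z hz => ?_
  have hz' : z = (z.re : ℂ) := hx.mem_spectrum_eq_re hz
  change Complex.exp (Complex.I * t * z) = ((Real.cos (t * z.re) : ℝ) : ℂ) +
    Complex.I * ((Real.sin (t * z.re) : ℝ) : ℂ)
  conv_lhs => rw [hz']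
  have h2 : Complex.I * t * (z.re : ℂ) = ((t * z.re : ℝ) : ℂ) * Complex.I := by
    push_cast
    ring
  rw [h2, Complex.exp_mul_I, Complex.ofReal_cos, Complex.ofReal_sin]
  ring

theorem Ex_cfc (hT : IsSelfAdjoint T) (t : ℝ) (u : X) :
    Ex T t u = cfc (fun y : ℝ => Real.cos ((-t) * y)) T u +
      Complex.I • cfc (fun y : ℝ => Real.sin ((-t) * y)) T u := by
  have h := exp_eq T hT (-t)
  have e : t • ((-Complex.I) • T) = (Complex.I * ((-t : ℝ) : ℂ)) • T := by
    have e1 : t • ((-Complex.I) • T) = (t : ℂ) • ((-Complex.I) • T) := rfl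
    rw [e1, smul_smul]
    congr 1
    push_cast
    ring
  unfold Ex
  rw [e, h]
  rfl

/-- the spectral representation of the unitary group -/
theorem Ex_spm (hT : IsSelfAdjoint T) (t : ℝ) (u : X) :
    ⟪u, Ex T t u⟫_ℂ = ∫ E : ℝ, Complex.exp (-(Complex.I * t * E)) ∂(spm hT u) := by
  have hc : Continuous fun y : ℝ => Real.cos ((-t) * y) := by fun_prop
  have hs : Continuous fun y : ℝ => Real.sin ((-t) * y) := by fun_prop
  rw [Ex_cfc hT, inner_add_right, inner_smul_right]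
  have e1 := spm_inner hT u hc
  have e2 := spm_inner hT u hs
  have e3 : ∀ h : ℝ → ℝ, ((∫ a, h a ∂(spm hT u) : ℝ) : ℂ) = ∫ a, ((h a : ℝ) : ℂ) ∂(spm hT u) :=
    fun h => integral_ofReal.symm
  change ⟪u, cfc (fun y : ℝ => Real.cos ((-t) * y)) T u⟫_ℂ +
    Complex.I * ⟪u, cfc (fun y : ℝ => Real.sin ((-t) * y)) T u⟫_ℂ = _
  rw [← e1, ← e2, e3, e3, ← integral_const_mul, ← integral_add]
  · refine integral_congr_ae (ae_of_all _ fun E => ?_)
    show ((Real.cos ((-t) * E) : ℝ) : ℂ) + Complex.I * ((Real.sin ((-t) * E) : ℝ) : ℂ) =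
      Complex.exp (-(Complex.I * t * (E : ℂ)))
    have h2 : -(Complex.I * t * (E : ℂ)) = (((-t) * E : ℝ) : ℂ) * Complex.I := by
      push_cast
      ring
    rw [h2, Complex.exp_mul_I, Complex.ofReal_cos, Complex.ofReal_sin]
    ring
  · exact (spm_int hT u hc).ofReal
  · exact (spm_int hT u hs).ofReal.const_mul _

/-- uniqueness of the spectral measure -/
theorem spm_unique (hT : IsSelfAdjoint T) (u : X) (m : Measure ℝ) [IsFiniteMeasure m]
    (h : ∀ t : ℝ, ⟪u, Ex T t u⟫_ℂ = ∫ E : ℝ, Complex.exp (-(Complex.I * t * E)) ∂m) :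
    m = spm hT u := by
  apply Measure.ext_of_charFun
  funext t
  rw [charFun_apply_real, charFun_apply_real]
  have h1 := h (-t)
  rw [Ex_spm hT] at h1
  have e : ∀ E : ℝ, Complex.exp (-(Complex.I * ((-t : ℝ) : ℂ) * E)) =
      Complex.exp (t * E * Complex.I) := by
    intro E
    congr 1
    push_cast
    ring
  simp_rw [e] at h1
  exact h1.symm

/-- partial sums of the exponential series -/
noncomputable def PN (t : ℝ) (n : ℕ) : Polynomial ℂ :=
  ∑ m ∈ Finset.range n, Polynomial.C (((m.factorial : ℂ)⁻¹) * ((t : ℂ) * (-Complex.I)) ^ m) *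
    Polynomial.X ^ m

theorem PN_eval (t E : ℝ) :
    Tendsto (fun n => (PN t n).eval (E : ℂ)) atTop (𝓝 (Complex.exp (-(Complex.I * t * E)))) := by
  have h := (NormedSpace.exp_series_hasSum_exp' (𝕂 := ℂ) (-(Complex.I * t * E))).tendsto_sum_nat
  rw [← Complex.exp_eq_exp_ℂ] at h
  refine h.congr fun n => ?_
  unfold PN
  rw [Polynomial.eval_finsetSum]
  refine Finset.sum_congr rfl fun m _ => ?_
  rw [Polynomial.eval_mul, Polynomial.eval_C, Polynomial.eval_pow, Polynomial.eval_X, smul_eq_mul]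
  have e : -(Complex.I * (t : ℂ) * (E : ℂ)) = ((t : ℂ) * (-Complex.I)) * E := by ring
  rw [e, mul_pow]
  ring

theorem PN_op (T : X →L[ℂ] X) (t : ℝ) :
    Tendsto (fun n => Polynomial.aeval T (PN t n)) atTop (𝓝 (Ex T t)) := by
  have h := (NormedSpace.exp_series_hasSum_exp' (𝕂 := ℂ)
    (t • ((-Complex.I) • T))).tendsto_sum_nat
  refine h.congr fun n => ?_
  unfold PN
  rw [map_sum]
  refine Finset.sum_congr rfl fun m _ => ?_
  rw [map_mul, map_pow, Polynomial.aeval_C, Polynomial.aeval_X, Algebra.algebraMap_eq_smul_one,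
    smul_mul_assoc, one_mul]
  have e1 : t • ((-Complex.I) • T) = ((t : ℂ) * (-Complex.I)) • T := by
    have e1 : t • ((-Complex.I) • T) = (t : ℂ) • ((-Complex.I) • T) := rfl
    rw [e1, smul_smul]
  rw [e1, smul_pow, smul_smul]

theorem Ngl.of_small {E : ℝ} {u x : X} {r : ℕ → ℝ} {s : ℝ} (hr : Tendsto r atTop (𝓝 0))
    (hx : Tendsto (fun k => qn T (zk k E) x) atTop (𝓝 s))
    (h : ∀ n, ∃ w : X, Ngl T E w ∧ ∀ k, qn T (zk k E) u ≤ r n * qn T (zk k E) x +
      qn T (zk k E) w) : Ngl T E u := by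
  have h0 := hr.mul_const s
  rw [zero_mul] at h0
  unfold Ngl
  rw [Metric.tendsto_atTop]
  intro ε hε
  obtain ⟨n, hn⟩ := (h0.eventually (gt_mem_nhds (half_pos hε))).exists
  obtain ⟨w, hw, hle⟩ := h n
  have h1 := (hx.const_mul (r n)).add hw
  rw [add_zero] at h1
  have h2 := h1.eventually (gt_mem_nhds (lt_trans hn (half_lt_self hε)))
  obtain ⟨N, hN⟩ := eventually_atTop.1 h2
  refine ⟨N, fun k hk => ?_⟩
  rw [Real.dist_eq, sub_zero, abs_of_nonneg (qn_nonneg _ _)]
  exact (hle k).trans_lt (hN k hk)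

theorem aeval_comm (T : X →L[ℂ] X) (p : Polynomial ℂ) (u : X) :
    Polynomial.aeval T p (T u) = T (Polynomial.aeval T p u) := by
  have h1 : Commute T (Polynomial.aeval T p) := by
    have h2 : Commute (Polynomial.aeval T (Polynomial.X : Polynomial ℂ)) (Polynomial.aeval T p) :=
      (Commute.all Polynomial.X p).map (Polynomial.aeval T)
    rwa [Polynomial.aeval_X] at h2
  exact (congrArg (fun A : X →L[ℂ] X => A u) h1.eq).symm

theorem ngl_poly (hT : IsSelfAdjoint T) (p : Polynomial ℂ) (u : X) (E : ℝ) :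
    Ngl T E (Polynomial.aeval T p u - p.eval (E : ℂ) • u) := by
  have h := qn_poly hT (p - Polynomial.C (p.eval (E : ℂ))) u E (by simp)
  have e : (Polynomial.aeval T (p - Polynomial.C (p.eval (E : ℂ)))) u =
      Polynomial.aeval T p u - p.eval (E : ℂ) • u := by
    rw [map_sub, Polynomial.aeval_C, Algebra.algebraMap_eq_smul_one]
    rfl
  rw [e] at h
  exact h

theorem ngl_exp (hT : IsSelfAdjoint T) (t : ℝ) (u : X) :
    ∀ᵐ E : ℝ, Ngl T E (Ex T t u - Complex.exp (-(Complex.I * t * E)) • u) := by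
  filter_upwards [qn_tendsto hT u] with E hE
  have h1 := tendsto_iff_norm_sub_tendsto_zero.1 (PN_op T t)
  have h2 := tendsto_iff_norm_sub_tendsto_zero.1 (PN_eval t E)
  have h3 := h1.add h2
  rw [add_zero] at h3
  refine Ngl.of_small h3 hE fun n => ⟨_, ngl_poly hT (PN t n) u E, fun k => ?_⟩
  have hz := (zk_im_pos k E).ne'
  set C : X →L[ℂ] X := Polynomial.aeval T (PN t n) - Ex T t with hC
  have hCc : ∀ x, C (T x) = T (C x) := by
    intro x
    have e1 : C (T x) = Polynomial.aeval T (PN t n) (T x) - Ex T t (T x) := rfl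
    have e2 : C x = Polynomial.aeval T (PN t n) x - Ex T t x := rfl
    rw [e1, e2, aeval_comm, Ex_comm, map_sub]
  have e : Ex T t u - Complex.exp (-(Complex.I * t * E)) • u = ((-1 : ℂ) • C u +
      ((PN t n).eval (E : ℂ) - Complex.exp (-(Complex.I * t * E))) • u) +
      (Polynomial.aeval T (PN t n) u - (PN t n).eval (E : ℂ) • u) := by
    have e2 : C u = Polynomial.aeval T (PN t n) u - Ex T t u := rfl
    rw [e2, neg_one_smul, sub_smul]
    abel
  rw [e]
  refine (qn_add _ _ _).trans (add_le_add ?_ le_rfl)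
  refine (qn_add _ _ _).trans ?_
  rw [qn_smul, qn_smul, add_mul, norm_neg, norm_one, one_mul]
  exact add_le_add (qn_comm hT hCc hz u) le_rfl

/-- vectors orthogonal to all `T^m e` are orthogonal to the orbit -/
theorem orth_Ex (T : X →L[ℂ] X) {φ e : X} (h : ∀ m : ℕ, ⟪φ, (T ^ m) e⟫_ℂ = 0) (t : ℝ) :
    ⟪φ, Ex T t e⟫_ℂ = 0 := by
  have h1 : Tendsto (fun n => ⟪φ, Polynomial.aeval T (PN t n) e⟫_ℂ) atTop
      (𝓝 ⟪φ, Ex T t e⟫_ℂ) := by
    have h2 : Tendsto (fun n => Polynomial.aeval T (PN t n) e) atTop (𝓝 (Ex T t e)) :=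
      ((ContinuousLinearMap.apply ℂ X e).continuous.tendsto _).comp (PN_op T t)
    exact tendsto_const_nhds.inner h2
  have h3 : ∀ n, ⟪φ, Polynomial.aeval T (PN t n) e⟫_ℂ = 0 := by
    intro n
    unfold PN
    rw [map_sum, sum_apply, inner_sum]
    refine Finset.sum_eq_zero fun m _ => ?_
    rw [map_mul, map_pow, Polynomial.aeval_C, Polynomial.aeval_X, Algebra.algebraMap_eq_smul_one,
      smul_mul_assoc, one_mul]
    show ⟪φ, (((m.factorial : ℂ)⁻¹) * ((t : ℂ) * (-Complex.I)) ^ m) • (T ^ m) e⟫_ℂ = 0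
    rw [inner_smul_right, h m, mul_zero]
  simp only [h3] at h1
  exact (tendsto_nhds_unique h1 tendsto_const_nhds)

/-- an operator commuting with the group commutes with the generator -/
theorem comm_of_Ex {T B : X →L[ℂ] X} (h : ∀ t x, B (Ex T t x) = Ex T t (B x)) (x : X) :
    B (T x) = T (B x) := by
  have h1 := ((B.restrictScalars ℝ).hasFDerivAt (x := Ex T 0 x)).comp_hasDerivAt (0 : ℝ)
    (Ex_deriv T 0 x)
  have h2 := Ex_deriv T 0 (B x)
  have h3 : (⇑(B.restrictScalars ℝ) ∘ fun s : ℝ => Ex T s x) = fun s : ℝ => Ex T s (B x) := by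
    funext s
    exact h s x
  rw [h3] at h1
  have h4 : B (-Complex.I • T (Ex T 0 x)) = -Complex.I • T (Ex T 0 (B x)) := h1.unique h2
  rw [Ex_zero, Ex_zero, map_smul] at h4
  have h5 : (-Complex.I) ≠ 0 := neg_ne_zero.2 Complex.I_ne_zero
  exact smul_right_injective X h5 h4

/-- the mass of the absolutely continuous part is at most the norm of the projection -/
theorem dn_le_proj (hT : IsSelfAdjoint T) (P : X →L[ℂ] X)
    (hP1 : ∀ v, spm hT v ≪ volume → P v = v) (hP2 : ∀ x y, ⟪P x, y⟫_ℂ = ⟪x, P y⟫_ℂ) (u : X) :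
    ∫⁻ E, ENNReal.ofReal (dn hT u E) ≤ ‖P u‖ₑ ^ 2 := by
  set μ := spm hT u with hμ
  have hsing := Measure.mutuallySingular_singularPart μ (volume : Measure ℝ)
  set S : Set ℝ := hsing.nullSet with hS
  have hSm : MeasurableSet S := hsing.measurableSet_nullSet
  have hS1 : μ.singularPart volume S = 0 := hsing.measure_nullSet
  have hS2 : (volume : Measure ℝ) Sᶜ = 0 := hsing.measure_compl_nullSet
  obtain ⟨v, hv⟩ := cut hT u hSm
  have hle : spm hT v ≤ μ.restrict S :=
    spm_le_of hT hSm fun f hf hf1 => (hv f hf hf1).1.le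
  have hac : μ.restrict S ≪ volume := by
    have h1 := Measure.haveLebesgueDecomposition_add μ (volume : Measure ℝ)
    rw [h1, Measure.restrict_add, Measure.restrict_eq_zero.2 hS1, zero_add]
    exact Measure.absolutelyContinuous_of_le Measure.restrict_le_self |>.trans
      (withDensity_absolutelyContinuous _ _)
  have hvac : spm hT v ≪ volume := (Measure.absolutelyContinuous_of_le hle).trans hac
  have hPv := hP1 v hvac
  -- norms
  have h1 := hv (fun _ => 1) continuous_const (fun _ => by simp)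
  rw [cfc_const_one ℝ T] at h1
  have hn1 : ‖v‖ₑ ^ 2 = μ S := by
    have h2 : ‖v‖ₑ = eLpNorm (fun x => 1 * S.indicator (fun _ => (1 : ℝ)) x) 2 μ := h1.1
    rw [h2, eLpNorm_two_sq]
    have e : ∀ x, ‖1 * S.indicator (fun _ => (1 : ℝ)) x‖ₑ ^ 2 =
        S.indicator (fun _ => (1 : ℝ≥0∞)) x := by
      intro x
      by_cases hx : x ∈ S
      · simp [hx]
      · simp [hx]
    simp_rw [e]
    rw [lintegral_indicator hSm]
    simp
  have hn2 : ‖u - v‖ₑ ^ 2 = μ Sᶜ := by
    have h2 : ‖u - v‖ₑ = eLpNorm (fun x => 1 * Sᶜ.indicator (fun _ => (1 : ℝ)) x) 2 μ := h1.2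
    rw [h2, eLpNorm_two_sq]
    have e : ∀ x, ‖1 * Sᶜ.indicator (fun _ => (1 : ℝ)) x‖ₑ ^ 2 =
        Sᶜ.indicator (fun _ => (1 : ℝ≥0∞)) x := by
      intro x
      by_cases hx : x ∈ S
      · simp [hx]
      · simp [hx]
    simp_rw [e]
    rw [lintegral_indicator hSm.compl]
    simp
  have hn3 : ‖u‖ₑ ^ 2 = ‖v‖ₑ ^ 2 + ‖u - v‖ₑ ^ 2 := by
    rw [hn1, hn2, measure_add_measure_compl hSm, hμ, spm_univ]
  have hn4 : ‖u‖ ^ 2 = ‖v‖ ^ 2 + ‖u - v‖ ^ 2 := by
    have e : ∀ w : X, ‖w‖ₑ ^ 2 = ENNReal.ofReal (‖w‖ ^ 2) := fun w => by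
      rw [← ofReal_norm, ENNReal.ofReal_pow (norm_nonneg _)]
    rw [e, e, e, ← ENNReal.ofReal_add (by positivity) (by positivity)] at hn3
    exact (ENNReal.ofReal_eq_ofReal_iff (by positivity) (by positivity)).1 hn3
  have hn5 : RCLike.re ⟪v, u - v⟫_ℂ = 0 := by
    have h2 := norm_add_sq (𝕜 := ℂ) v (u - v)
    rw [add_sub_cancel] at h2
    linarith
  have hn6 : RCLike.re ⟪v, u⟫_ℂ = ‖v‖ ^ 2 := by
    have h2 : ⟪v, u⟫_ℂ = ⟪v, v⟫_ℂ + ⟪v, u - v⟫_ℂ := by
      rw [← inner_add_right, add_sub_cancel]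
    rw [h2, map_add, hn5, add_zero, inner_self_eq_norm_sq (𝕜 := ℂ)]
  have hn7 : ‖v‖ ≤ ‖P u‖ := by
    have h2 : ⟪v, u⟫_ℂ = ⟪v, P u⟫_ℂ := by
      conv_lhs => rw [← hPv]
      rw [hP2]
    rw [h2] at hn6
    have h3 : RCLike.re ⟪v, P u⟫_ℂ ≤ ‖v‖ * ‖P u‖ :=
      (RCLike.re_le_norm _).trans (norm_inner_le_norm _ _)
    rw [hn6, pow_two] at h3
    rcases (norm_nonneg v).eq_or_lt with h4 | h4
    · rw [← h4]; exact norm_nonneg _
    · exact le_of_mul_le_mul_left h3 h4
  calc ∫⁻ E, ENNReal.ofReal (dn hT u E) ≤ ∫⁻ E, μ.rnDeriv volume E :=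
        lintegral_mono fun E => ENNReal.ofReal_toReal_le
    _ = ∫⁻ E in S, μ.rnDeriv volume E := by
        rw [← lintegral_add_compl _ hSm]
        have : (volume : Measure ℝ).restrict Sᶜ = 0 := Measure.restrict_eq_zero.2 hS2
        rw [this, lintegral_zero_measure, add_zero]
    _ ≤ μ S := Measure.setLIntegral_rnDeriv_le S
    _ = ‖v‖ₑ ^ 2 := hn1.symm
    _ ≤ ‖P u‖ₑ ^ 2 := by
        gcongr
        rw [← ofReal_norm, ← ofReal_norm]
        exact ENNReal.ofReal_le_ofReal hn7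

end Pool.Agent.Y662.ERG
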