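import Pool.Agent.Y662.ERG.Mic

/-! # The microcanonical formula: conclusion -/

set_option autoImplicit false

open MeasureTheory Filter Topology Set
open scoped ENNReal NNReal InnerProductSpace ComplexConjugate

namespace Pool.Agent.Y662.ERG

open Pool.Agent.TH980.IM Pool.Agent.H5R2
open Pool.Agent.H12R2.And (Rz isUnit_sub sub_Rz im_inner norm_Rz_le diff_inner diff_Rz)
open Pool.Agent.TH980.IM.PR

variable {d : ℕ} {v : (NB.Site d → ℝ) → L2 d →L[ℂ] L2 d} {M : ℝ}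
  {ev : (NB.Site d → ℝ) → NB.UG (L2 d)}

theorem avP_aesm {c o : ℝ} (hev : ∀ ω : NB.Site d → ℝ, NB.IsGrp c (fun x => o + ω x) (ev ω))
    (hO : Obs d v M) {ν : Measure ℝ} [IsProbabilityMeasure ν] {p : (NB.Site d → ℝ) → L2 d}
    (hp : AEStronglyMeasurable p (NB.PP d ν)) (N : ℕ) :
    AEStronglyMeasurable (fun ω => NB.avP (ev ω) (v ω) N (p ω)) (NB.PP d ν) := by
  have h := ev_cont hev
  have h1 : Continuous (fun q : ((NB.Site d → ℝ) × L2 d) × ℝ => (ev q.1.1).U q.2 q.1.2) :=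
    h.comp (by fun_prop : Continuous fun q : ((NB.Site d → ℝ) × L2 d) × ℝ =>
      ((q.1.1, q.2, q.1.2) : (NB.Site d → ℝ) × ℝ × L2 d))
  have h2 : Continuous (fun q : ((NB.Site d → ℝ) × L2 d) × ℝ =>
      (ev q.1.1).U (-q.2) (v q.1.1 ((ev q.1.1).U q.2 q.1.2))) :=
    h.comp ((continuous_fst.comp continuous_fst).prodMk (continuous_snd.neg.prodMk
      (hO.cont.comp ((continuous_fst.comp continuous_fst).prodMk h1))))
  have h3 := intervalIntegral.continuous_parametric_intervalIntegral_of_continuous' (μ := volume)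
    (f := fun (q : (NB.Site d → ℝ) × L2 d) (s : ℝ) =>
      (ev q.1).U (-s) (v q.1 ((ev q.1).U s q.2))) h2 0 (N : ℝ)
  have h4 := h3.comp_aestronglyMeasurable
    ((aestronglyMeasurable_id (α := NB.Site d → ℝ) (μ := NB.PP d ν)).prodMk hp)
  unfold NB.avP
  exact h4.const_smul ((N : ℂ)⁻¹)

/-- the microcanonical formula -/
theorem mic {K : ℝ} {ν : Measure ℝ} [IsProbabilityMeasure ν] (hK : ∀ᵐ r ∂ν, |r| ≤ K)
    (hev : ∀ ω : NB.Site d → ℝ, NB.IsGrp (-1) (fun x => 2 * d + ω x) (ev ω)) (hO : Obs d v M)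
    {Bop : (NB.Site d → ℝ) → L2 d →L[ℂ] L2 d}
    (hlim : ∀ Mk : ℕ → ℕ, Tendsto Mk atTop atTop → ∃ a : ℕ → ℕ, StrictMono a ∧
        ∀ᵐ ω ∂(NB.PP d ν), NB.Good (ev ω) (v ω) (Mk ∘ a) (Bop ω)) (t : ℝ) :
    ∫ ω, ⟪(ev ω).U t (PA K ω (NB.dl 0)), v ω (PA K ω (NB.dl 0))⟫_ℂ ∂(NB.PP d ν) =
      ∫ ω, ⟪(ev ω).U t (PA K ω (NB.dl 0)), Bop ω (PA K ω (NB.dl 0))⟫_ℂ ∂(NB.PP d ν) := by
  have hPP : IsProbabilityMeasure (NB.PP d ν) := by unfold NB.PP; infer_instance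
  set P := NB.PP d ν with hP
  set p : (NB.Site d → ℝ) → L2 d := fun ω => PA K ω (NB.dl 0) with hp
  have hd0 : ‖(NB.dl 0 : L2 d)‖ = 1 := NB.STAT.norm_dl 0
  have mp : AEStronglyMeasurable p P := PA_aesm K ν aestronglyMeasurable_const
  have hp1 : ∀ ω, ‖p ω‖ ≤ 1 := fun ω => (acP_norm _ _).trans hd0.le
  obtain ⟨mB, hB⟩ := fin_int hev hO hlim p 1 mp hp1
  set q : (NB.Site d → ℝ) → L2 d := fun ω => (ev ω).U t (p ω) with hq
  have mq : AEStronglyMeasurable q P :=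
    (ev_cont hev).comp_aestronglyMeasurable
      ((aestronglyMeasurable_id (α := NB.Site d → ℝ) (μ := NB.PP d ν)).prodMk
        ((aestronglyMeasurable_const (b := t)).prodMk mp))
  have hq1 : ∀ ω, ‖q ω‖ ≤ 1 := fun ω => by
    simp only [hq]
    rw [(ev ω).norm']
    exact hp1 ω
  have hM := hO.nn
  have hF : ∀ ω s r, ‖(ev ω).U s (v ω ((ev ω).U r (p ω)))‖ ≤ M := fun ω s r => by
    rw [(ev ω).norm']
    refine (hO.bound ω _).trans ?_
    rw [(ev ω).norm']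
    calc M * ‖p ω‖ ≤ M * 1 := mul_le_mul_of_nonneg_left (hp1 ω) hM
      _ = M := mul_one M
  have hav : ∀ N ω, ‖NB.avP (ev ω) (v ω) N (p ω)‖ ≤ M := fun N ω =>
    NB.LIMB.norm_avg _ M (fun s => hF ω _ _) N
  have hBn : ∀ᵐ ω ∂P, ‖Bop ω (p ω)‖ ≤ M := by
    obtain ⟨a, ha, hG⟩ := hlim id tendsto_id
    filter_upwards [hG] with ω hω
    exact le_of_tendsto (hω (p ω)).1.norm (Eventually.of_forall fun k => hav _ _)
  have key := tendsto_inner_of_sq mq (ae_of_all _ hq1)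
    (fun N => avP_aesm hev hO mp N) (fun N => ae_of_all _ (hav N)) mB hBn hB
  -- the expectations do not depend on `N`
  set G0 : ℂ := ∫ ω, ⟪(ev ω).U t (p ω), v ω (p ω)⟫_ℂ ∂P with hG0
  have hbd := bd_ae (d := d) hK
  have hG : ∀ s : ℝ, ∫ ω, ⟪q ω, (ev ω).U (-s) (v ω ((ev ω).U s (p ω)))⟫_ℂ ∂P = G0 := by
    intro s
    have e1 := cyc hK hO t s
    have e2 : ∫ ω, ⟪q ω, (ev ω).U (-s) (v ω ((ev ω).U s (p ω)))⟫_ℂ ∂P =
        ∫ ω, ⟪Ex (HV K ω) t (Ex (HV K ω) s (PA K ω (NB.dl 0))),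
        v ω (Ex (HV K ω) s (PA K ω (NB.dl 0)))⟫_ℂ ∂P := by
      refine integral_congr_ae ?_
      filter_upwards [hbd] with ω hω
      have g := grp_Ex hω (hev ω)
      show ⟪(ev ω).U t (p ω), (ev ω).U (-s) (v ω ((ev ω).U s (p ω)))⟫_ℂ = _
      rw [g, g, g]
      have h1 := Ex_adj (HV_sa K ω) s (Ex (HV K ω) t (p ω)) (v ω (Ex (HV K ω) s (p ω)))
      rw [← h1, ← Ex_add, add_comm, Ex_add]
    have e3 : G0 = ∫ ω, ⟪Ex (HV K ω) t (PA K ω (NB.dl 0)), v ω (PA K ω (NB.dl 0))⟫_ℂ ∂P := by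
      refine integral_congr_ae ?_
      filter_upwards [hbd] with ω hω
      rw [grp_Ex hω (hev ω)]
    rw [e2, e3]
    exact e1
  have hN : ∀ N : ℕ, 0 < N → ∫ ω, ⟪q ω, NB.avP (ev ω) (v ω) N (p ω)⟫_ℂ ∂P = G0 := by
    intro N hN
    have hN' : (N : ℂ) ≠ 0 := by exact_mod_cast hN.ne'
    have e1 : ∀ ω, ⟪q ω, NB.avP (ev ω) (v ω) N (p ω)⟫_ℂ =
        (N : ℂ)⁻¹ * ∫ s in (0 : ℝ)..(N : ℝ), ⟪q ω, (ev ω).U (-s) (v ω ((ev ω).U s (p ω)))⟫_ℂ := by
      intro ω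
      unfold NB.avP
      rw [inner_smul_right]
      congr 1
      have h := ContinuousLinearMap.intervalIntegral_comp_comm (innerSL ℂ (q ω))
        ((NB.LIMB.cont_P (ev ω) (v ω) (p ω)).intervalIntegrable (μ := volume) (0 : ℝ) (N : ℝ))
      exact h.symm
    simp_rw [e1]
    rw [integral_const_mul]
    -- Fubini
    set Φ : (NB.Site d → ℝ) → ℝ → ℂ :=
      fun ω s => ⟪q ω, (ev ω).U (-s) (v ω ((ev ω).U s (p ω)))⟫_ℂ with hΦ
    have hΦb : ∀ ω s, ‖Φ ω s‖ ≤ M := by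
      intro ω s
      refine (norm_inner_le_norm _ _).trans ?_
      calc ‖q ω‖ * ‖(ev ω).U (-s) (v ω ((ev ω).U s (p ω)))‖ ≤ 1 * M :=
            mul_le_mul (hq1 ω) (hF ω _ _) (norm_nonneg _) zero_le_one
        _ = M := one_mul M
    have hΦm : AEStronglyMeasurable (Function.uncurry Φ)
        (P.prod (volume.restrict (Ioc (0 : ℝ) N))) := by
      have m1 : AEStronglyMeasurable (fun z : (NB.Site d → ℝ) × ℝ => p z.1)
          (P.prod (volume.restrict (Ioc (0 : ℝ) N))) := mp.comp_fst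
      have m2 : AEStronglyMeasurable (fun z : (NB.Site d → ℝ) × ℝ => q z.1)
          (P.prod (volume.restrict (Ioc (0 : ℝ) N))) := mq.comp_fst
      have h := ev_cont hev
      have h1 : Continuous (fun q : ((NB.Site d → ℝ) × ℝ) × L2 d =>
          (ev q.1.1).U q.1.2 q.2) :=
        h.comp (by fun_prop : Continuous fun q : ((NB.Site d → ℝ) × ℝ) × L2 d =>
          ((q.1.1, q.1.2, q.2) : (NB.Site d → ℝ) × ℝ × L2 d))
      have h2 : Continuous (fun q : ((NB.Site d → ℝ) × ℝ) × L2 d =>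
          (ev q.1.1).U (-q.1.2) (v q.1.1 ((ev q.1.1).U q.1.2 q.2))) :=
        h.comp ((continuous_fst.comp continuous_fst).prodMk
          ((continuous_snd.comp continuous_fst).neg.prodMk
          (hO.cont.comp ((continuous_fst.comp continuous_fst).prodMk h1))))
      have m3 := h2.comp_aestronglyMeasurable
        ((aestronglyMeasurable_id (α := (NB.Site d → ℝ) × ℝ)
          (μ := P.prod (volume.restrict (Ioc (0 : ℝ) N)))).prodMk m1)
      exact m2.inner m3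
    have hΦi : Integrable (Function.uncurry Φ) (P.prod (volume.restrict (Ioc (0 : ℝ) N))) :=
      Integrable.of_bound hΦm M (ae_of_all _ fun z => hΦb z.1 z.2)
    have h0N : (0 : ℝ) ≤ N := Nat.cast_nonneg N
    have e2 : ∫ ω, (∫ s in (0 : ℝ)..(N : ℝ), Φ ω s) ∂P =
        ∫ s in (0 : ℝ)..(N : ℝ), (∫ ω, Φ ω s ∂P) := by
      simp_rw [intervalIntegral.integral_of_le h0N]
      exact integral_integral_swap hΦi
    rw [e2]
    have e3 : ∀ s : ℝ, ∫ ω, Φ ω s ∂P = G0 := hG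
    simp_rw [e3]
    rw [intervalIntegral.integral_const, sub_zero]
    show (N : ℂ)⁻¹ * (((N : ℝ) : ℂ) * G0) = G0
    rw [← mul_assoc]
    have : (((N : ℝ) : ℂ)) = (N : ℂ) := by simp
    rw [this, inv_mul_cancel₀ hN', one_mul]
  have h1 : Tendsto (fun N : ℕ => ∫ ω, ⟪q ω, NB.avP (ev ω) (v ω) N (p ω)⟫_ℂ ∂P) atTop
      (𝓝 G0) := by
    refine tendsto_const_nhds.congr' ?_
    filter_upwards [eventually_gt_atTop 0] with N hN'
    exact (hN N hN').symm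
  exact tendsto_nhds_unique h1 key

end Pool.Agent.Y662.ERG
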