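import Pool.Agent.Y662.ERG.Acp

/-! # The microcanonical formula -/

set_option autoImplicit false

open MeasureTheory Filter Topology Set
open scoped ENNReal NNReal InnerProductSpace ComplexConjugate

namespace Pool.Agent.Y662.ERG

open Pool.Agent.TH980.IM Pool.Agent.H5R2
open Pool.Agent.H12R2.And (Rz isUnit_sub sub_Rz im_inner norm_Rz_le diff_inner diff_Rz)
open Pool.Agent.TH980.IM.PR

section abstract

variable {X : Type} [NormedAddCommGroup X] [InnerProductSpace ℂ X] [CompleteSpace X]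
variable {T : X →L[ℂ] X}

theorem Ex_add (T : X →L[ℂ] X) (s t : ℝ) (u : X) : Ex T (s + t) u = Ex T s (Ex T t u) := by
  unfold Ex
  letI : NormedAlgebra ℚ (X →L[ℂ] X) := NormedAlgebra.restrictScalars ℚ ℂ (X →L[ℂ] X)
  have h : Commute (s • ((-Complex.I) • T)) (t • ((-Complex.I) • T)) :=
    ((Commute.refl _).smul_left s).smul_right t
  rw [add_smul, NormedSpace.exp_add_of_commute h]
  rfl

theorem Ex_adj (hT : IsSelfAdjoint T) (t : ℝ) (x y : X) :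
    ⟪Ex T t x, y⟫_ℂ = ⟪x, Ex T (-t) y⟫_ℂ := by
  have h : star (Ex T t) = Ex T (-t) := by
    unfold Ex
    rw [NormedSpace.star_exp]
    congr 1
    rw [star_smul, star_smul, hT.star_eq]
    simp
  rw [← h]
  exact (ContinuousLinearMap.adjoint_inner_right (Ex T t) x y).symm

theorem Ex_inv (T : X →L[ℂ] X) (t : ℝ) (u : X) : Ex T (-t) (Ex T t u) = u := by
  rw [← Ex_add, neg_add_cancel, Ex_zero]

theorem Ex_inner (hT : IsSelfAdjoint T) (t : ℝ) (x y : X) :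
    ⟪Ex T t x, Ex T t y⟫_ℂ = ⟪x, y⟫_ℂ := by
  rw [Ex_adj hT, Ex_inv]

theorem Ex_norm (hT : IsSelfAdjoint T) (t : ℝ) (u : X) : ‖Ex T t u‖ = ‖u‖ := by
  have h1 : ‖Ex T t u‖ ^ 2 = ‖u‖ ^ 2 := by
    have h2 := congrArg RCLike.re (Ex_inner hT t u u)
    rwa [inner_self_eq_norm_sq (𝕜 := ℂ), inner_self_eq_norm_sq (𝕜 := ℂ)] at h2
  exact (pow_left_inj₀ (norm_nonneg _) (norm_nonneg _) two_ne_zero).1 h1

theorem acP_Ex (hT : IsSelfAdjoint T) (t : ℝ) (u : X) : acP hT (Ex T t u) = Ex T t (acP hT u) :=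
  acP_comm hT (C := Ex T t) (C' := Ex T (-t)) (Ex_comm T t) (Ex_comm T (-t)) (Ex_adj hT t) u

/-- the spectral measure of the absolutely continuous part -/
theorem spm_acP (hT : IsSelfAdjoint T) (u : X) {g : ℝ → ℝ≥0∞} (hg : Measurable g) :
    ∫⁻ E, g E ∂(spm hT (acP hT u)) = ∫⁻ E, g E * ENNReal.ofReal (dn hT u E) := by
  have h1 := dn_le_proj hT (acP hT) (fun v hv => acP_of hT hv) (acP_symm hT) (u - acP hT u)
  rw [map_sub, acP_of hT (acP_ac hT u), sub_self] at h1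
  have h2 : ∫⁻ E, ENNReal.ofReal (dn hT (u - acP hT u) E) = 0 := by
    refine le_antisymm (h1.trans (by simp)) zero_le
  rw [lintegral_eq_zero_iff (dn_meas hT _).ennreal_ofReal] at h2
  have h3 : ∀ᵐ E : ℝ, dn hT u E = dn hT (acP hT u) E := by
    filter_upwards [h2, qn_tendsto hT u, qn_tendsto hT (acP hT u),
      qn_tendsto hT (u - acP hT u)] with E e1 e2 e3 e4
    have e5 : dn hT (u - acP hT u) E = 0 :=
      le_antisymm (ENNReal.ofReal_eq_zero.1 e1) (dn_nonneg _ _ _)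
    rw [e5, mul_zero, Real.sqrt_zero] at e4
    have e6 : Ngl T E (u - acP hT u) := e4
    have e7 := tendsto_nhds_unique e2 (e6.lim e3)
    have e8 : Real.sqrt (kap * dn hT u E) ^ 2 = Real.sqrt (kap * dn hT (acP hT u) E) ^ 2 := by
      rw [e7]
    rw [Real.sq_sqrt (mul_nonneg kap_pos.le (dn_nonneg _ _ _)),
      Real.sq_sqrt (mul_nonneg kap_pos.le (dn_nonneg _ _ _))] at e8
    exact mul_left_cancel₀ kap_pos.ne' e8
  rw [spm_dn hT (acP_ac hT u) hg]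
  refine lintegral_congr_ae ?_
  filter_upwards [h3] with E hE
  rw [hE]

end abstract

variable {d : ℕ} {v : (NB.Site d → ℝ) → L2 d →L[ℂ] L2 d} {M : ℝ}
  {ev : (NB.Site d → ℝ) → NB.UG (L2 d)}

theorem PA_Ex (K : ℝ) (ω : Sd d → ℝ) (t : ℝ) (u : L2 d) :
    PA K ω (Ex (HV K ω) t u) = Ex (HV K ω) t (PA K ω u) := acP_Ex (HV_sa K ω) t u

theorem ev_cont {c o : ℝ} (hev : ∀ ω : NB.Site d → ℝ, NB.IsGrp c (fun x => o + ω x) (ev ω)) :
    Continuous fun p : (NB.Site d → ℝ) × ℝ × L2 d => (ev p.1).U p.2.1 p.2.2 := by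
  have hev' : ∀ V, NB.IsGrp c V (ev (shf o V)) := by
    intro V
    have h := hev (shf o V)
    have e : (fun x => o + shf o V x) = V := by
      funext x
      unfold shf
      ring
    rwa [e] at h
  have h1 := NB.ALL.a_CV d c _ hev'
  have h2 : Continuous fun p : (NB.Site d → ℝ) × ℝ × L2 d =>
      (((fun x => o + p.1 x) : NB.Site d → ℝ), p.2.1, p.2.2) := by fun_prop
  have h3 := h1.comp h2
  have h4 : ∀ ω : NB.Site d → ℝ, shf o (fun x => o + ω x) = ω := by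
    intro ω
    funext x
    unfold shf
    ring
  simpa only [Function.comp_def, h4] using h3

theorem bd_ae {K : ℝ} {ν : Measure ℝ} [IsProbabilityMeasure ν] (hK : ∀ᵐ r ∂ν, |r| ≤ K) :
    ∀ᵐ ω ∂(NB.PP d ν), ∀ x, |ω x| ≤ K := by
  rw [ae_all_iff]
  intro x
  exact (measurePreserving_eval_infinitePi (fun _ : Sd d => ν) x).quasiMeasurePreserving.ae hK

/-- measurability of the evolved vectors -/
theorem Ex_aesm {K : ℝ} {ν : Measure ℝ} [IsProbabilityMeasure ν] (hK : ∀ᵐ r ∂ν, |r| ≤ K)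
    (t : ℝ) {h : (NB.Site d → ℝ) → L2 d} (hh : AEStronglyMeasurable h (NB.PP d ν)) :
    AEStronglyMeasurable (fun ω => Ex (HV K ω) t (h ω)) (NB.PP d ν) := by
  choose ev hev using fun ω : NB.Site d → ℝ => NB.ALL.a_EX d (-1) (fun x => 2 * d + ω x)
  have h1 : AEStronglyMeasurable (fun ω => (ev ω).U t (h ω)) (NB.PP d ν) :=
    (ev_cont hev).comp_aestronglyMeasurable
      ((aestronglyMeasurable_id (α := NB.Site d → ℝ) (μ := NB.PP d ν)).prodMk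
        ((aestronglyMeasurable_const (b := t)).prodMk hh))
  refine h1.congr ?_
  filter_upwards [bd_ae (d := d) hK] with ω hω
  exact grp_Ex hω (hev ω) t (h ω)

theorem v_aesm (hO : Obs d v M) {ν : Measure ℝ} [IsProbabilityMeasure ν]
    {h : (NB.Site d → ℝ) → L2 d}
    (hh : AEStronglyMeasurable h (NB.PP d ν)) :
    AEStronglyMeasurable (fun ω => v ω (h ω)) (NB.PP d ν) :=
  hO.cont.comp_aestronglyMeasurable
    ((aestronglyMeasurable_id (α := NB.Site d → ℝ) (μ := NB.PP d ν)).prodMk hh)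

/-- cyclicity of the trace per unit volume -/
theorem cyc {K : ℝ} {ν : Measure ℝ} [IsProbabilityMeasure ν] (hK : ∀ᵐ r ∂ν, |r| ≤ K)
    (hO : Obs d v M) (t s : ℝ) :
    ∫ ω, ⟪Ex (HV K ω) t (Ex (HV K ω) s (PA K ω (NB.dl 0))),
        v ω (Ex (HV K ω) s (PA K ω (NB.dl 0)))⟫_ℂ ∂(NB.PP d ν) =
      ∫ ω, ⟪Ex (HV K ω) t (PA K ω (NB.dl 0)), v ω (PA K ω (NB.dl 0))⟫_ℂ ∂(NB.PP d ν) := by
  have hPP : IsProbabilityMeasure (NB.PP d ν) := by unfold NB.PP; infer_instance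
  set P := NB.PP d ν with hP
  set Z : (NB.Site d → ℝ) → L2 d → L2 d :=
    fun ω x => PA K ω (Ex (HV K ω) (-t) (v ω (PA K ω x))) with hZ
  set Z' : (NB.Site d → ℝ) → L2 d → L2 d :=
    fun ω x => PA K ω (v ω (Ex (HV K ω) t (PA K ω x))) with hZ'
  have hZZ : ∀ ω x y, ⟪x, Z ω y⟫_ℂ = ⟪Z' ω x, y⟫_ℂ := by
    intro ω x y
    have h1 := Ex_adj (HV_sa K ω) t (PA K ω x) (v ω (PA K ω y))
    simp only [hZ, hZ']
    rw [← PA_symm, ← h1, ← hO.symm, PA_symm]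
  have hn : ∀ ω x, ‖Z ω x‖ ≤ M * ‖x‖ := by
    intro ω x
    refine (acP_norm _ _).trans ?_
    rw [Ex_norm (HV_sa K ω)]
    exact (hO.bound ω _).trans (mul_le_mul_of_nonneg_left (acP_norm _ _) hO.nn)
  have hn' : ∀ ω x, ‖Z' ω x‖ ≤ M * ‖x‖ := by
    intro ω x
    refine (acP_norm _ _).trans ?_
    refine (hO.bound ω _).trans (mul_le_mul_of_nonneg_left ?_ hO.nn)
    rw [Ex_norm (HV_sa K ω)]
    exact acP_norm _ _
  have hcov : ∀ (z : NB.Site d) (S : L2 d →L[ℂ] L2 d), NB.IsShift z S → ∀ ω x,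
      Z (sh z ω) (S x) = S (Z ω x) := by
    intro z S hS ω x
    simp only [hZ]
    have h1 := hO.cov z S hS ω (PA K ω x)
    have h2 : v (sh z ω) (S (PA K ω x)) = S (v ω (PA K ω x)) := h1
    rw [PA_shift K ω z hS, h2, Ex_shift K ω z hS, PA_shift K ω z hS]
  -- measurability
  have mE : ∀ (r : ℝ) {h : (NB.Site d → ℝ) → L2 d}, AEStronglyMeasurable h P →
      AEStronglyMeasurable (fun ω => Ex (HV K ω) r (h ω)) P := fun r h hh => Ex_aesm hK r hh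
  have mP : ∀ {h : (NB.Site d → ℝ) → L2 d}, AEStronglyMeasurable h P →
      AEStronglyMeasurable (fun ω => PA K ω (h ω)) P := fun hh => PA_aesm K ν hh
  have mv : ∀ {h : (NB.Site d → ℝ) → L2 d}, AEStronglyMeasurable h P →
      AEStronglyMeasurable (fun ω => v ω (h ω)) P := fun hh => v_aesm hO hh
  have mZ : ∀ {h : (NB.Site d → ℝ) → L2 d}, AEStronglyMeasurable h P →
      AEStronglyMeasurable (fun ω => Z ω (h ω)) P := fun hh => mP (mE _ (mv (mP hh)))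
  have mZ' : ∀ {h : (NB.Site d → ℝ) → L2 d}, AEStronglyMeasurable h P →
      AEStronglyMeasurable (fun ω => Z' ω (h ω)) P := fun hh => mP (mv (mE _ (mP hh)))
  have mc : ∀ {h : (NB.Site d → ℝ) → L2 d} (x : NB.Site d), AEStronglyMeasurable h P →
      AEStronglyMeasurable (fun ω => (h ω) x) P := fun x hh =>
    (NB.STAT.cont_eval x).comp_aestronglyMeasurable hh
  set f1 : (NB.Site d → ℝ) → L2 d := fun ω => Ex (HV K ω) s (NB.dl 0) with hf1
  set g1 : (NB.Site d → ℝ) → L2 d := fun ω => Z ω (Ex (HV K ω) s (NB.dl 0)) with hg1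
  set f2 : (NB.Site d → ℝ) → L2 d := fun ω => Ex (HV K ω) (-s) (Z' ω (NB.dl 0)) with hf2
  set g2 : (NB.Site d → ℝ) → L2 d := fun ω => Ex (HV K ω) (-s) (NB.dl 0) with hg2
  have hd0 : ‖(NB.dl 0 : L2 d)‖ = 1 := NB.STAT.norm_dl 0
  have mf1 : AEStronglyMeasurable f1 P := mE s aestronglyMeasurable_const
  have mg1 : AEStronglyMeasurable g1 P := mZ mf1
  have mf2 : AEStronglyMeasurable f2 P := mE (-s) (mZ' aestronglyMeasurable_const)
  have mg2 : AEStronglyMeasurable g2 P := mE (-s) aestronglyMeasurable_const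
  have hM := hO.nn
  have bf1 : ∀ ω, ‖f1 ω‖ ≤ 1 + M := fun ω => by
    simp only [hf1]
    rw [Ex_norm (HV_sa K ω), hd0]; linarith
  have bg2 : ∀ ω, ‖g2 ω‖ ≤ 1 + M := fun ω => by
    simp only [hg2]
    rw [Ex_norm (HV_sa K ω), hd0]; linarith
  have bg1 : ∀ ω, ‖g1 ω‖ ≤ 1 + M := fun ω => by
    simp only [hg1]
    refine (hn ω _).trans ?_
    rw [Ex_norm (HV_sa K ω), hd0]; linarith
  have bf2 : ∀ ω, ‖f2 ω‖ ≤ 1 + M := fun ω => by
    simp only [hf2]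
    rw [Ex_norm (HV_sa K ω)]
    refine (hn' ω _).trans ?_
    rw [hd0]; linarith
  have E1 := NB.STAT.exch P f1 g1 (1 + M) (fun x => mc x mf1) (fun x => mc x mg1) bf1 bg1
  have E2 := NB.STAT.exch P f2 g2 (1 + M) (fun x => mc x mf2) (fun x => mc x mg2) bf2 bg2
  have key : ∀ x : NB.Site d, (∫ ω, conj ((f1 ω) x) * (g1 ω) x ∂P) =
      ∫ ω, conj ((f2 ω) (-x)) * (g2 ω) (-x) ∂P := by
    intro x
    obtain ⟨S, hS⟩ := (NB.t_OPS d).1 x
    have hmp := (NB.t_RES d ν).2 x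
    set F : (NB.Site d → ℝ) → ℂ := fun ω => conj ((Ex (HV K ω) s (NB.dl (-x))) 0) *
      (Z ω (Ex (HV K ω) s (NB.dl (-x)))) 0 with hF
    have mF : AEStronglyMeasurable F P := by
      have m1 : AEStronglyMeasurable (fun ω => Ex (HV K ω) s (NB.dl (-x) : L2 d)) P :=
        mE s aestronglyMeasurable_const
      exact (Complex.continuous_conj.comp_aestronglyMeasurable (mc 0 m1)).mul (mc 0 (mZ m1))
    have e1 : ∀ ω, conj ((f1 ω) x) * (g1 ω) x = F (fun y => ω (y + x)) := by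
      intro ω
      have a1 : Ex (HV K (sh x ω)) s (NB.dl (-x)) = S (f1 ω) := by
        rw [← NB.STAT.shift_dl x S hS, Ex_shift K ω x hS]
      have a2 : (Ex (HV K (sh x ω)) s (NB.dl (-x))) 0 = (f1 ω) x := by
        rw [a1, hS, zero_add]
      have a3 : (Z (sh x ω) (Ex (HV K (sh x ω)) s (NB.dl (-x)))) 0 = (g1 ω) x := by
        rw [a1, hcov x S hS, hS, zero_add]
      show _ = conj ((Ex (HV K (sh x ω)) s (NB.dl (-x))) 0) *
        (Z (sh x ω) (Ex (HV K (sh x ω)) s (NB.dl (-x)))) 0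
      rw [a2, a3]
    have e2 : ∀ ω, F ω = conj ((f2 ω) (-x)) * (g2 ω) (-x) := by
      intro ω
      have hadj : ∀ a b : L2 d, ⟪a, Ex (HV K ω) s b⟫_ℂ = ⟪Ex (HV K ω) (-s) a, b⟫_ℂ := by
        intro a b
        have h := Ex_adj (HV_sa K ω) (-s) a b
        rw [neg_neg] at h
        exact h.symm
      have a1 : (Ex (HV K ω) s (NB.dl (-x))) 0 = conj ((g2 ω) (-x)) := by
        rw [← NB.STAT.inner_dl 0, hadj, NB.STAT.inner_dl']
      have a2 : (Z ω (Ex (HV K ω) s (NB.dl (-x)))) 0 = conj ((f2 ω) (-x)) := by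
        rw [← NB.STAT.inner_dl 0, hZZ, hadj, NB.STAT.inner_dl']
      show conj ((Ex (HV K ω) s (NB.dl (-x))) 0) * (Z ω (Ex (HV K ω) s (NB.dl (-x)))) 0 = _
      rw [a1, a2, Complex.conj_conj, mul_comm]
    calc (∫ ω, conj ((f1 ω) x) * (g1 ω) x ∂P)
        = ∫ ω, F (fun y => ω (y + x)) ∂P := by simp_rw [e1]
      _ = ∫ ω, F ω ∂(Measure.map (fun (ω : NB.Site d → ℝ) (y : NB.Site d) => ω (y + x)) P) := by
          rw [integral_map hmp.measurable.aemeasurable]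
          rw [hmp.map_eq]
          exact mF
      _ = ∫ ω, F ω ∂P := by rw [hmp.map_eq]
      _ = _ := by simp_rw [e2]
  have E3 : HasSum (fun x => ∫ ω, conj ((f1 ω) x) * (g1 ω) x ∂P)
      (∫ ω, ⟪f2 ω, g2 ω⟫_ℂ ∂P) := by
    have h := (Equiv.neg (NB.Site d)).hasSum_iff.mpr E2
    have e : (fun x => ∫ ω, conj ((f1 ω) x) * (g1 ω) x ∂P) =
        (fun x => ∫ ω, conj ((f2 ω) x) * (g2 ω) x ∂P) ∘ ⇑(Equiv.neg (NB.Site d)) :=
      funext key
    rw [e]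
    exact h
  have E4 := E1.unique E3
  have hin : ∀ ω u, ⟪Ex (HV K ω) t (PA K ω u), v ω (PA K ω u)⟫_ℂ = ⟪u, Z ω u⟫_ℂ := by
    intro ω u
    simp only [hZ]
    rw [← PA_symm, Ex_adj (HV_sa K ω)]
  have L : ∀ ω, ⟪Ex (HV K ω) t (Ex (HV K ω) s (PA K ω (NB.dl 0))),
        v ω (Ex (HV K ω) s (PA K ω (NB.dl 0)))⟫_ℂ = ⟪f1 ω, g1 ω⟫_ℂ := by
    intro ω
    rw [← PA_Ex]
    exact hin ω _
  have R : ∀ ω, ⟪Ex (HV K ω) t (PA K ω (NB.dl 0)), v ω (PA K ω (NB.dl 0))⟫_ℂ =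
      ⟪f2 ω, g2 ω⟫_ℂ := by
    intro ω
    rw [hin, hZZ]
    exact (Ex_inner (HV_sa K ω) (-s) _ _).symm
  simp_rw [L, R]
  exact E4

/-- mean square convergence gives convergence of the expectations of scalar products -/
theorem tendsto_inner_of_sq {Ω : Type} [MeasurableSpace Ω] {P : Measure Ω} [IsProbabilityMeasure P]
    {a : ℕ → Ω → L2 d} {q : Ω → L2 d} {c : Ω → L2 d} {C : ℝ}
    (hq : AEStronglyMeasurable q P) (hq1 : ∀ᵐ ω ∂P, ‖q ω‖ ≤ 1)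
    (ha : ∀ n, AEStronglyMeasurable (a n) P) (haC : ∀ n, ∀ᵐ ω ∂P, ‖a n ω‖ ≤ C)
    (hc : AEStronglyMeasurable c P) (hcC : ∀ᵐ ω ∂P, ‖c ω‖ ≤ C)
    (h : Tendsto (fun n => ∫⁻ ω, ‖a n ω - c ω‖ₑ ^ 2 ∂P) atTop (𝓝 0)) :
    Tendsto (fun n => ∫ ω, ⟪q ω, a n ω⟫_ℂ ∂P) atTop (𝓝 (∫ ω, ⟪q ω, c ω⟫_ℂ ∂P)) := by
  have hI : ∀ {g : Ω → L2 d}, AEStronglyMeasurable g P → (∀ᵐ ω ∂P, ‖g ω‖ ≤ C) →
      Integrable (fun ω => ⟪q ω, g ω⟫_ℂ) P := by
    intro g hg hgC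
    refine Integrable.of_bound (hq.inner hg) C ?_
    filter_upwards [hq1, hgC] with ω h1 h2
    refine (norm_inner_le_norm _ _).trans ?_
    calc ‖q ω‖ * ‖g ω‖ ≤ 1 * ‖g ω‖ := mul_le_mul_of_nonneg_right h1 (norm_nonneg _)
      _ ≤ C := by rw [one_mul]; exact h2
  rw [tendsto_iff_edist_tendsto_0]
  have h2 : Tendsto (fun n => (∫⁻ ω, ‖a n ω - c ω‖ₑ ^ 2 ∂P) ^ ((1 : ℝ) / 2)) atTop (𝓝 0) := by
    have := (ENNReal.continuous_rpow_const (y := (1 : ℝ) / 2)).tendsto 0 |>.comp h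
    simpa [Function.comp_def] using this
  refine tendsto_of_tendsto_of_tendsto_of_le_of_le tendsto_const_nhds h2 (fun _ => zero_le)
    fun n => ?_
  have e1 : edist (∫ ω, ⟪q ω, a n ω⟫_ℂ ∂P) (∫ ω, ⟪q ω, c ω⟫_ℂ ∂P) =
      ‖∫ ω, (⟪q ω, a n ω⟫_ℂ - ⟪q ω, c ω⟫_ℂ) ∂P‖ₑ := by
    rw [integral_sub (hI (ha n) (haC n)) (hI hc hcC), edist_eq_enorm_sub]
  rw [e1]
  refine (enorm_integral_le_lintegral_enorm _).trans ?_
  have e2 : ∫⁻ ω, ‖⟪q ω, a n ω⟫_ℂ - ⟪q ω, c ω⟫_ℂ‖ₑ ∂P ≤ ∫⁻ ω, ‖a n ω - c ω‖ₑ ∂P := by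
    refine lintegral_mono_ae ?_
    filter_upwards [hq1] with ω h1
    rw [← inner_sub_right, ← ofReal_norm, ← ofReal_norm]
    refine ENNReal.ofReal_le_ofReal ((norm_inner_le_norm _ _).trans ?_)
    calc ‖q ω‖ * ‖a n ω - c ω‖ ≤ 1 * ‖a n ω - c ω‖ :=
          mul_le_mul_of_nonneg_right h1 (norm_nonneg _)
      _ = _ := one_mul _
  refine e2.trans ?_
  have e3 := eLpNorm_le_eLpNorm_of_exponent_le (μ := P) (p := 1) (q := 2) (by norm_num)
    ((ha n).sub hc)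
  rw [eLpNorm_one_eq_lintegral_enorm] at e3
  refine e3.trans ?_
  rw [eLpNorm_eq_lintegral_rpow_enorm_toReal (by norm_num) (by norm_num)]
  simp

end Pool.Agent.Y662.ERG
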