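import Pool.Agent.Y662.ERG.Pol

/-! # Main theorem: averaged observables -/

set_option autoImplicit false

open MeasureTheory Filter Topology Set
open scoped ENNReal NNReal InnerProductSpace

namespace Pool.Agent.Y662.ERG

open Pool.Agent.TH980.IM Pool.Agent.H5R2
open Pool.Agent.TH980.IM.PR

variable {d : ℕ} {v : (NB.Site d → ℝ) → L2 d →L[ℂ] L2 d} {M : ℝ}
  {ev : (NB.Site d → ℝ) → NB.UG (L2 d)}

theorem main_f (hd : 1 ≤ d) {K : ℝ} {ν : Measure ℝ} [IsProbabilityMeasure ν]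
    (hK : ∀ᵐ r ∂ν, |r| ≤ K) (hν : ∀ r : ℝ, ν {r} ≠ 1)
    (hev : ∀ ω : NB.Site d → ℝ, NB.IsGrp (-1) (fun x => 2 * d + ω x) (ev ω)) (hO : Obs d v M) :
    ∃ (f : ℝ → ℝ) (Bop : (NB.Site d → ℝ) → L2 d →L[ℂ] L2 d), Measurable f ∧ (∀ E, |f E| ≤ M) ∧
      (∀ Mk : ℕ → ℕ, Tendsto Mk atTop atTop → ∃ a : ℕ → ℕ, StrictMono a ∧
        ∀ᵐ ω ∂(NB.PP d ν), NB.Good (ev ω) (v ω) (Mk ∘ a) (Bop ω)) ∧
      ∀ᵐ ω ∂(NB.PP d ν), (∀ x, |ω x| ≤ K) ∧ (∀ x, Bop ω (HV K ω x) = HV K ω (Bop ω x)) ∧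
        ∀ ψ, ∀ᵐ E : ℝ, Ngl (HV K ω) E (Bop ω ψ - ((f E : ℝ) : ℂ) • ψ) := by
  obtain ⟨b, hb, hlim⟩ := lim_off (2 * d) hev hO ν hν
  -- the limit operators
  set P : (ℕ → ℕ) → (NB.Site d → ℝ) → (L2 d →L[ℂ] L2 d) → Prop := fun Nk ω B =>
    NB.Good (ev ω) (v ω) Nk B ∧
      (∀ (z : NB.Site d) (S : L2 d →L[ℂ] L2 d), NB.IsShift (-z) S →
        B (NB.dl z) = S (b fun y => ω (y + z))) ∧
      ∀ z : NB.Site d, ∀ φ ∈ NBA.HAC (ev ω), (∀ t, ⟪φ, (ev ω).U t (NB.dl z)⟫_ℂ = 0) →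
        ⟪B φ, (NB.dl z : L2 d)⟫_ℂ = 0 with hP
  obtain ⟨a0, ha0, hG0⟩ := hlim id tendsto_id
  have hN0 : Tendsto (id ∘ a0) atTop atTop := tendsto_id.comp ha0.tendsto_atTop
  set Bop : (NB.Site d → ℝ) → L2 d →L[ℂ] L2 d := fun ω =>
    Classical.epsilon (fun B => P (id ∘ a0) ω B) with hBop
  have hB : ∀ᵐ ω ∂(NB.PP d ν), P (id ∘ a0) ω (Bop ω) := by
    filter_upwards [hG0] with ω hω
    exact Classical.epsilon_spec (p := fun B => P (id ∘ a0) ω B) hω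
  have hbd : ∀ᵐ ω ∂(NB.PP d ν), ∀ x, |ω x| ≤ K := by
    rw [ae_all_iff]
    intro x
    exact (measurePreserving_eval_infinitePi (fun _ : Sd d => ν) x).quasiMeasurePreserving.ae hK
  -- properties
  have hsym : ∀ᵐ ω ∂(NB.PP d ν), ∀ x y, ⟪Bop ω x, y⟫_ℂ = ⟪x, Bop ω y⟫_ℂ := by
    filter_upwards [hB] with ω hω
    exact NBA.W6.B_symm (ev ω) (v ω) (hO.symm ω) _ _ hω.1
  have hcom : ∀ᵐ ω ∂(NB.PP d ν), ∀ t x, Bop ω ((ev ω).U t x) = (ev ω).U t (Bop ω x) := by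
    filter_upwards [hB] with ω hω
    exact (NB.t_BP _ (ev ω) (v ω) _ hN0 _ hω.1).2
  have hnorm : ∀ᵐ ω ∂(NB.PP d ν), ‖Bop ω‖ ≤ M := by
    filter_upwards [hB] with ω hω
    refine ContinuousLinearMap.opNorm_le_bound _ hO.nn fun x => ?_
    refine ((NB.t_BP _ (ev ω) (v ω) _ hN0 _ hω.1).1 x).trans ?_
    exact mul_le_mul_of_nonneg_right (hO.opn ω) (norm_nonneg _)
  have hcomT : ∀ᵐ ω ∂(NB.PP d ν), ∀ x, Bop ω (HV K ω x) = HV K ω (Bop ω x) := by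
    filter_upwards [hcom, hbd] with ω h1 h2
    exact comm_of_Ex fun t x => by rw [← grp_Ex h2 (hev ω), h1, grp_Ex h2 (hev ω)]
  obtain ⟨h, Sg, hSg, hm, hcore⟩ := all_core (d := d) hd hK hν
  have h5 : ∀ᵐ ω ∂(NB.PP d ν), ∀ᵐ E : ℝ,
      (∃ g : ℂ, ∀ x, Ngl (HV K ω) E (Bop ω (ee x) - g • ee x)) ∧
      (E ∉ Sg → ∀ x, Ngl (HV K ω) E (ee x)) ∧
      (E ∈ Sg → ∀ x, ∃ a : ℝ, 0 < a ∧
        Tendsto (fun k => qn (HV K ω) (zk k E) (ee x)) atTop (𝓝 a)) := by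
    filter_upwards [hB, hsym, hcom, hbd, hcore] with ω e1 e2 e3 e4 ⟨e5, e6, e7⟩
    exact per_V hd e4 (hev ω) e2 e3 e1.2.2 e5 e7 e6
  have h4 : ∀ᵐ ω ∂(NB.PP d ν), ∀ (z : Sd d) (S : L2 d →L[ℂ] L2 d), NB.IsShift (-z) S →
      Bop ω (ee z) = S (b (sh z ω)) := hB.mono fun ω hω => hω.2.1
  obtain ⟨f, hf1, hf2, hf3⟩ := det_core hd hSg b hb hO.nn Bop hsym hcomT hnorm h4 h5
  refine ⟨f, Bop, hf1, hf2, fun Mk hMk => ?_, ?_⟩
  · obtain ⟨a, ha, hG⟩ := hlim Mk hMk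
    refine ⟨a, ha, ?_⟩
    filter_upwards [hG, hB] with ω ⟨B, hB1, hB2, _⟩ ⟨_, hB3, _⟩
    have he : B = Bop ω := by
      refine ContinuousLinearMap.ext_on (s := Set.range (NB.dl (d := d)))
        (fun x => NB.LIMB.dl_dense d x) ?_
      rintro _ ⟨z, rfl⟩
      obtain ⟨S, hS⟩ := (NB.t_OPS d).1 (-z)
      rw [hB2 z S hS, hB3 z S hS]
    rw [← he]
    exact hB1
  · filter_upwards [hbd, hcomT, hf3] with ω e1 e2 e3
    refine ⟨e1, e2, fun ψ => ?_⟩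
    refine fib_all (HV_sa K ω) e2 (fun E => ((f E : ℝ) : ℂ)) (Dn d) Dn_dense ?_ ψ
    rintro _ ⟨s, c, rfl⟩
    filter_upwards [e3] with E hE
    have h6 : (Bop ω) (∑ x ∈ s, c x • ee x) - ((f E : ℝ) : ℂ) • ∑ x ∈ s, c x • (ee x : L2 d) =
        ∑ x ∈ s, c x • ((Bop ω) (ee x) - ((f E : ℝ) : ℂ) • ee x) := by
      rw [map_sum, Finset.smul_sum, ← Finset.sum_sub_distrib]
      refine Finset.sum_congr rfl fun x _ => ?_
      rw [map_smul, smul_sub, smul_comm]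
    rw [h6]
    exact Ngl.sum s fun x _ => (hE x).smul _

/-- integer times: convergence in mean square, for all states -/
theorem fin_int {ν : Measure ℝ} [IsProbabilityMeasure ν]
    {c : ℝ} {o : ℝ} (hev : ∀ ω : NB.Site d → ℝ, NB.IsGrp c (fun x => o + ω x) (ev ω))
    (hO : Obs d v M) {Bop : (NB.Site d → ℝ) → L2 d →L[ℂ] L2 d}
    (hlim : ∀ Mk : ℕ → ℕ, Tendsto Mk atTop atTop → ∃ a : ℕ → ℕ, StrictMono a ∧
        ∀ᵐ ω ∂(NB.PP d ν), NB.Good (ev ω) (v ω) (Mk ∘ a) (Bop ω))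
    (ψ : (NB.Site d → ℝ) → L2 d) (R : ℝ) (hψ : AEStronglyMeasurable ψ (NB.PP d ν))
    (hR : ∀ V, ‖ψ V‖ ≤ R) :
    AEStronglyMeasurable (fun ω => Bop ω (ψ ω)) (NB.PP d ν) ∧
    Tendsto (fun N : ℕ => ∫⁻ ω, ‖NB.avP (ev ω) (v ω) N (ψ ω) - Bop ω (ψ ω)‖ₑ ^ 2 ∂(NB.PP d ν))
      atTop (𝓝 0) := by
  haveI : IsProbabilityMeasure (NB.PP d ν) := by unfold NB.PP; infer_instance
  have hR0 : 0 ≤ R := (norm_nonneg _).trans (hR 0)
  -- measurability of the averages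
  have hev' : ∀ V, NB.IsGrp c V (ev (shf o V)) := by
    intro V
    have h := hev (shf o V)
    have e : (fun x => o + shf o V x) = V := by
      funext x
      unfold shf
      ring
    rwa [e] at h
  have hme : ∀ N : ℕ, AEStronglyMeasurable (fun ω => NB.avP (ev ω) (v ω) N (ψ ω)) (NB.PP d ν) := by
    intro N
    have h1 := cont_int hev' (hO.off o) (N : ℝ)
    have h2 : Continuous fun p : (NB.Site d → ℝ) × L2 d =>
        (((fun x => o + p.1 x) : NB.Site d → ℝ), p.2) := by fun_prop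
    have h3 := h1.comp h2
    have h4 : ∀ ω : NB.Site d → ℝ, shf o (fun x => o + ω x) = ω := by
      intro ω
      funext x
      unfold shf
      ring
    have h5 := h3.comp_aestronglyMeasurable
      ((aestronglyMeasurable_id (α := NB.Site d → ℝ) (μ := NB.PP d ν)).prodMk hψ)
    simp only [Function.comp_def, id_eq, h4] at h5
    unfold NB.avP
    exact h5.const_smul ((N : ℂ)⁻¹)
  have hmB : AEStronglyMeasurable (fun ω => Bop ω (ψ ω)) (NB.PP d ν) := by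
    obtain ⟨a, ha, hG⟩ := hlim id tendsto_id
    refine aestronglyMeasurable_of_tendsto_ae atTop (fun k => hme ((id ∘ a) k)) ?_
    filter_upwards [hG] with ω hω
    exact (hω (ψ ω)).1
  refine ⟨hmB, ?_⟩
  refine tendsto_of_subseq_tendsto ?_
  intro Mk hMk
  obtain ⟨a, ha, hG⟩ := hlim Mk hMk
  have hNk : Tendsto (Mk ∘ a) atTop atTop := hMk.comp ha.tendsto_atTop
  refine ⟨a, ?_⟩
  have hbd : ∀ N ω, ‖NB.avP (ev ω) (v ω) N (ψ ω)‖ ≤ M * R := by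
    intro N ω
    refine (NB.LIMB.norm_avg _ (‖v ω‖ * ‖ψ ω‖) (fun s => NB.LIMB.norm_P _ (v ω) _ _ _) _).trans ?_
    exact mul_le_mul (hO.opn ω) (hR ω) (norm_nonneg _) hO.nn
  have key : Tendsto (fun k => ∫⁻ ω, ‖NB.avP (ev ω) (v ω) (Mk (a k)) (ψ ω) -
      Bop ω (ψ ω)‖ₑ ^ 2 ∂(NB.PP d ν)) atTop (𝓝 (∫⁻ _V, 0 ∂(NB.PP d ν))) := by
    refine tendsto_lintegral_of_dominated_convergence'
      (fun _ => ENNReal.ofReal ((M * R + M * R) ^ 2)) (fun k => ?_) (fun k => ?_) ?_ ?_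
    · exact ((hme _).sub hmB).enorm.pow_const 2
    · filter_upwards [hG] with ω hω
      have h3 : ‖Bop ω (ψ ω)‖ ≤ M * R :=
        le_of_tendsto (hω (ψ ω)).1.norm (Eventually.of_forall fun k => hbd _ _)
      have h4 : ‖NB.avP (ev ω) (v ω) (Mk (a k)) (ψ ω) - Bop ω (ψ ω)‖ ≤ M * R + M * R :=
        (norm_sub_le _ _).trans (add_le_add (hbd _ _) h3)
      rw [← ofReal_norm, ← ENNReal.ofReal_pow (norm_nonneg _)]
      exact ENNReal.ofReal_le_ofReal (pow_le_pow_left₀ (norm_nonneg _) h4 2)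
    · rw [lintegral_const]
      simp
    · filter_upwards [hG] with ω hω
      have h4 := (hω (ψ ω)).1
      have h5 := (h4.sub_const (Bop ω (ψ ω))).enorm
      rw [sub_self, enorm_zero] at h5
      have h6 := (ENNReal.continuous_pow 2).tendsto 0 |>.comp h5
      simpa [Function.comp_def] using h6
  simpa using key

/-- pointwise comparison of the average over `[0,T]` and over `[0,⌊T⌋]` -/
theorem norm_real (W : NB.UG (L2 d)) (u : L2 d →L[ℂ] L2 d) (x y : L2 d) (T : ℝ) (hT : 1 ≤ T) :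
    ‖((T : ℂ)⁻¹) • (∫ s in (0 : ℝ)..T, W.U (-s) (u (W.U s x))) - y‖ ≤
      ‖NB.avP W u ⌊T⌋₊ x - y‖ + T⁻¹ * (‖u‖ * ‖x‖ + ‖y‖) := by
  set N := ⌊T⌋₊ with hN
  have hNpos : 0 < N := Nat.floor_pos.2 hT
  have hNt : (N : ℝ) ≤ T := Nat.floor_le (by linarith)
  have hNt2 : T < N + 1 := Nat.lt_floor_add_one T
  have hT0 : 0 < T := by linarith
  have hc := NB.LIMB.cont_P W u x
  have hi : ∀ a b : ℝ, IntervalIntegrable
      (fun s : ℝ => W.U (-s) (u (W.U s x))) volume a b :=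
    fun a b => hc.intervalIntegrable a b
  have hTc : (T : ℂ) ≠ 0 := by exact_mod_cast hT0.ne'
  have e : ∫ s in (0 : ℝ)..T, W.U (-s) (u (W.U s x)) =
      (N : ℂ) • NB.avP W u N x + ∫ s in (N : ℝ)..T, W.U (-s) (u (W.U s x)) := by
    have h1 : (N : ℂ) • NB.avP W u N x = ∫ s in (0 : ℝ)..(N : ℝ), W.U (-s) (u (W.U s x)) := by
      unfold NB.avP
      rw [smul_smul, mul_inv_cancel₀ (by exact_mod_cast hNpos.ne'), one_smul]
      rfl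
    rw [h1, intervalIntegral.integral_add_adjacent_intervals (hi _ _) (hi _ _)]
  have hTN : |T - N| ≤ 1 := by
    rw [abs_of_nonneg (by linarith)]
    linarith
  have h2 : ‖∫ s in (N : ℝ)..T, W.U (-s) (u (W.U s x))‖ ≤ ‖u‖ * ‖x‖ := by
    have := intervalIntegral.norm_integral_le_of_norm_le_const (a := (N : ℝ)) (b := T)
      (f := fun s => W.U (-s) (u (W.U s x))) (C := ‖u‖ * ‖x‖)
      (fun s _ => NB.LIMB.norm_P W u x _ _)
    refine this.trans ?_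
    calc ‖u‖ * ‖x‖ * |T - N| ≤ ‖u‖ * ‖x‖ * 1 := by gcongr
      _ = ‖u‖ * ‖x‖ := mul_one _
  have e2 : ((T : ℂ)⁻¹) • (∫ s in (0 : ℝ)..T, W.U (-s) (u (W.U s x))) - y =
      ((T : ℂ)⁻¹) • ((N : ℂ) • (NB.avP W u N x - y) +
        ((∫ s in (N : ℝ)..T, W.U (-s) (u (W.U s x))) - ((T - N : ℝ) : ℂ) • y)) := by
    have e3 : y = ((T : ℂ)⁻¹) • ((T : ℂ) • y) := by
      rw [smul_smul, inv_mul_cancel₀ hTc, one_smul]
    conv_lhs => rw [e3]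
    rw [← smul_sub, e]
    congr 1
    push_cast
    rw [smul_sub, sub_smul]
    abel
  rw [e2, norm_smul, norm_inv, Complex.norm_real, Real.norm_eq_abs, abs_of_pos hT0]
  calc T⁻¹ * ‖(N : ℂ) • (NB.avP W u N x - y) +
        ((∫ s in (N : ℝ)..T, W.U (-s) (u (W.U s x))) - ((T - N : ℝ) : ℂ) • y)‖
      ≤ T⁻¹ * (T * ‖NB.avP W u N x - y‖ + (‖u‖ * ‖x‖ + ‖y‖)) := by
        refine mul_le_mul_of_nonneg_left ?_ (by positivity)
        refine (norm_add_le _ _).trans (add_le_add ?_ ?_)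
        · rw [norm_smul, Complex.norm_natCast]
          exact mul_le_mul_of_nonneg_right hNt (norm_nonneg _)
        · refine (norm_sub_le _ _).trans (add_le_add h2 ?_)
          rw [norm_smul, Complex.norm_real, Real.norm_eq_abs]
          exact mul_le_of_le_one_left (norm_nonneg _) hTN
    _ = ‖NB.avP W u N x - y‖ + T⁻¹ * (‖u‖ * ‖x‖ + ‖y‖) := by
        field_simp

/-- real times -/
theorem fin_real {ν : Measure ℝ} [IsProbabilityMeasure ν]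
    {c : ℝ} {o : ℝ} (hev : ∀ ω : NB.Site d → ℝ, NB.IsGrp c (fun x => o + ω x) (ev ω))
    (hO : Obs d v M) {Bop : (NB.Site d → ℝ) → L2 d →L[ℂ] L2 d}
    (hlim : ∀ Mk : ℕ → ℕ, Tendsto Mk atTop atTop → ∃ a : ℕ → ℕ, StrictMono a ∧
        ∀ᵐ ω ∂(NB.PP d ν), NB.Good (ev ω) (v ω) (Mk ∘ a) (Bop ω))
    (ψ : (NB.Site d → ℝ) → L2 d) (R : ℝ) (hψ : AEStronglyMeasurable ψ (NB.PP d ν))
    (hR : ∀ V, ‖ψ V‖ ≤ R) :
    Tendsto (fun T : ℝ => ∫⁻ ω, ‖((T : ℂ)⁻¹) • (∫ s in (0 : ℝ)..T,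
      (ev ω).U (-s) (v ω ((ev ω).U s (ψ ω)))) - Bop ω (ψ ω)‖ₑ ^ 2 ∂(NB.PP d ν)) atTop (𝓝 0) := by
  haveI : IsProbabilityMeasure (NB.PP d ν) := by unfold NB.PP; infer_instance
  obtain ⟨hmB, h⟩ := fin_int hev hO hlim ψ R hψ hR
  have hR0 : 0 ≤ R := (norm_nonneg _).trans (hR 0)
  have hfl : Tendsto (fun t : ℝ => ⌊t⌋₊) atTop atTop := tendsto_nat_floor_atTop
  have h2 := h.comp hfl
  have h3 : Tendsto (fun T : ℝ => 2 * (∫⁻ ω, ‖NB.avP (ev ω) (v ω) ⌊T⌋₊ (ψ ω) -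
      Bop ω (ψ ω)‖ₑ ^ 2 ∂(NB.PP d ν)) +
      ENNReal.ofReal (2 * (T⁻¹ * (M * R + M * R)) ^ 2)) atTop (𝓝 0) := by
    have a1 : Tendsto (fun T : ℝ => 2 * (∫⁻ ω, ‖NB.avP (ev ω) (v ω) ⌊T⌋₊ (ψ ω) -
        Bop ω (ψ ω)‖ₑ ^ 2 ∂(NB.PP d ν))) atTop (𝓝 0) := by
      have := ENNReal.Tendsto.const_mul (a := 2) h2 (Or.inr (by norm_num))
      simpa using this
    have a2 : Tendsto (fun T : ℝ => ENNReal.ofReal (2 * (T⁻¹ * (M * R + M * R)) ^ 2)) atTop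
        (𝓝 0) := by
      have b1 : Tendsto (fun T : ℝ => 2 * (T⁻¹ * (M * R + M * R)) ^ 2) atTop (𝓝 0) := by
        have b2 := ((tendsto_inv_atTop_zero (𝕜 := ℝ)).mul_const (M * R + M * R)).pow 2
        have b3 := b2.const_mul 2
        simpa using b3
      have := ENNReal.tendsto_ofReal b1
      simpa using this
    simpa using a1.add a2
  refine tendsto_of_tendsto_of_tendsto_of_le_of_le' tendsto_const_nhds h3
    (Eventually.of_forall fun t => bot_le) ?_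
  filter_upwards [eventually_ge_atTop (1 : ℝ)] with T hT
  have hBn : ∀ᵐ ω ∂(NB.PP d ν), ‖Bop ω (ψ ω)‖ ≤ M * R := by
    obtain ⟨a, ha, hG⟩ := hlim id tendsto_id
    filter_upwards [hG] with ω hω
    refine le_of_tendsto (hω (ψ ω)).1.norm (Eventually.of_forall fun k => ?_)
    refine (NB.LIMB.norm_avg _ (‖v ω‖ * ‖ψ ω‖) (fun s => NB.LIMB.norm_P _ (v ω) _ _ _) _).trans ?_
    exact mul_le_mul (hO.opn ω) (hR ω) (norm_nonneg _) hO.nn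
  have hpt : ∀ᵐ ω ∂(NB.PP d ν), ‖((T : ℂ)⁻¹) • (∫ s in (0 : ℝ)..T,
        (ev ω).U (-s) (v ω ((ev ω).U s (ψ ω)))) - Bop ω (ψ ω)‖ₑ ^ 2 ≤
      2 * ‖NB.avP (ev ω) (v ω) ⌊T⌋₊ (ψ ω) - Bop ω (ψ ω)‖ₑ ^ 2 +
        ENNReal.ofReal (2 * (T⁻¹ * (M * R + M * R)) ^ 2) := by
    filter_upwards [hBn] with ω hω
    have g1 := norm_real (ev ω) (v ω) (ψ ω) (Bop ω (ψ ω)) T hT
    have g2 : T⁻¹ * (‖v ω‖ * ‖ψ ω‖ + ‖Bop ω (ψ ω)‖) ≤ T⁻¹ * (M * R + M * R) := by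
      refine mul_le_mul_of_nonneg_left (add_le_add ?_ hω) (by positivity)
      exact mul_le_mul (hO.opn ω) (hR ω) (norm_nonneg _) hO.nn
    set A := ‖((T : ℂ)⁻¹) • (∫ s in (0 : ℝ)..T, (ev ω).U (-s) (v ω ((ev ω).U s (ψ ω)))) -
      Bop ω (ψ ω)‖ with hA
    set Bn := ‖NB.avP (ev ω) (v ω) ⌊T⌋₊ (ψ ω) - Bop ω (ψ ω)‖ with hBn
    set D := T⁻¹ * (M * R + M * R) with hD
    have g3 : A ^ 2 ≤ 2 * Bn ^ 2 + 2 * D ^ 2 := by
      have hA0 : 0 ≤ A := norm_nonneg _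
      have g4 : A ≤ Bn + D := by linarith
      have g5 : A ^ 2 ≤ (Bn + D) ^ 2 := pow_le_pow_left₀ hA0 g4 2
      nlinarith [sq_nonneg (Bn - D)]
    have e2 : (2 : ℝ≥0∞) * ENNReal.ofReal (Bn ^ 2) = ENNReal.ofReal (2 * Bn ^ 2) := by
      rw [ENNReal.ofReal_mul (by norm_num)]
      norm_num
    rw [← ofReal_norm, ← ofReal_norm, ← hA, ← hBn, ← ENNReal.ofReal_pow (norm_nonneg _),
      ← ENNReal.ofReal_pow (norm_nonneg _), e2,
      ← ENNReal.ofReal_add (by positivity) (by positivity)]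
    exact ENNReal.ofReal_le_ofReal g3
  calc (∫⁻ ω, ‖((T : ℂ)⁻¹) • (∫ s in (0 : ℝ)..T,
        (ev ω).U (-s) (v ω ((ev ω).U s (ψ ω)))) - Bop ω (ψ ω)‖ₑ ^ 2 ∂(NB.PP d ν))
      ≤ ∫⁻ ω, (2 * ‖NB.avP (ev ω) (v ω) ⌊T⌋₊ (ψ ω) - Bop ω (ψ ω)‖ₑ ^ 2 +
        ENNReal.ofReal (2 * (T⁻¹ * (M * R + M * R)) ^ 2)) ∂(NB.PP d ν) :=
        lintegral_mono_ae hpt
    _ = _ := by
        rw [lintegral_add_right _ measurable_const, lintegral_const_mul' _ _ (by norm_num)]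
        simp

end Pool.Agent.Y662.ERG
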