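import Pool.Agent.H5R2.NBA.ALL

/-! # Time averages of covariant observables: stationarity and convergence along subsequences -/

set_option autoImplicit false

open MeasureTheory Filter Topology
open scoped BigOperators ENNReal NNReal InnerProductSpace ComplexConjugate

namespace Pool.Agent.Y662.ERG

open Pool.Agent.H5R2.NB Pool.Agent.H5R2.NBA

/-- a covariant local observable -/
structure Obs (d : ℕ) (v : (Site d → ℝ) → L2 (Site d) →L[ℂ] L2 (Site d)) (M : ℝ) : Prop where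
  symm : ∀ V x y, ⟪v V x, y⟫_ℂ = ⟪x, v V y⟫_ℂ
  bound : ∀ V x, ‖v V x‖ ≤ M * ‖x‖
  cont : Continuous fun p : (Site d → ℝ) × L2 (Site d) => v p.1 p.2
  cov : ∀ (z : Site d) (S : L2 (Site d) →L[ℂ] L2 (Site d)), IsShift z S →
    ∀ V ψ, v (fun y => V (y + z)) (S ψ) = S (v V ψ)
  loc : ∀ V κ, ∃ (F : Finset (Site d)) (C : ℝ), ∀ ψ,
    ‖v (Function.update V 0 κ) ψ - v V ψ‖ ≤ C * ∑ x ∈ F, ‖⟪(dl x : L2 (Site d)), ψ⟫_ℂ‖

variable {d : ℕ} {v : (Site d → ℝ) → L2 (Site d) →L[ℂ] L2 (Site d)} {M : ℝ}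

theorem Obs.nn (h : Obs d v M) : 0 ≤ M := by
  have h1 := h.bound 0 (dl 0)
  rw [STAT.norm_dl, mul_one] at h1
  exact (norm_nonneg _).trans h1

theorem Obs.opn (h : Obs d v M) (V : Site d → ℝ) : ‖v V‖ ≤ M :=
  ContinuousLinearMap.opNorm_le_bound _ h.nn (h.bound V)

/-- the observable at time `s` applied to `δ_0` -/
noncomputable def tauO (ev : (Site d → ℝ) → UG (L2 (Site d)))
    (v : (Site d → ℝ) → L2 (Site d) →L[ℂ] L2 (Site d)) (s : ℝ) (V : Site d → ℝ) : L2 (Site d) :=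
  (ev V).U (-s) (v V ((ev V).U s (dl 0)))

theorem XX_normM {ι : Type} (W : UG (L2 ι)) (v : L2 ι →L[ℂ] L2 ι) {M : ℝ}
    (hv : ∀ x, ‖v x‖ ≤ M * ‖x‖) (s : ℝ) (f : L2 ι) :
    ‖STAT.XX W v s f‖ ≤ M * ‖f‖ := by
  unfold STAT.XX
  rw [W.norm']
  calc ‖v (W.U s f)‖ ≤ M * ‖W.U s f‖ := hv _
    _ = M * ‖f‖ := by rw [W.norm']

open STAT in
theorem stat {c : ℝ} {ev : (Site d → ℝ) → UG (L2 (Site d))} (hev : ∀ V, IsGrp c V (ev V))
    (hO : Obs d v M) (ν : Measure ℝ) [IsProbabilityMeasure ν] (s s' a : ℝ) :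
      ∫ V, ⟪tauO ev v (s + a) V, tauO ev v (s' + a) V⟫_ℂ ∂(PP d ν) =
        ∫ V, ⟪tauO ev v s V, tauO ev v s' V⟫_ℂ ∂(PP d ν) := by
  have h1 : St_COV := ALL.a_COV
  have h3 : St_RES := t_RES
  have h2 : St_CV := ALL.a_CV
  have h4 : St_OPS := t_OPS
  have hvs := hO.symm
  have hM := hO.nn
  -- continuity
  have hcU : ∀ (t : ℝ) (f : (Site d → ℝ) → L2 (Site d)), Continuous f →
      Continuous fun V => (ev V).U t (f V) := by
    intro t f hf
    exact (h2 d c ev hev).comp (continuous_id.prodMk (continuous_const.prodMk hf))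
  have hcX : ∀ (t : ℝ) (f : (Site d → ℝ) → L2 (Site d)), Continuous f →
      Continuous fun V => XX (ev V) (v V) t (f V) := by
    intro t f hf
    exact hcU (-t) _ (hO.cont.comp (continuous_id.prodMk (hcU t f hf)))
  have hPP : IsProbabilityMeasure (PP d ν) := by unfold PP; infer_instance
  -- the four vectors
  set f1 : (Site d → ℝ) → L2 (Site d) := fun V => (ev V).U a (dl 0) with hf1
  set g1 : (Site d → ℝ) → L2 (Site d) :=
    fun V => XX (ev V) (v V) s (XX (ev V) (v V) s' ((ev V).U a (dl 0))) with hg1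
  set f2 : (Site d → ℝ) → L2 (Site d) :=
    fun V => (ev V).U (-a) (XX (ev V) (v V) s' (XX (ev V) (v V) s (dl 0))) with hf2
  set g2 : (Site d → ℝ) → L2 (Site d) := fun V => (ev V).U (-a) (dl 0) with hg2
  have cf1 : Continuous f1 := hcU a _ continuous_const
  have cg1 : Continuous g1 := hcX s _ (hcX s' _ (hcU a _ continuous_const))
  have cf2 : Continuous f2 := hcU (-a) _ (hcX s' _ (hcX s _ continuous_const))
  have cg2 : Continuous g2 := hcU (-a) _ continuous_const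
  set A : ℝ := 1 + M * M with hA
  have hv0 : 0 ≤ M * M := mul_nonneg hM hM
  have bf1 : ∀ V, ‖f1 V‖ ≤ A := by
    intro V
    show ‖(ev V).U a (dl 0)‖ ≤ A
    rw [(ev V).norm', norm_dl]; linarith
  have bg2 : ∀ V, ‖g2 V‖ ≤ A := by
    intro V
    show ‖(ev V).U (-a) (dl 0)‖ ≤ A
    rw [(ev V).norm', norm_dl]; linarith
  have bXX : ∀ V t t' (f : L2 (Site d)), ‖f‖ = 1 →
      ‖XX (ev V) (v V) t (XX (ev V) (v V) t' f)‖ ≤ A := by
    intro V t t' f hf
    have e1 := XX_normM (ev V) (v V) (hO.bound V) t (XX (ev V) (v V) t' f)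
    have e2 := XX_normM (ev V) (v V) (hO.bound V) t' f
    rw [hf, mul_one] at e2
    have e3 : M * ‖XX (ev V) (v V) t' f‖ ≤ M * M :=
      mul_le_mul_of_nonneg_left e2 hM
    linarith
  have bg1 : ∀ V, ‖g1 V‖ ≤ A := by
    intro V
    exact bXX V s s' _ (by rw [(ev V).norm', norm_dl])
  have bf2 : ∀ V, ‖f2 V‖ ≤ A := by
    intro V
    show ‖(ev V).U (-a) (XX (ev V) (v V) s' (XX (ev V) (v V) s (dl 0)))‖ ≤ A
    rw [(ev V).norm']
    exact bXX V s' s _ (norm_dl 0)
  have E1 := exch (PP d ν) f1 g1 A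
    (fun x => ((cont_eval x).comp cf1).aestronglyMeasurable)
    (fun x => ((cont_eval x).comp cg1).aestronglyMeasurable) bf1 bg1
  have E2 := exch (PP d ν) f2 g2 A
    (fun x => ((cont_eval x).comp cf2).aestronglyMeasurable)
    (fun x => ((cont_eval x).comp cg2).aestronglyMeasurable) bf2 bg2
  -- covariance
  have covX : ∀ (z : Site d) (S : L2 (Site d) →L[ℂ] L2 (Site d)), IsShift z S →
      ∀ V t ψ, XX (ev fun y => V (y + z)) (v fun y => V (y + z)) t (S ψ) =
        S (XX (ev V) (v V) t ψ) := by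
    intro z S hS V t ψ
    unfold XX
    rw [h1 d c ev hev z S hS V t ψ, hO.cov z S hS, h1 d c ev hev z S hS V (-t)]
  -- equality of the terms
  have key : ∀ x : Site d, (∫ V, conj ((f1 V) x) * (g1 V) x ∂(PP d ν)) =
      ∫ V, conj ((f2 V) (-x)) * (g2 V) (-x) ∂(PP d ν) := by
    intro x
    obtain ⟨S, hS⟩ := (h4 d).1 x
    have hmp := (h3 d ν).2 x
    set F : (Site d → ℝ) → ℂ := fun V => conj (((ev V).U a (dl (-x))) 0) *
      (XX (ev V) (v V) s (XX (ev V) (v V) s' ((ev V).U a (dl (-x))))) 0 with hF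
    have cF : Continuous F := by
      refine (Complex.continuous_conj.comp ((cont_eval 0).comp (hcU a _ continuous_const))).mul ?_
      exact (cont_eval 0).comp (hcX s _ (hcX s' _ (hcU a _ continuous_const)))
    have e1 : ∀ V, conj ((f1 V) x) * (g1 V) x = F (fun y => V (y + x)) := by
      intro V
      have a1 : (ev fun y => V (y + x)).U a (dl (-x)) = S ((ev V).U a (dl 0)) := by
        rw [← STAT.shift_dl x S hS, h1 d c ev hev x S hS]
      have a2 : ((ev fun y => V (y + x)).U a (dl (-x))) 0 = (f1 V) x := by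
        rw [a1, hS, zero_add]
      have a3 : (XX (ev fun y => V (y + x)) (v fun y => V (y + x)) s
          (XX (ev fun y => V (y + x)) (v fun y => V (y + x)) s'
          ((ev fun y => V (y + x)).U a (dl (-x))))) 0 = (g1 V) x := by
        rw [a1, covX x S hS, covX x S hS, hS, zero_add]
      show _ = conj (((ev fun y => V (y + x)).U a (dl (-x))) 0) *
        (XX (ev fun y => V (y + x)) (v fun y => V (y + x)) s
          (XX (ev fun y => V (y + x)) (v fun y => V (y + x)) s'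
          ((ev fun y => V (y + x)).U a (dl (-x))))) 0
      rw [a2, a3]
    have e2 : ∀ V, F V = conj ((f2 V) (-x)) * (g2 V) (-x) := by
      intro V
      have a1 : ((ev V).U a (dl (-x))) 0 = conj ((g2 V) (-x)) := by
        rw [← inner_dl 0, inner_adj, inner_dl']
      have a2 : (XX (ev V) (v V) s (XX (ev V) (v V) s' ((ev V).U a (dl (-x))))) 0 =
          conj ((f2 V) (-x)) := by
        rw [← inner_dl 0, ← XX_symm (ev V) (v V) (hvs V), ← XX_symm (ev V) (v V) (hvs V),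
          inner_adj, inner_dl']
      show conj (((ev V).U a (dl (-x))) 0) *
        (XX (ev V) (v V) s (XX (ev V) (v V) s' ((ev V).U a (dl (-x))))) 0 = _
      rw [a1, a2, Complex.conj_conj, mul_comm]
    calc (∫ V, conj ((f1 V) x) * (g1 V) x ∂(PP d ν))
        = ∫ V, F (fun y => V (y + x)) ∂(PP d ν) := by simp_rw [e1]
      _ = ∫ V, F V ∂(Measure.map (fun (V : Site d → ℝ) (y : Site d) => V (y + x)) (PP d ν)) := by
          rw [integral_map hmp.measurable.aemeasurable cF.aestronglyMeasurable]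
      _ = ∫ V, F V ∂(PP d ν) := by rw [hmp.map_eq]
      _ = _ := by simp_rw [e2]
  -- conclusion
  have E3 : HasSum (fun x => ∫ V, conj ((f1 V) x) * (g1 V) x ∂(PP d ν))
      (∫ V, ⟪f2 V, g2 V⟫_ℂ ∂(PP d ν)) := by
    have h := (Equiv.neg (Site d)).hasSum_iff.mpr E2
    have e : (fun x => ∫ V, conj ((f1 V) x) * (g1 V) x ∂(PP d ν)) =
        (fun x => ∫ V, conj ((f2 V) x) * (g2 V) x ∂(PP d ν)) ∘ ⇑(Equiv.neg (Site d)) :=
      funext key
    rw [e]
    exact h
  have E4 := E1.unique E3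
  have L : ∀ V, ⟪tauO ev v (s + a) V, tauO ev v (s' + a) V⟫_ℂ = ⟪f1 V, g1 V⟫_ℂ := by
    intro V
    have a1 : ∀ t, tauO ev v (t + a) V =
        (ev V).U (-a) (XX (ev V) (v V) t ((ev V).U a (dl 0))) := by
      intro t
      unfold tauO XX
      rw [(ev V).add' t a, neg_add_rev, (ev V).add' (-a) (-t)]
    rw [a1, a1, inner_UG]
    rw [XX_symm (ev V) (v V) (hvs V)]
  have R : ∀ V, ⟪tauO ev v s V, tauO ev v s' V⟫_ℂ = ⟪f2 V, g2 V⟫_ℂ := by
    intro V
    show ⟪XX (ev V) (v V) s (dl 0), XX (ev V) (v V) s' (dl 0)⟫_ℂ =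
      ⟪(ev V).U (-a) (XX (ev V) (v V) s' (XX (ev V) (v V) s (dl 0))), (ev V).U (-a) (dl 0)⟫_ℂ
    rw [inner_UG, XX_symm (ev V) (v V) (hvs V) s' ]
  simp_rw [L, R]
  exact E4

/-- mean square convergence of both averages at `δ_0` to the same limit -/
theorem lima {c : ℝ} {ev : (Site d → ℝ) → UG (L2 (Site d))} (hev : ∀ V, IsGrp c V (ev V))
    (hO : Obs d v M) (ν : Measure ℝ) [IsProbabilityMeasure ν] :
    ∃ b : (Site d → ℝ) → L2 (Site d), AEStronglyMeasurable b (PP d ν) ∧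
        Tendsto (fun N : ℕ => ∫⁻ V, ‖avP (ev V) (v V) N (dl 0) - b V‖ₑ ^ 2 ∂(PP d ν)) atTop
          (𝓝 0) ∧
        Tendsto (fun N : ℕ => ∫⁻ V, ‖avM (ev V) (v V) N (dl 0) - b V‖ₑ ^ 2 ∂(PP d ν)) atTop
          (𝓝 0) := by
  have hCV := ALL.a_CV d c ev hev
  have hT : Continuous fun p : ℝ × (Site d → ℝ) => tauO ev v p.1 p.2 := by
    unfold tauO
    have g1 : Continuous fun p : ℝ × (Site d → ℝ) => (ev p.2).U p.1 (dl 0) :=
      hCV.comp (by fun_prop :
        Continuous fun p : ℝ × (Site d → ℝ) => (p.2, p.1, (dl 0 : L2 (Site d))))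
    have g2 : Continuous fun p : ℝ × (Site d → ℝ) => v p.2 ((ev p.2).U p.1 (dl 0)) :=
      hO.cont.comp (continuous_snd.prodMk g1)
    exact hCV.comp ((continuous_snd.prodMk (continuous_fst.neg.prodMk g2)) :
      Continuous fun p : ℝ × (Site d → ℝ) => (p.2, -p.1, v p.2 ((ev p.2).U p.1 (dl 0))))
  have hK : ∀ s V, ‖tauO ev v s V‖ ≤ M * ‖(dl 0 : L2 (Site d))‖ := by
    intro s V
    unfold tauO
    rw [(ev V).norm']
    refine le_trans (hO.bound V _) ?_
    rw [(ev V).norm']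
  have hP : IsProbabilityMeasure (PP d ν) := by
    unfold PP
    infer_instance
  obtain ⟨b, hb, hf, hg⟩ := LIMA.main (PP d ν) (fun s V => tauO ev v s V) _ t_ME hT hK
    (fun s s' a => stat hev hO ν s s' a)
  refine ⟨b, hb, hf, ?_⟩
  unfold avM
  have e : ∀ (V : Site d → ℝ) (s : ℝ), tauO ev v (-s) V =
      (ev V).U s (v V ((ev V).U (-s) (dl 0))) := by
    intro V s
    unfold tauO
    rw [neg_neg]
  simp only [e] at hg
  exact hg

section shift

open LIMB

variable {c : ℝ} {ev : (Site d → ℝ) → UG (L2 (Site d))} {z : Site d}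
  {S T : L2 (Site d) →L[ℂ] L2 (Site d)}

theorem inv1 (hS : IsShift z S) (hT : IsShift (-z) T) (ψ : L2 (Site d)) : S (T ψ) = ψ :=
  ZAC.inv1 hS hT ψ

theorem avP_conj (hev : ∀ V, IsGrp c V (ev V)) (hO : Obs d v M) (hS : IsShift z S)
    (hT : IsShift (-z) T) (V : Site d → ℝ) (N : ℕ) (x : L2 (Site d)) :
    avP (ev fun y => V (y + z)) (v fun y => V (y + z)) N x = S (avP (ev V) (v V) N (T x)) := by
  unfold avP
  have e := ContinuousLinearMap.intervalIntegral_comp_comm S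
    ((LIMB.cont_P (ev V) (v V) (T x)).intervalIntegrable (μ := volume) (0 : ℝ) (N : ℝ))
  rw [map_smul]
  congr 1
  refine Eq.trans ?_ e
  refine intervalIntegral.integral_congr fun s _ => ?_
  have hC := ALL.a_COV d c ev hev z S hS V
  show (ev fun y => V (y + z)).U (-s) (v (fun y => V (y + z)) ((ev fun y => V (y + z)).U s x)) =
    S ((ev V).U (-s) (v V ((ev V).U s (T x))))
  rw [← hC, ← hO.cov z S hS, ← hC, inv1 hS hT]

theorem avM_conj (hev : ∀ V, IsGrp c V (ev V)) (hO : Obs d v M) (hS : IsShift z S)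
    (hT : IsShift (-z) T) (V : Site d → ℝ) (N : ℕ) (x : L2 (Site d)) :
    avM (ev fun y => V (y + z)) (v fun y => V (y + z)) N x = S (avM (ev V) (v V) N (T x)) := by
  unfold avM
  have e := ContinuousLinearMap.intervalIntegral_comp_comm S
    ((LIMB.cont_M (ev V) (v V) (T x)).intervalIntegrable (μ := volume) (0 : ℝ) (N : ℝ))
  rw [map_smul]
  congr 1
  refine Eq.trans ?_ e
  refine intervalIntegral.integral_congr fun s _ => ?_
  have hC := ALL.a_COV d c ev hev z S hS V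
  show (ev fun y => V (y + z)).U s (v (fun y => V (y + z)) ((ev fun y => V (y + z)).U (-s) x)) =
    S ((ev V).U s (v V ((ev V).U (-s) (T x))))
  rw [← hC, ← hO.cov z S hS, ← hC, inv1 hS hT]

theorem good_conj (hev : ∀ V, IsGrp c V (ev V)) (hO : Obs d v M) (hS : IsShift z S)
    (hT : IsShift (-z) T) (V : Site d → ℝ) (Nk : ℕ → ℕ) (B : L2 (Site d) →L[ℂ] L2 (Site d))
    (hB : Good (ev V) (v V) Nk B) :
    Good (ev fun y => V (y + z)) (v fun y => V (y + z)) Nk ((S.comp B).comp T) := by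
  intro x
  obtain ⟨h1, h2⟩ := hB (T x)
  constructor
  · refine ((S.continuous.tendsto _).comp h1).congr fun k => ?_
    rw [avP_conj hev hO hS hT]
    rfl
  · refine ((S.continuous.tendsto _).comp h2).congr fun k => ?_
    rw [avM_conj hev hO hS hT]
    rfl

theorem cont_int (hev : ∀ V, IsGrp c V (ev V)) (hO : Obs d v M) (T : ℝ) :
    Continuous fun p : (Site d → ℝ) × L2 (Site d) =>
      ∫ s in (0 : ℝ)..T, (ev p.1).U (-s) (v p.1 ((ev p.1).U s p.2)) := by
  have h := ALL.a_CV d c ev hev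
  have h1 : Continuous (fun p : ((Site d → ℝ) × L2 (Site d)) × ℝ =>
      (ev p.1.1).U p.2 p.1.2) :=
    h.comp (by fun_prop : Continuous fun p : ((Site d → ℝ) × L2 (Site d)) × ℝ =>
      ((p.1.1, p.2, p.1.2) : (Site d → ℝ) × ℝ × L2 (Site d)))
  have h2 : Continuous (fun p : ((Site d → ℝ) × L2 (Site d)) × ℝ =>
      (ev p.1.1).U (-p.2) (v p.1.1 ((ev p.1.1).U p.2 p.1.2))) :=
    h.comp ((continuous_fst.comp continuous_fst).prodMk (continuous_snd.neg.prodMk
      (hO.cont.comp ((continuous_fst.comp continuous_fst).prodMk h1))))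
  exact intervalIntegral.continuous_parametric_intervalIntegral_of_continuous'
    (f := fun (p : (Site d → ℝ) × L2 (Site d)) (s : ℝ) =>
      (ev p.1).U (-s) (v p.1 ((ev p.1).U s p.2))) h2 0 T

theorem cont_intM (hev : ∀ V, IsGrp c V (ev V)) (hO : Obs d v M) (T : ℝ) :
    Continuous fun p : (Site d → ℝ) × L2 (Site d) =>
      ∫ s in (0 : ℝ)..T, (ev p.1).U s (v p.1 ((ev p.1).U (-s) p.2)) := by
  have h := ALL.a_CV d c ev hev
  have h1 : Continuous (fun p : ((Site d → ℝ) × L2 (Site d)) × ℝ =>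
      (ev p.1.1).U (-p.2) p.1.2) :=
    h.comp (by fun_prop : Continuous fun p : ((Site d → ℝ) × L2 (Site d)) × ℝ =>
      ((p.1.1, -p.2, p.1.2) : (Site d → ℝ) × ℝ × L2 (Site d)))
  have h2 : Continuous (fun p : ((Site d → ℝ) × L2 (Site d)) × ℝ =>
      (ev p.1.1).U p.2 (v p.1.1 ((ev p.1.1).U (-p.2) p.1.2))) :=
    h.comp ((continuous_fst.comp continuous_fst).prodMk (continuous_snd.prodMk
      (hO.cont.comp ((continuous_fst.comp continuous_fst).prodMk h1))))
  exact intervalIntegral.continuous_parametric_intervalIntegral_of_continuous'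
    (f := fun (p : (Site d → ℝ) × L2 (Site d)) (s : ℝ) =>
      (ev p.1).U s (v p.1 ((ev p.1).U (-s) p.2))) h2 0 T

theorem cont_avP (hev : ∀ V, IsGrp c V (ev V)) (hO : Obs d v M) (N : ℕ) :
    Continuous fun V => avP (ev V) (v V) N (dl 0) := by
  unfold avP
  have h := (cont_int hev hO (N : ℝ)).comp
    ((continuous_id (X := Site d → ℝ)).prodMk (continuous_const (y := (dl 0 : L2 (Site d)))))
  exact h.const_smul ((N : ℂ)⁻¹)

theorem cont_avM (hev : ∀ V, IsGrp c V (ev V)) (hO : Obs d v M) (N : ℕ) :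
    Continuous fun V => avM (ev V) (v V) N (dl 0) := by
  unfold avM
  have h := (cont_intM hev hO (N : ℝ)).comp
    ((continuous_id (X := Site d → ℝ)).prodMk (continuous_const (y := (dl 0 : L2 (Site d)))))
  exact h.const_smul ((N : ℂ)⁻¹)

theorem aesm (hev : ∀ V, IsGrp c V (ev V)) (hO : Obs d v M) (T : ℝ)
    (P : Measure (Site d → ℝ)) (ψ : (Site d → ℝ) → L2 (Site d))
    (hψ : AEStronglyMeasurable ψ P) :
    AEStronglyMeasurable (fun V =>
      ∫ s in (0 : ℝ)..T, (ev V).U (-s) (v V ((ev V).U s (ψ V)))) P :=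
  (cont_int hev hO T).comp_aestronglyMeasurable
    ((aestronglyMeasurable_id (α := Site d → ℝ) (μ := P)).prodMk hψ)

theorem aesm_avP (hev : ∀ V, IsGrp c V (ev V)) (hO : Obs d v M) (N : ℕ)
    (P : Measure (Site d → ℝ)) (ψ : (Site d → ℝ) → L2 (Site d))
    (hψ : AEStronglyMeasurable ψ P) :
    AEStronglyMeasurable (fun V => avP (ev V) (v V) N (ψ V)) P := by
  unfold avP
  exact (aesm hev hO N P ψ hψ).const_smul ((N : ℂ)⁻¹)

end shift

open LIMB in
/-- subsequences: the averages converge strongly, almost surely; the limit at `δ_0` is `b` -/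
theorem lim2 {c : ℝ} {ev : (Site d → ℝ) → UG (L2 (Site d))} (hev : ∀ V, IsGrp c V (ev V))
    (hO : Obs d v M) (ν : Measure ℝ) [IsProbabilityMeasure ν] :
    ∃ b : (Site d → ℝ) → L2 (Site d), AEStronglyMeasurable b (PP d ν) ∧
      ∀ Mk : ℕ → ℕ, Tendsto Mk atTop atTop →
      ∃ a : ℕ → ℕ, StrictMono a ∧
        ∀ᵐ V ∂(PP d ν), ∃ B : L2 (Site d) →L[ℂ] L2 (Site d), Good (ev V) (v V) (Mk ∘ a) B ∧
          ∀ (z : Site d) (S : L2 (Site d) →L[ℂ] L2 (Site d)), IsShift (-z) S →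
            B (dl z) = S (b fun y => V (y + z)) := by
  have h2 : St_COV := ALL.a_COV
  have h3 : St_RES := t_RES
  have h4 : St_CV := ALL.a_CV
  have h5 : St_OPS := t_OPS
  obtain ⟨b, hb, hP0, hM0⟩ := lima hev hO ν
  refine ⟨b, hb, fun Mk hMt => ?_⟩
  have hP := hP0.comp hMt
  have hM := hM0.comp hMt
  have hfP : ∀ N, AEMeasurable (fun V => ‖avP (ev V) (v V) N (dl 0) - b V‖ₑ ^ 2) (PP d ν) :=
    fun N => (((cont_avP hev hO N).aestronglyMeasurable).sub hb).enorm.pow_const 2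
  have hfM : ∀ N, AEMeasurable (fun V => ‖avM (ev V) (v V) N (dl 0) - b V‖ₑ ^ 2) (PP d ν) :=
    fun N => (((cont_avM hev hO N).aestronglyMeasurable).sub hb).enorm.pow_const 2
  have hPM := hP.add hM
  rw [add_zero] at hPM
  obtain ⟨a, hmono, hNk⟩ := extraction_forall_of_eventually
    (P := fun n k => (∫⁻ V, ‖avP (ev V) (v V) (Mk k) (dl 0) - b V‖ₑ ^ 2 ∂(PP d ν)) +
      (∫⁻ V, ‖avM (ev V) (v V) (Mk k) (dl 0) - b V‖ₑ ^ 2 ∂(PP d ν)) < (2⁻¹ : ℝ≥0∞) ^ n)
    (fun n => (tendsto_order.1 hPM).2 _ (by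
      refine ENNReal.pow_pos ?_ n
      simp))
  refine ⟨a, hmono, ?_⟩
  set Nk : ℕ → ℕ := Mk ∘ a with hNkdef
  -- almost sure convergence at the origin
  have hfS : ∀ n, AEMeasurable (fun V => ‖avP (ev V) (v V) (Nk n) (dl 0) - b V‖ₑ ^ 2 +
      ‖avM (ev V) (v V) (Nk n) (dl 0) - b V‖ₑ ^ 2) (PP d ν) := fun n =>
    (hfP (Nk n)).add (hfM (Nk n))
  have hsum : ∫⁻ V, ∑' n, (‖avP (ev V) (v V) (Nk n) (dl 0) - b V‖ₑ ^ 2 +
      ‖avM (ev V) (v V) (Nk n) (dl 0) - b V‖ₑ ^ 2) ∂(PP d ν) ≠ ∞ := by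
    rw [lintegral_tsum hfS]
    have hle : ∑' n, ∫⁻ V, (‖avP (ev V) (v V) (Nk n) (dl 0) - b V‖ₑ ^ 2 +
        ‖avM (ev V) (v V) (Nk n) (dl 0) - b V‖ₑ ^ 2) ∂(PP d ν) ≤
          ∑' n : ℕ, (2⁻¹ : ℝ≥0∞) ^ n := by
      refine ENNReal.tsum_le_tsum fun n => ?_
      rw [lintegral_add_left' (hfP (Nk n))]
      exact (hNk n).le
    refine ne_top_of_le_ne_top ?_ hle
    rw [ENNReal.tsum_geometric]
    simp
  have hae := ae_lt_top' (AEMeasurable.tsum hfS) hsum
  have hG : ∀ᵐ V ∂(PP d ν), Tendsto (fun n => avP (ev V) (v V) (Nk n) (dl 0)) atTop (𝓝 (b V)) ∧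
      Tendsto (fun n => avM (ev V) (v V) (Nk n) (dl 0)) atTop (𝓝 (b V)) := by
    filter_upwards [hae] with V hV
    have h0 := ENNReal.tendsto_atTop_zero_of_tsum_ne_top hV.ne
    constructor
    · refine tendsto_of_enorm_sq (tendsto_of_tendsto_of_tendsto_of_le_of_le tendsto_const_nhds h0
        (fun _ => zero_le) fun n => ?_)
      exact le_self_add
    · refine tendsto_of_enorm_sq (tendsto_of_tendsto_of_tendsto_of_le_of_le tendsto_const_nhds h0
        (fun _ => zero_le) fun n => ?_)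
      exact le_add_self
  have hGz : ∀ᵐ V ∂(PP d ν), ∀ z : Site d,
      Tendsto (fun n => avP (ev fun y => V (y + z)) (v fun y => V (y + z)) (Nk n) (dl 0)) atTop
        (𝓝 (b fun y => V (y + z))) ∧
      Tendsto (fun n => avM (ev fun y => V (y + z)) (v fun y => V (y + z)) (Nk n) (dl 0)) atTop
        (𝓝 (b fun y => V (y + z))) := by
    rw [ae_all_iff]
    intro z
    exact ((h3 d ν).2 z).quasiMeasurePreserving.ae hG
  filter_upwards [hGz] with V hV
  have hlim : ∀ (z : Site d) (S : L2 (Site d) →L[ℂ] L2 (Site d)), IsShift (-z) S →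
      Tendsto (fun k => PL (ev V) (v V) (Nk k) (dl z)) atTop (𝓝 (S (b fun y => V (y + z)))) ∧
      Tendsto (fun k => ML (ev V) (v V) (Nk k) (dl z)) atTop (𝓝 (S (b fun y => V (y + z)))) := by
    intro z S hS
    obtain ⟨T, hT⟩ := (h5 d).1 z
    have hinv : ∀ ψ, S (T ψ) = ψ := fun ψ => by
      ext x
      rw [hS, hT, neg_add_cancel_right]
    constructor
    · have := (S.continuous.tendsto _).comp (hV z).1
      refine this.congr fun k => ?_
      rw [PL_apply]
      have e := avP_conj (z := z) hev hO hT hS V (Nk k) (dl 0)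
      show S (avP (ev fun y => V (y + z)) (v fun y => V (y + z)) (Nk k) (dl 0)) = _
      rw [e, hinv, LIMB.shift_dl z S hS]
    · have := (S.continuous.tendsto _).comp (hV z).2
      refine this.congr fun k => ?_
      rw [ML_apply]
      have e := avM_conj (z := z) hev hO hT hS V (Nk k) (dl 0)
      show S (avM (ev fun y => V (y + z)) (v fun y => V (y + z)) (Nk k) (dl 0)) = _
      rw [e, hinv, LIMB.shift_dl z S hS]
  obtain ⟨B, hB⟩ := ext_lim (fun k => PL (ev V) (v V) (Nk k)) (fun k => ML (ev V) (v V) (Nk k))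
    ‖v V‖ (norm_nonneg _) (fun k => norm_PL (ev V) (v V) (Nk k))
    (fun k => norm_ML (ev V) (v V) (Nk k))
    (Site d) dl (dl_dense d) (fun z => by
      obtain ⟨S, hS⟩ := (h5 d).1 (-z)
      exact ⟨_, hlim z S hS⟩)
  refine ⟨B, hB, fun z S hS => ?_⟩
  exact tendsto_nhds_unique (hB (dl z)).1 (hlim z S hS).1

end Pool.Agent.Y662.ERG
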