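import Pool.Agent.Y662.ERG.F1

/-! # Potentials with an additive constant -/

set_option autoImplicit false

open MeasureTheory Filter Topology
open scoped BigOperators ENNReal NNReal InnerProductSpace ComplexConjugate

namespace Pool.Agent.Y662.ERG

open Pool.Agent.H5R2.NB Pool.Agent.H5R2.NBA

variable {d : ℕ} {v : (Site d → ℝ) → L2 (Site d) →L[ℂ] L2 (Site d)} {M : ℝ}
  {c : ℝ} {ev : (Site d → ℝ) → UG (L2 (Site d))}

/-- subtract a constant -/
def shf (o : ℝ) (V : Site d → ℝ) : Site d → ℝ := fun x => V x - o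

theorem Obs.off (hO : Obs d v M) (o : ℝ) : Obs d (fun V => v (shf o V)) M where
  symm V x y := hO.symm _ x y
  bound V x := hO.bound _ x
  cont := by
    have h : Continuous fun p : (Site d → ℝ) × L2 (Site d) => (shf o p.1, p.2) := by
      unfold shf
      fun_prop
    exact hO.cont.comp h
  cov z S hS V ψ := hO.cov z S hS (shf o V) ψ
  loc V κ := by
    obtain ⟨F, C, h⟩ := hO.loc (shf o V) (κ - o)
    refine ⟨F, C, fun ψ => ?_⟩
    have e : shf o (Function.update V 0 κ) = Function.update (shf o V) 0 (κ - o) := by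
      funext x
      unfold shf
      by_cases hx : x = 0
      · subst hx; simp
      · rw [Function.update_of_ne hx, Function.update_of_ne hx]
    rw [e]
    exact h ψ

/-- the averages converge along subsequences, and the limit preserves orthogonality to the cyclic
subspaces of the sites -/
theorem lim_off (o : ℝ) (hev : ∀ ω : Site d → ℝ, IsGrp c (fun x => o + ω x) (ev ω))
    (hO : Obs d v M) (ν : Measure ℝ) [IsProbabilityMeasure ν] (hν : ∀ κ : ℝ, ν {κ} ≠ 1) :
    ∃ b : (Site d → ℝ) → L2 (Site d), AEStronglyMeasurable b (PP d ν) ∧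
      ∀ Mk : ℕ → ℕ, Tendsto Mk atTop atTop →
      ∃ a : ℕ → ℕ, StrictMono a ∧
        ∀ᵐ ω ∂(PP d ν), ∃ B : L2 (Site d) →L[ℂ] L2 (Site d), Good (ev ω) (v ω) (Mk ∘ a) B ∧
          (∀ (z : Site d) (S : L2 (Site d) →L[ℂ] L2 (Site d)), IsShift (-z) S →
            B (dl z) = S (b fun y => ω (y + z))) ∧
          ∀ z : Site d, ∀ φ ∈ HAC (ev ω), (∀ t, ⟪φ, (ev ω).U t (dl z)⟫_ℂ = 0) →
            ⟪B φ, (dl z : L2 (Site d))⟫_ℂ = 0 := by
  have hev' : ∀ V, IsGrp c V (ev (shf o V)) := by
    intro V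
    have h := hev (shf o V)
    have e : (fun x => o + shf o V x) = V := by
      funext x
      unfold shf
      ring
    rwa [e] at h
  set e : (Site d → ℝ) ≃ᵐ (Site d → ℝ) := MeasurableEquiv.addLeft (fun _ : Site d => o) with he
  have hei : ∀ ω, e ω = fun x => o + ω x := fun ω => rfl
  have hse : ∀ ω, shf o (e ω) = ω := by
    intro ω
    rw [hei]
    funext x
    unfold shf
    ring
  have hg : Measurable (fun r : ℝ => o + r) := by fun_prop
  have hpm : IsProbabilityMeasure (ν.map fun r : ℝ => o + r) :=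
    Measure.isProbabilityMeasure_map hg.aemeasurable
  have hmap : (PP d ν).map e = PP d (ν.map fun r : ℝ => o + r) := by
    unfold PP
    exact Measure.infinitePi_map_pi (μ := fun _ : Site d => ν) (fun _ => hg)
  have hne : ∀ κ : ℝ, (ν.map fun r : ℝ => o + r) {κ} ≠ 1 := by
    intro κ
    rw [Measure.map_apply hg (measurableSet_singleton κ)]
    have : (fun r : ℝ => o + r) ⁻¹' {κ} = {κ - o} := by
      ext r
      simp only [Set.mem_preimage, Set.mem_singleton_iff]
      constructor <;> intro h <;> linarith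
    rw [this]
    exact hν _
  obtain ⟨b, hb, hlim⟩ := lim2 hev' (hO.off o) (ν.map fun r : ℝ => o + r)
  refine ⟨fun ω => b (e ω), ?_, fun Mk hMk => ?_⟩
  · rw [← hmap] at hb
    exact hb.comp_aemeasurable e.measurable.aemeasurable
  · obtain ⟨a, ha, hG⟩ := hlim Mk hMk
    refine ⟨a, ha, ?_⟩
    have hNk : Tendsto (Mk ∘ a) atTop atTop := hMk.comp ha.tendsto_atTop
    have hF := f1 hev' (hO.off o) (ν.map fun r : ℝ => o + r) hne (Mk ∘ a) hNk
      (hG.mono fun V ⟨B, hB, _⟩ => ⟨B, hB⟩)
    have hGF := hG.and hF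
    rw [← hmap, e.measurableEmbedding.ae_map_iff] at hGF
    filter_upwards [hGF] with ω ⟨⟨B, hB1, hB2⟩, hω⟩
    rw [hse] at hB1 hω
    exact ⟨B, hB1, hB2, hω B hB1⟩

end Pool.Agent.Y662.ERG
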