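import Pool.Agent.Y662.ERG.Site

/-! # The fibre coefficient for one potential -/

set_option autoImplicit false

open MeasureTheory Filter Topology Set
open scoped ENNReal NNReal InnerProductSpace

namespace Pool.Agent.Y662.ERG

open Pool.Agent.TH980.IM Pool.Agent.H5R2
open Pool.Agent.H12R2.And (Rz isUnit_sub sub_Rz im_inner norm_Rz_le diff_inner)
open Pool.Agent.TH980.IM.PR

variable {d : ℕ}

theorem ee_eq_dl (x : Sd d) : (ee x : L2 d) = NB.dl x := rfl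

/-- the group is the exponential of the operator -/
theorem grp_Ex {K : ℝ} {V : Sd d → ℝ} (hV : ∀ x, |V x| ≤ K) {W : NB.UG (L2 d)}
    (hW : NB.IsGrp (-1) (fun x => 2 * d + V x) W) (t : ℝ) (u : L2 d) :
    W.U t u = Ex (HV K V) t u := by
  have hd : ∀ s, HasDerivAt (fun s : ℝ => Ex (HV K V) s u)
      (-Complex.I • (HV K V) (Ex (HV K V) s u)) s := fun s => Ex_deriv _ s u
  have hcont : Continuous fun s : ℝ => Ex (HV K V) s u :=
    continuous_iff_continuousAt.2 fun s => (hd s).continuousAt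
  have hsol : NB.IsSol (-1) (fun x => 2 * d + V x) (fun s => Ex (HV K V) s u) (fun _ => 0) := by
    refine ⟨fun T => ?_, fun s x => ?_⟩
    · obtain ⟨C, hC⟩ := (isCompact_Icc (a := -T) (b := T)).exists_bound_of_continuousOn
        hcont.continuousOn
      exact ⟨C, fun t ht => hC t (abs_le.1 ht)⟩
    · have h1 := ((innerSL ℂ (NB.dl x : L2 d)).restrictScalars ℝ).hasFDerivAt.comp_hasDerivAt s
        (hd s)
      have h2 : (⇑((innerSL ℂ (NB.dl x : L2 d)).restrictScalars ℝ) ∘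
          fun s : ℝ => Ex (HV K V) s u) = fun s : ℝ => (Ex (HV K V) s u) x := by
        funext r
        exact NB.STAT.inner_dl x _
      rw [h2] at h1
      refine h1.congr_deriv ?_
      show ⟪(NB.dl x : L2 d), -Complex.I • (HV K V) (Ex (HV K V) s u)⟫_ℂ =
        -Complex.I * (NB.hopf (-1) (fun y => (Ex (HV K V) s u) y) x +
          ((2 * d + V x : ℝ) : ℂ) * (Ex (HV K V) s u) x) + (0 : ℂ)
      rw [inner_smul_right, NB.STAT.inner_dl, HV_apply, cl_eq (hV x)]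
      have e := NB.FIN.hop_eq V (fun k => (Ex (HV K V) s u) k) x
      rw [add_zero, e]
      congr 1
      congr 1
      rw [← Finset.sum_neg_distrib]
      refine Finset.sum_congr rfl fun i _ => ?_
      ring
  have h := NB.ALL.a_UN d (-1) _ W hW _ _ continuous_const hsol t
  simp only [map_zero, intervalIntegral.integral_zero, add_zero, Ex_zero] at h
  exact h.symm

/-- the coefficient at one site -/
theorem fib_site {K : ℝ} {V : Sd d → ℝ} (hV : ∀ x, |V x| ≤ K) {W : NB.UG (L2 d)}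
    (hW : NB.IsGrp (-1) (fun x => 2 * d + V x) W) {B : L2 d →L[ℂ] L2 d}
    (hBs : ∀ x y, ⟪B x, y⟫_ℂ = ⟪x, B y⟫_ℂ) (hBc : ∀ t x, B (W.U t x) = W.U t (B x)) (e : L2 d)
    (hF : ∀ φ ∈ NBA.HAC W, (∀ t, ⟪φ, W.U t e⟫_ℂ = 0) → ⟪B φ, e⟫_ℂ = 0) :
    ∀ᵐ E : ℝ, ∃ g : ℂ, Ngl (HV K V) E (B e - g • e) := by
  set T := HV K V with hT
  have hsa : IsSelfAdjoint T := HV_sa K V
  have hUE : ∀ t u, W.U t u = Ex T t u := fun t u => grp_Ex hV hW t u
  have hBT : ∀ x, B (T x) = T (B x) := comm_of_Ex fun t x => by rw [← hUE, hBc, hUE]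
  obtain ⟨P, hP1, hP2, hP3, hP4, hP5, -⟩ := NBA.t_PR (Sd d) W
  have hPac : ∀ v, spm hsa v ≪ volume → P v = v := by
    intro v hv
    apply hP2
    apply NBA.ALL.a_SPEC
    refine ⟨spm hsa v, inferInstance, hv, fun t => ?_⟩
    rw [hUE]
    exact Ex_spm hsa t v
  -- the closed subspace generated by the vectors `P p(T) e`
  let L : Polynomial ℂ →ₗ[ℂ] L2 d :=
    { toFun := fun p => P (Polynomial.aeval T p e)
      map_add' := fun p q => by
        rw [map_add]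
        show P (_ + _) = _
        rw [map_add]
        rfl
      map_smul' := fun c p => by
        rw [map_smul]
        show P (c • _) = c • _
        rw [map_smul]
        rfl }
  have hL : ∀ p, L p = P (Polynomial.aeval T p e) := fun p => rfl
  set Mc : Submodule ℂ (L2 d) := (LinearMap.range L).topologicalClosure with hMc
  haveI : CompleteSpace Mc := (Submodule.isClosed_topologicalClosure _).completeSpace_coe
  set w : L2 d := P (B e) with hw
  have hmem : w ∈ Mc := by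
    set φ : L2 d := w - Mc.starProjection w with hφ
    have hφM : φ ∈ Mcᗮ := Submodule.sub_starProjection_mem_orthogonal w
    rw [Submodule.mem_orthogonal'] at hφM
    have h1 : ∀ p : Polynomial ℂ, ⟪P φ, Polynomial.aeval T p e⟫_ℂ = 0 := by
      intro p
      rw [hP3, ← hL]
      exact hφM _ (Submodule.le_topologicalClosure _ ⟨p, rfl⟩)
    have h2 : ∀ t, ⟪P φ, W.U t e⟫_ℂ = 0 := by
      intro t
      rw [hUE]
      apply orth_Ex
      intro m
      have := h1 (Polynomial.X ^ m)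
      rwa [map_pow, Polynomial.aeval_X] at this
    have h3 := hF (P φ) (hP1 φ) h2
    have h4 : ⟪φ, w⟫_ℂ = 0 := by
      rw [hw, ← hP3, ← hBs]
      exact h3
    have h5 : ⟪φ, Mc.starProjection w⟫_ℂ = 0 := hφM _ (Submodule.starProjection_apply_mem _ _)
    have h6 : ⟪φ, φ⟫_ℂ = 0 := by
      conv_lhs => rw [hφ]
      rw [← hφ, inner_sub_right, h4, h5, sub_zero]
    have h7 : φ = 0 := inner_self_eq_zero.1 h6
    rw [hφ, sub_eq_zero] at h7
    rw [h7]
    exact Submodule.starProjection_apply_mem _ _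
  have hex : ∀ n : ℕ, ∃ p : Polynomial ℂ, ‖w - P (Polynomial.aeval T p e)‖ < (2⁻¹ : ℝ) ^ n := by
    intro n
    have h1 : w ∈ closure (LinearMap.range L : Set (L2 d)) := hmem
    obtain ⟨_, ⟨p, rfl⟩, hp⟩ := Metric.mem_closure_iff.1 h1 ((2⁻¹ : ℝ) ^ n) (by positivity)
    refine ⟨p, ?_⟩
    rwa [dist_eq_norm] at hp
  choose p hp using hex
  refine exists_coeff hsa hBT e p fun n => ?_
  refine (dn_le_proj hsa P hPac hP3 _).trans ?_
  have h1 : ‖P (B e - Polynomial.aeval T (p n) e)‖ₑ ≤ (2⁻¹ : ℝ≥0∞) ^ n := by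
    rw [map_sub, ← ofReal_norm]
    refine (ENNReal.ofReal_le_ofReal (hp n).le).trans (le_of_eq ?_)
    rw [ENNReal.ofReal_pow (by norm_num), ENNReal.ofReal_inv_of_pos (by norm_num)]
    norm_num
  have h2 : ((2⁻¹ : ℝ≥0∞) ^ n) ≤ 1 := pow_le_one₀ (by simp) (by simp)
  calc ‖P (B e - Polynomial.aeval T (p n) e)‖ₑ ^ 2 ≤ ((2⁻¹ : ℝ≥0∞) ^ n) ^ 2 := by gcongr
    _ = ((2⁻¹ : ℝ≥0∞) ^ n) * ((2⁻¹ : ℝ≥0∞) ^ n) := by rw [pow_two]
    _ ≤ ((2⁻¹ : ℝ≥0∞) ^ n) * 1 := by gcongr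
    _ = _ := mul_one _

/-- one coefficient for all sites -/
theorem per_V (hd : 1 ≤ d) {K : ℝ} {V : Sd d → ℝ} (hV : ∀ x, |V x| ≤ K) {W : NB.UG (L2 d)}
    (hW : NB.IsGrp (-1) (fun x => 2 * d + V x) W) {B : L2 d →L[ℂ] L2 d}
    (hBs : ∀ x y, ⟪B x, y⟫_ℂ = ⟪x, B y⟫_ℂ) (hBc : ∀ t x, B (W.U t x) = W.U t (B x))
    (hF : ∀ z : Sd d, ∀ φ ∈ NBA.HAC W, (∀ t, ⟪φ, W.U t (ee z)⟫_ℂ = 0) → ⟪B φ, ee z⟫_ℂ = 0)
    {h : Sd d → (Sd d → ℝ) × ℝ → ℂ} {Sg : Set ℝ}
    (h1 : ∀ᵐ E : ℝ, Gen K h V E)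
    (h2 : ∀ᵐ E : ℝ, E ∈ Sg → ∀ (i0 : Fin d) (m : ℤ) (n : ℕ) (p : Fin n → Sd d), Lay i0 m p →
      PD (MM h p (V, E)))
    (h3 : ∀ᵐ E : ℝ, E ∉ Sg → ∀ x : Sd d, (h 0 (sh x V, E)).im ≤ 0) :
    ∀ᵐ E : ℝ, (∃ g : ℂ, ∀ x, Ngl (HV K V) E (B (ee x) - g • ee x)) ∧
      (E ∉ Sg → ∀ x, Ngl (HV K V) E (ee x)) ∧
      (E ∈ Sg → ∀ x, ∃ a : ℝ, 0 < a ∧
        Tendsto (fun k => qn (HV K V) (zk k E) (ee x)) atTop (𝓝 a)) := by
  have hUE : ∀ t u, W.U t u = Ex (HV K V) t u := fun t u => grp_Ex hV hW t u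
  have hBT : ∀ x, B (HV K V x) = HV K V (B x) :=
    comm_of_Ex fun t x => by rw [← hUE, hBc, hUE]
  have h4 : ∀ᵐ E : ℝ, ∀ x : Sd d, ∃ g : ℂ, Ngl (HV K V) E (B (ee x) - g • ee x) :=
    ae_all_iff.2 fun x => fib_site hV hW hBs hBc (ee x) (hF x)
  have h5 : ∀ᵐ E : ℝ, ∀ y : Sd d, (2 * d + cl K (V y) : ℝ) ≠ E := by
    rw [ae_all_iff]
    intro y
    have : ∀ᵐ E : ℝ, E ∉ ({(2 * d + cl K (V y) : ℝ)} : Set ℝ) :=
      (Set.countable_singleton _).ae_notMem volume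
    filter_upwards [this] with E hE hE2
    exact hE hE2.symm
  filter_upwards [h1, h2, h3, h4, h5] with E e1 e2 e3 e4 e5
  have hnot : E ∉ Sg → ∀ x, Ngl (HV K V) E (ee x) := by
    intro hE x
    have t1 : Tendsto (fun k => inner ℂ (ee x) (Rz (HV K V) (zk k E) (ee x))) atTop
        (𝓝 (h 0 (sh x V, E))) := by
      have := e1 x x
      rw [sub_self] at this
      refine this.congr fun k => ?_
      exact GG_inner K V _ x x
    have t2 := qn_lim (HV_sa K V) t1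
    rwa [Real.sqrt_eq_zero_of_nonpos (e3 hE x)] at t2
  have hin : E ∈ Sg → ∀ x, ∃ a : ℝ, 0 < a ∧
        Tendsto (fun k => qn (HV K V) (zk k E) (ee x)) atTop (𝓝 a) := by
    intro hE x
    have t1 : Tendsto (fun k => inner ℂ (ee x) (Rz (HV K V) (zk k E) (ee x))) atTop
        (𝓝 (h 0 (sh x V, E))) := by
      have := e1 x x
      rw [sub_self] at this
      refine this.congr fun k => ?_
      exact GG_inner K V _ x x
    have t2 := qn_lim (HV_sa K V) t1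
    refine ⟨_, ?_, t2⟩
    apply Real.sqrt_pos.2
    by_contra hcon
    push Not at hcon
    rw [Real.sqrt_eq_zero_of_nonpos hcon] at t2
    have hlay : Lay (⟨0, hd⟩ : Fin d) (x ⟨0, hd⟩) (fun _ : Fin 1 => x) :=
      ⟨fun a b _ => Subsingleton.elim a b, fun _ => Or.inl rfl⟩
    have h6 := PD_zero e1 (e2 hE _ _ 1 _ hlay) (s := fun _ => 1) (by simpa using t2) 0
    exact one_ne_zero h6
  refine ⟨?_, hnot, hin⟩
  by_cases hE : E ∈ Sg
  · choose g hg using e4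
    refine ⟨g 0, fun x => ?_⟩
    rw [← coeff_const ⟨0, hd⟩ e1 (fun m n p hp => e2 hE _ m n p hp) e5 hBT hg x]
    exact hg x
  · refine ⟨0, fun x => ?_⟩
    rw [zero_smul, sub_zero]
    exact Ngl.comm (HV_sa K V) hBT (hnot hE x)

end Pool.Agent.Y662.ERG
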