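import Pool.Agent.Y662.ERG.Det
import Pool.Agent.Y662.ERG.Off

/-! # Conclusion: the averaged observables on the absolutely continuous subspace -/

set_option autoImplicit false

open MeasureTheory Filter Topology Set
open scoped ENNReal NNReal InnerProductSpace

namespace Pool.Agent.Y662.ERG

open Pool.Agent.TH980.IM Pool.Agent.H5R2
open Pool.Agent.H12R2.And (Rz isUnit_sub sub_Rz im_inner norm_Rz_le diff_inner diff_Rz)
open Pool.Agent.TH980.IM.PR

section abstract

variable {X : Type} [NormedAddCommGroup X] [InnerProductSpace ℂ X] [CompleteSpace X]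
variable {T : X →L[ℂ] X}

/-- the matrix elements of the limit operator: polarization -/
theorem inner_of_ngl (hT : IsSelfAdjoint T) {C : X →L[ℂ] X} (hC : ∀ x, C (T x) = T (C x))
    {f : ℝ → ℝ} (hf : Measurable f) {M : ℝ} (hM : ∀ E, |f E| ≤ M)
    (hn : ∀ ψ, ∀ᵐ E : ℝ, Ngl T E (C ψ - ((f E : ℝ) : ℂ) • ψ)) {ψ : X}
    (hψ : spm hT ψ ≪ volume) (t : ℝ) :
    ⟪Ex T t ψ, C ψ⟫_ℂ = ∫ E : ℝ, Complex.exp (Complex.I * t * E) * f E ∂(spm hT ψ) := by
  set μ := spm hT ψ with hμ
  set e : ℝ → ℂ := fun E => Complex.exp (-(Complex.I * t * E)) with he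
  have hem : Measurable e := by rw [he]; fun_prop
  have hen : ∀ E, ‖e E‖ = 1 := by
    intro E
    rw [he]
    simp only
    rw [Complex.norm_exp]
    simp
  have hfc : Measurable fun E => ((f E : ℝ) : ℂ) := Complex.measurable_ofReal.comp hf
  -- norms
  have key : ∀ l : ℂ, ‖C ψ + l • Ex T t ψ‖ ^ 2 = ∫ E, ‖((f E : ℝ) : ℂ) + l * e E‖ ^ 2 ∂μ := by
    intro l
    have h1 := norm_of_ngl hT (C := C + l • Ex T t)
      (fun x => by
        show C (T x) + l • Ex T t (T x) = T (C x + l • Ex T t x)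
        rw [map_add, map_smul, hC, Ex_comm])
      (c := fun E => ((f E : ℝ) : ℂ) + l * e E) (hfc.add (hem.const_mul l)) hψ (by
        filter_upwards [hn ψ, ngl_exp hT t ψ] with E e1 e2
        have h2 := e1.add (e2.smul l)
        have h3 : (C ψ - ((f E : ℝ) : ℂ) • ψ) + l • (Ex T t ψ -
            Complex.exp (-(Complex.I * t * E)) • ψ) =
            (C + l • Ex T t) ψ - (((f E : ℝ) : ℂ) + l * e E) • ψ := by
          show _ = (C ψ + l • Ex T t ψ) - _
          rw [add_smul, smul_sub, smul_smul]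
          abel
        rw [h3] at h2
        exact h2)
    have h2 : ‖(C + l • Ex T t) ψ‖ₑ ^ 2 = ENNReal.ofReal (‖C ψ + l • Ex T t ψ‖ ^ 2) := by
      rw [← ofReal_norm, ENNReal.ofReal_pow (norm_nonneg _)]
      rfl
    have h3 : ∫⁻ E, ‖((f E : ℝ) : ℂ) + l * e E‖ₑ ^ 2 ∂μ =
        ENNReal.ofReal (∫ E, ‖((f E : ℝ) : ℂ) + l * e E‖ ^ 2 ∂μ) := by
      rw [ofReal_integral_eq_lintegral_ofReal]
      · refine lintegral_congr fun E => ?_
        rw [← ofReal_norm, ENNReal.ofReal_pow (norm_nonneg _)]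
      · refine Integrable.of_bound ((hfc.add (hem.const_mul l)).norm.pow_const 2).aestronglyMeasurable
          ((M + ‖l‖) ^ 2) (ae_of_all _ fun E => ?_)
        rw [norm_pow, norm_norm]
        refine pow_le_pow_left₀ (norm_nonneg _) ?_ 2
        refine (norm_add_le _ _).trans (add_le_add ?_ ?_)
        · rw [Complex.norm_real]
          exact hM E
        · rw [norm_mul, hen, mul_one]
      · exact ae_of_all _ fun E => by positivity
    rw [h2, h3] at h1
    exact (ENNReal.ofReal_eq_ofReal_iff (by positivity) (integral_nonneg fun E => by positivity)).1 h1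
  -- integrability
  have hi : Integrable (fun E => (starRingEnd ℂ) (e E) * ((f E : ℝ) : ℂ)) μ := by
    refine Integrable.of_bound
      (((Complex.continuous_conj.measurable.comp hem).mul hfc)).aestronglyMeasurable M
      (ae_of_all _ fun E => ?_)
    rw [norm_mul, RCLike.norm_conj, hen, one_mul, Complex.norm_real]
    exact hM E
  have hi1 : Integrable (fun E => ‖((f E : ℝ) : ℂ)‖ ^ 2) μ := by
    refine Integrable.of_bound (hfc.norm.pow_const 2).aestronglyMeasurable (M ^ 2)
      (ae_of_all _ fun E => ?_)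
    rw [norm_pow, norm_norm, Complex.norm_real]
    exact pow_le_pow_left₀ (abs_nonneg _) (hM E) 2
  have key0 : ‖C ψ‖ ^ 2 = ∫ E, ‖((f E : ℝ) : ℂ)‖ ^ 2 ∂μ := by
    have := key 0
    simpa using this
  have hU : ‖Ex T t ψ‖ ^ 2 = μ.real univ := by
    have h1 := norm_of_ngl hT (C := Ex T t) (Ex_comm T t) (c := e) hem hψ
      (ngl_exp hT t ψ)
    have h2 : ∀ E, ‖e E‖ₑ ^ 2 = 1 := fun E => by
      rw [← ofReal_norm, hen]; simp
    simp only [h2] at h1
    rw [lintegral_one] at h1
    have h3 := congrArg ENNReal.toReal h1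
    rw [ENNReal.toReal_pow, toReal_enorm] at h3
    exact h3
  -- real part
  have hre : ∀ l : ℂ, ‖l‖ = 1 → RCLike.re ⟪C ψ, l • Ex T t ψ⟫_ℂ =
      ∫ E, ((starRingEnd ℂ) ((f E : ℝ) : ℂ) * (l * e E)).re ∂μ := by
    intro l hl
    have h1 := norm_add_sq (𝕜 := ℂ) (C ψ) (l • Ex T t ψ)
    rw [key l, norm_smul, hl, one_mul, hU, key0] at h1
    have h2 : ∫ E, ‖((f E : ℝ) : ℂ) + l * e E‖ ^ 2 ∂μ = ∫ E, ‖((f E : ℝ) : ℂ)‖ ^ 2 ∂μ +
        2 * ∫ E, ((starRingEnd ℂ) ((f E : ℝ) : ℂ) * (l * e E)).re ∂μ + μ.real univ := by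
      have h3 : Integrable (fun E => ((starRingEnd ℂ) ((f E : ℝ) : ℂ) * (l * e E)).re) μ := by
        refine Integrable.of_bound (C := M) ?_ (ae_of_all _ fun E => ?_)
        · exact (Complex.measurable_re.comp ((Complex.continuous_conj.measurable.comp hfc).mul
            (hem.const_mul l))).aestronglyMeasurable
        · refine (Complex.abs_re_le_norm _).trans ?_
          rw [norm_mul, RCLike.norm_conj, norm_mul, hl, hen, one_mul, mul_one, Complex.norm_real]
          exact hM E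
      have h4 : μ.real univ = ∫ _E, (1 : ℝ) ∂μ := by simp
      have h8 : Integrable (fun E => ‖((f E : ℝ) : ℂ)‖ ^ 2 +
          2 * ((starRingEnd ℂ) ((f E : ℝ) : ℂ) * (l * e E)).re) μ := hi1.add (h3.const_mul 2)
      rw [← integral_const_mul, ← integral_add hi1 (h3.const_mul 2), h4,
        ← integral_add h8 (integrable_const _)]
      refine integral_congr_ae (ae_of_all _ fun E => ?_)
      have h5 := norm_add_sq (𝕜 := ℂ) ((f E : ℝ) : ℂ) (l * e E)
      have h6 : ‖l * e E‖ = 1 := by rw [norm_mul, hl, hen, one_mul]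
      rw [h6] at h5
      show ‖((f E : ℝ) : ℂ) + l * e E‖ ^ 2 = ‖((f E : ℝ) : ℂ)‖ ^ 2 +
        2 * ((starRingEnd ℂ) ((f E : ℝ) : ℂ) * (l * e E)).re + 1
      rw [h5]
      have h7 : (RCLike.re ⟪((f E : ℝ) : ℂ), l * e E⟫_ℂ : ℝ) =
          ((starRingEnd ℂ) ((f E : ℝ) : ℂ) * (l * e E)).re := by
        rw [RCLike.inner_apply, mul_comm]
        rfl
      rw [h7]
      ring
    rw [h2] at h1
    linarith
  have h1 := hre 1 (by simp)
  have h2 := hre Complex.I (by simp)
  -- conclusion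
  have hconj : ⟪C ψ, Ex T t ψ⟫_ℂ = ∫ E, ((f E : ℝ) : ℂ) * e E ∂μ := by
    have hj : Integrable (fun E => ((f E : ℝ) : ℂ) * e E) μ := by
      refine Integrable.of_bound (hfc.mul hem).aestronglyMeasurable M (ae_of_all _ fun E => ?_)
      rw [norm_mul, hen, mul_one, Complex.norm_real]
      exact hM E
    have hsw : ∀ l : ℂ, ∫ E, ((starRingEnd ℂ) ((f E : ℝ) : ℂ) * (l * e E)).re ∂μ =
        (l * ∫ E, ((f E : ℝ) : ℂ) * e E ∂μ).re := by
      intro l
      rw [← integral_const_mul]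
      have h3 := integral_re (𝕜 := ℂ) (hj.const_mul l)
      refine Eq.trans ?_ h3
      refine integral_congr_ae (ae_of_all _ fun E => ?_)
      show ((starRingEnd ℂ) ((f E : ℝ) : ℂ) * (l * e E)).re = (l * (((f E : ℝ) : ℂ) * e E)).re
      rw [Complex.conj_ofReal]
      congr 1
      ring
    rw [hsw] at h1 h2
    rw [one_smul, one_mul] at h1
    rw [inner_smul_right] at h2
    apply Complex.ext
    · exact h1
    · have h3 : (Complex.I * ⟪C ψ, Ex T t ψ⟫_ℂ).re =
          (Complex.I * ∫ E, ((f E : ℝ) : ℂ) * e E ∂μ).re := h2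
      rw [Complex.I_mul_re, Complex.I_mul_re] at h3
      linarith
  rw [← inner_conj_symm, hconj, ← integral_conj]
  refine integral_congr_ae (ae_of_all _ fun E => ?_)
  show (starRingEnd ℂ) (((f E : ℝ) : ℂ) * e E) = Complex.exp (Complex.I * t * E) * f E
  rw [map_mul, Complex.conj_ofReal, he]
  simp only
  rw [← Complex.exp_conj, mul_comm]
  congr 2
  simp

end abstract

end Pool.Agent.Y662.ERG
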