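import Pool.Agent.Y662.ERG.Grp

/-! # The lattice: the fibre coefficient does not depend on the site -/

set_option autoImplicit false

open MeasureTheory Filter Topology Set
open scoped ENNReal NNReal InnerProductSpace

namespace Pool.Agent.Y662.ERG

open Pool.Agent.TH980.IM
open Pool.Agent.H12R2.And (Rz isUnit_sub sub_Rz im_inner norm_Rz_le diff_inner)
open Pool.Agent.TH980.IM.PR

variable {d : ℕ}

theorem kernel_zk (i0 : Fin d) {K : ℝ} {V : Sd d → ℝ} {h : Sd d → (Sd d → ℝ) × ℝ → ℂ} {E : ℝ}
    (e1 : Gen K h V E)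
    (hPD : ∀ (m : ℤ) (n : ℕ) (p : Fin n → Sd d), Lay i0 m p → PD (MM h p (V, E)))
    {u : L2 d} (hu : FS u) (hz : Ngl (HV K V) E u) :
    ∃ v : L2 d, FS v ∧ u = HV K V v - (E : ℂ) • v := by
  have hF : ∀ j, j ∉ hu.toFinset → u j = 0 := fun j hj => by
    by_contra hne
    exact hj (hu.mem_toFinset.2 hne)
  have huS : u ∈ SP K V i0 := by
    rw [fin_sum hF]
    exact Submodule.sum_mem _ fun x _ => Submodule.smul_mem _ _ (SP_all K V i0 x)
  obtain ⟨G, hG, hGu⟩ := SP_rep K V i0 huS
  set e' : G.support ≃ Fin G.support.card := G.support.equivFin with he'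
  set p' : Fin G.support.card → Sd d := fun i => (e'.symm i : Sd d) with hp'
  have hlay : Lay i0 0 p' :=
    ⟨fun a b hab => e'.symm.injective (Subtype.ext hab), fun i => hG _ (e'.symm i).2⟩
  have hsum' : u = ∑ i, (Polynomial.aeval (HV K V) (G (p' i))) (ee (p' i)) := by
    rw [hGu, Finsupp.sum, ← Finset.sum_coe_sort, ← Equiv.sum_comp e'.symm]
  have hw : (∑ i, (G (p' i)).eval (E : ℂ) • (ee (p' i) : L2 d)) = u + ∑ i, (-1 : ℂ) •
      (Polynomial.aeval (HV K V) (G (p' i) - Polynomial.C ((G (p' i)).eval (E : ℂ))))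
        (ee (p' i)) := by
    rw [hsum', ← Finset.sum_add_distrib]
    refine Finset.sum_congr rfl fun i _ => ?_
    rw [map_sub, Polynomial.aeval_C, Algebra.algebraMap_eq_smul_one]
    change _ = _ + (-1 : ℂ) • ((Polynomial.aeval (HV K V) (G (p' i))) (ee (p' i)) -
      ((G (p' i)).eval (E : ℂ)) • (ee (p' i) : L2 d))
    rw [neg_one_smul]
    abel
  have hz' : Tendsto (fun k => qn (HV K V) (zk k E) (∑ i, (G (p' i)).eval (E : ℂ) •
      (ee (p' i) : L2 d))) atTop (𝓝 0) := by
    rw [hw]
    have h3 : Tendsto (fun k => qn (HV K V) (zk k E) u + ∑ i, ‖(-1 : ℂ)‖ *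
        qn (HV K V) (zk k E) ((Polynomial.aeval (HV K V) (G (p' i) -
          Polynomial.C ((G (p' i)).eval (E : ℂ)))) (ee (p' i)))) atTop
        (𝓝 (0 + ∑ _i : Fin G.support.card, ‖(-1 : ℂ)‖ * 0)) := by
      refine Tendsto.add hz (tendsto_finsetSum _ fun i _ => Tendsto.const_mul _ ?_)
      exact qn_poly (HV_sa K V) _ _ E (by simp)
    simp only [mul_zero, Finset.sum_const_zero, add_zero] at h3
    refine squeeze_zero (fun k => qn_nonneg _ _) (fun k => ?_) h3
    exact (qn_add _ _ _).trans (by
      have := qn_sum (T := HV K V) Finset.univ (zk k E)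
        (fun _ : Fin G.support.card => (-1 : ℂ)) fun i =>
        (Polynomial.aeval (HV K V) (G (p' i) -
          Polynomial.C ((G (p' i)).eval (E : ℂ)))) (ee (p' i))
      linarith)
  have hev := PD_zero e1 (hPD 0 _ p' hlay) hz'
  have hdvd : ∀ i, ∃ R : Polynomial ℂ, G (p' i) = (Polynomial.X - Polynomial.C (E : ℂ)) * R :=
    fun i => Polynomial.dvd_iff_isRoot.2 (hev i)
  choose R hR using hdvd
  refine ⟨∑ i, (Polynomial.aeval (HV K V) (R i)) (ee (p' i)),
    FS.sum _ fun i _ => FS.poly _ (FS_ee _), ?_⟩
  rw [hsum', map_sum, Finset.smul_sum, ← Finset.sum_sub_distrib]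
  refine Finset.sum_congr rfl fun i _ => ?_
  rw [hR i, map_mul, map_sub, Polynomial.aeval_X, Polynomial.aeval_C,
    Algebra.algebraMap_eq_smul_one]
  rfl

theorem sub_apply' (T : L2 d →L[ℂ] L2 d) (v : L2 d) (E : ℝ) (j : Sd d) :
    (T v - (E : ℂ) • v) j = (T v) j - E * v j := rfl

/-- extremal points of the support -/
theorem supp_le {K : ℝ} {V : Sd d → ℝ} {E : ℝ} {v u : L2 d} (hv : FS v)
    (hu : u = HV K V v - (E : ℂ) • v) (y : Sd d)
    (hy : ∀ j, u j ≠ 0 → ∃ i : Fin d, j = y + Pi.single i 1 ∨ j = y - Pi.single i 1)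
    (i0 : Fin d) (s : ℤ) (hs : s = 1 ∨ s = -1) (j : Sd d) (hj : v j ≠ 0) :
    s * j i0 ≤ s * y i0 := by
  by_contra hcon
  push Not at hcon
  -- a maximal point
  obtain ⟨q, hq, hmax⟩ := Finset.exists_max_image hv.toFinset (fun j => s * j i0)
    ⟨j, hv.mem_toFinset.2 hj⟩
  have hqv : v q ≠ 0 := hv.mem_toFinset.1 hq
  have hqy : s * y i0 < s * q i0 := lt_of_lt_of_le hcon (hmax j (hv.mem_toFinset.2 hj))
  have hz : ∀ p : Sd d, s * q i0 < s * p i0 → v p = 0 := by
    intro p hp
    by_contra hne
    exact absurd (hmax p (hv.mem_toFinset.2 hne)) (not_le.2 hp)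
  have hss : s * s = 1 := by rcases hs with h | h <;> rw [h] <;> norm_num
  set p : Sd d := q + Pi.single i0 s with hp
  have hpi : s * p i0 = s * q i0 + 1 := by
    rw [hp, Pi.add_apply, Pi.single_eq_same, mul_add, hss]
  have hvp : v p = 0 := hz p (by rw [hpi]; linarith)
  -- the value at `p`
  have hup : u p = - v q := by
    rw [hu, sub_apply', hvp, mul_zero, sub_zero, HV_apply, hvp]
    simp only [mul_zero, zero_sub, add_zero]
    rw [Finset.sum_eq_single i0]
    · rcases hs with h | h
      · have e1 : p - Pi.single i0 1 = q := by rw [hp, h]; simp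
        have e2 : v (p + Pi.single i0 1) = 0 := by
          apply hz
          rw [h, Pi.add_apply, Pi.single_eq_same]
          rw [h] at hpi
          linarith
        rw [e1, e2, neg_zero, zero_sub]
      · have e1 : p + Pi.single i0 1 = q := by
          rw [hp, h, add_assoc, ← Pi.single_add]
          simp
        have e2 : v (p - Pi.single i0 1) = 0 := by
          apply hz
          rw [h, Pi.sub_apply, Pi.single_eq_same]
          rw [h] at hpi
          linarith
        rw [e1, e2, sub_zero]
    · intro i _ hi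
      have hi0 : (Pi.single i (1 : ℤ) : Sd d) i0 = 0 := single_ne i0 i hi
      have e1 : v (p + Pi.single i 1) = 0 := by
        apply hz
        rw [Pi.add_apply, hi0, add_zero, hpi]
        linarith
      have e2 : v (p - Pi.single i 1) = 0 := by
        apply hz
        rw [Pi.sub_apply, hi0, sub_zero, hpi]
        linarith
      rw [e1, e2]
      simp
    · intro h
      exact absurd (Finset.mem_univ i0) h
  have hune : u p ≠ 0 := by rw [hup]; exact neg_ne_zero.2 hqv
  obtain ⟨i, hi⟩ := hy p hune
  have hle : s * p i0 ≤ s * y i0 + 1 := by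
    have hsi : ∀ t : ℤ, (t = 0 ∨ t = 1 ∨ t = -1) → s * (y i0 + t) ≤ s * y i0 + 1 := by
      intro t ht
      rcases hs with h | h <;> rcases ht with h1 | h1 | h1 <;> rw [h, h1] <;> linarith
    rcases hi with h | h
    · rw [h, Pi.add_apply]
      apply hsi
      by_cases hii : i = i0
      · subst hii
        rw [Pi.single_eq_same]
        simp
      · rw [single_ne i0 i hii]
        simp
    · rw [h, Pi.sub_apply, sub_eq_add_neg]
      apply hsi
      by_cases hii : i = i0
      · subst hii
        rw [Pi.single_eq_same]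
        simp
      · rw [single_ne i0 i hii]
        simp
  rw [hpi] at hle
  linarith

/-- a combination of the neighbours of `y` in the kernel vanishes -/
theorem kernel_nb {K : ℝ} {V : Sd d → ℝ} {E : ℝ} {v u : L2 d} (hv : FS v)
    (hu : u = HV K V v - (E : ℂ) • v) (y : Sd d)
    (hy : ∀ j, u j ≠ 0 → ∃ i : Fin d, j = y + Pi.single i 1 ∨ j = y - Pi.single i 1)
    (hE : (2 * d + cl K (V y) : ℝ) ≠ E) : u = 0 := by
  have hsupp : ∀ j, v j ≠ 0 → j = y := by
    intro j hj
    funext i0
    have h1 := supp_le hv hu y hy i0 1 (Or.inl rfl) j hj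
    have h2 := supp_le hv hu y hy i0 (-1) (Or.inr rfl) j hj
    linarith
  have hvz : ∀ j, j ≠ y → v j = 0 := fun j hj => by
    by_contra hne
    exact hj (hsupp j hne)
  have hns : ∀ i : Fin d, y + Pi.single i 1 ≠ y := by
    intro i h
    have h1 := congrFun h i
    rw [Pi.add_apply, Pi.single_eq_same] at h1
    linarith
  have hns' : ∀ i : Fin d, y - Pi.single i 1 ≠ y := by
    intro i h
    have h1 := congrFun h i
    rw [Pi.sub_apply, Pi.single_eq_same] at h1
    linarith
  have huy : u y = 0 := by
    by_contra hne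
    obtain ⟨i, h | h⟩ := hy y hne
    · exact hns i h.symm
    · exact hns' i h.symm
  have hvy : v y = 0 := by
    rw [hu, sub_apply', HV_apply] at huy
    have e : ∀ i : Fin d, (2 * v y - v (y + Pi.single i 1) - v (y - Pi.single i 1)) = 2 * v y := by
      intro i
      rw [hvz _ (hns i), hvz _ (hns' i)]
      ring
    simp only [e, Finset.sum_const, Finset.card_univ, Fintype.card_fin, nsmul_eq_mul] at huy
    have e2 : (((2 * d + cl K (V y) : ℝ) : ℂ) - E) * v y = 0 := by
      rw [← huy]
      push_cast
      ring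
    rcases mul_eq_zero.1 e2 with h | h
    · exfalso
      apply hE
      rw [sub_eq_zero] at h
      exact_mod_cast h
    · exact h
  have hv0 : v = 0 := by
    refine lp.ext (funext fun j => ?_)
    by_cases hj : j = y
    · rw [hj, hvy]; rfl
    · rw [hvz j hj]; rfl
  rw [hu, hv0, map_zero, smul_zero, sub_zero]

/-- functions on `ℤ^d` invariant under the unit translations are constant -/
theorem const_of_step {g : Sd d → ℂ} (h : ∀ y (i : Fin d), g (y + Pi.single i 1) = g y)
    (x : Sd d) : g x = g 0 := by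
  have h1 : ∀ (i : Fin d) (n : ℤ) (y : Sd d), g (y + Pi.single i n) = g y := by
    intro i n
    induction n with
    | zero => intro y; simp
    | succ n ih =>
      intro y
      rw [Pi.single_add, ← add_assoc, h, ih]
    | pred n ih =>
      intro y
      have e : y + Pi.single i (-(n : ℤ) - 1) + Pi.single i 1 = y + Pi.single i (-(n : ℤ)) := by
        rw [add_assoc, ← Pi.single_add]
        congr 2
        ring
      have h5 := h (y + Pi.single i (-(n : ℤ) - 1)) i
      rw [e, ih] at h5
      exact h5.symm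
  have h2 : ∀ (s : Finset (Fin d)) (y : Sd d), g (y + ∑ i ∈ s, Pi.single i (x i)) = g y := by
    intro s
    induction s using Finset.induction_on with
    | empty => intro y; simp
    | insert a s ha ih =>
      intro y
      rw [Finset.sum_insert ha, ← add_assoc, ih, h1]
  have h3 := h2 Finset.univ 0
  rw [zero_add, Finset.univ_sum_single] at h3
  exact h3

/-- the fibre coefficient of an operator commuting with `H` does not depend on the site -/
theorem coeff_const (i0 : Fin d) {K : ℝ} {V : Sd d → ℝ} {h : Sd d → (Sd d → ℝ) × ℝ → ℂ} {E : ℝ}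
    (e1 : Gen K h V E)
    (hPD : ∀ (m : ℤ) (n : ℕ) (p : Fin n → Sd d), Lay i0 m p → PD (MM h p (V, E)))
    (hE : ∀ y, (2 * d + cl K (V y) : ℝ) ≠ E)
    {B : L2 d →L[ℂ] L2 d} (hB : ∀ x, B (HV K V x) = HV K V (B x))
    {g : Sd d → ℂ} (hg : ∀ x, Ngl (HV K V) E (B (ee x) - g x • ee x)) (x : Sd d) :
    g x = g 0 := by
  apply const_of_step
  intro y i
  have hsa := HV_sa K V
  set T := HV K V with hT
  have hfs : FS (T (ee y)) := FS.HV (FS_ee y)
  set F := hfs.toFinset with hF
  have hrep : T (ee y) = ∑ x ∈ F, (T (ee y)) x • ee x := fin_sum fun j hj => by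
    by_contra hne
    exact hj (hfs.mem_toFinset.2 hne)
  set a : Sd d → ℂ := fun x => (T (ee y)) x with ha
  -- three negligible vectors
  have n1 : Ngl T E (T (ee y) - (E : ℂ) • ee y) := qn_T hsa _ E
  have n2 : Ngl T E (B (T (ee y) - (E : ℂ) • ee y)) := Ngl.comm hsa hB n1
  have n3 : Ngl T E (∑ x ∈ F, a x • (B (ee x) - g x • ee x)) :=
    Ngl.sum F fun x _ => (hg x).smul _
  have n4 : Ngl T E ((E : ℂ) • (B (ee y) - g y • ee y)) := (hg y).smul _
  have n5 : Ngl T E (g y • (T (ee y) - (E : ℂ) • ee y)) := n1.smul _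
  set u : L2 d := ∑ x ∈ F, (a x * (g x - g y)) • ee x with hu
  have nu : Ngl T E u := by
    have e : u = (B (T (ee y) - (E : ℂ) • ee y) - ∑ x ∈ F, a x • (B (ee x) - g x • ee x) +
        (E : ℂ) • (B (ee y) - g y • ee y)) - g y • (T (ee y) - (E : ℂ) • ee y) := by
      have h1 : B (T (ee y)) = ∑ x ∈ F, a x • B (ee x) := by
        conv_lhs => rw [hrep]
        rw [map_sum]
        refine Finset.sum_congr rfl fun x _ => ?_
        rw [map_smul]
      have h2 : ∑ x ∈ F, a x • (B (ee x) - g x • ee x) = ∑ x ∈ F, a x • B (ee x) -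
          ∑ x ∈ F, (a x * g x) • ee x := by
        rw [← Finset.sum_sub_distrib]
        refine Finset.sum_congr rfl fun x _ => ?_
        rw [smul_sub, smul_smul]
      have h3 : g y • T (ee y) = ∑ x ∈ F, (a x * g y) • ee x := by
        conv_lhs => rw [hrep]
        rw [Finset.smul_sum]
        refine Finset.sum_congr rfl fun x _ => ?_
        rw [smul_smul, mul_comm]
      have h4 : u = ∑ x ∈ F, (a x * g x) • ee x - ∑ x ∈ F, (a x * g y) • ee x := by
        rw [hu, ← Finset.sum_sub_distrib]
        refine Finset.sum_congr rfl fun x _ => ?_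
        rw [mul_sub, sub_smul]
      rw [map_sub, map_smul, h1, h2, smul_sub (g y), h3, h4, smul_sub, smul_comm (g y) (E : ℂ)]
      abel
    rw [e]
    exact ((n2.sub n3).add n4).sub n5
  have hufs : FS u := FS.sum _ fun x _ => (FS_ee x).smul _
  have huj : ∀ j, u j = a j * (g j - g y) := by
    intro j
    have h1 : u j = inner ℂ (ee j) u := (inner_ee j u).symm
    rw [h1, hu, inner_sum]
    simp only [inner_smul_right, inner_ee, ee_apply]
    simp only [mul_ite, mul_one, mul_zero, Finset.sum_ite_eq]
    split_ifs with hj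
    · rfl
    · have : a j = 0 := by
        by_contra hne
        exact hj (hfs.mem_toFinset.2 hne)
      rw [this, zero_mul]
  -- the coefficients
  have haj : ∀ j, a j = ∑ i : Fin d, (2 * (if j = y then (1 : ℂ) else 0) -
      (if j + Pi.single i 1 = y then 1 else 0) - (if j - Pi.single i 1 = y then 1 else 0)) +
      (cl K (V j) : ℂ) * (if j = y then 1 else 0) := by
    intro j
    rw [ha]
    show (T (ee y)) j = _
    rw [hT, HV_apply]
    simp only [ee_apply]
  obtain ⟨v, hv, huv⟩ := kernel_zk i0 e1 hPD hufs nu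
  have hnb : ∀ j, u j ≠ 0 → ∃ i : Fin d, j = y + Pi.single i 1 ∨ j = y - Pi.single i 1 := by
    intro j hj
    rw [huj] at hj
    have hjy : j ≠ y := by
      rintro rfl
      apply hj
      rw [sub_self, mul_zero]
    by_contra hcon
    push Not at hcon
    apply hj
    have : a j = 0 := by
      rw [haj, if_neg hjy]
      simp only [mul_zero, zero_sub, add_zero]
      refine Finset.sum_eq_zero fun i _ => ?_
      rw [if_neg, if_neg]
      · simp
      · intro h
        exact (hcon i).1 (by rw [← h]; simp)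
      · intro h
        exact (hcon i).2 (by rw [← h]; simp)
    rw [this, zero_mul]
  have hu0 := kernel_nb hv huv y hnb (hE y)
  have h5 := huj (y + Pi.single i 1)
  rw [hu0] at h5
  have h6 : a (y + Pi.single i 1) = -1 := by
    have hne : y + Pi.single i 1 ≠ y := by
      intro h
      have h1 := congrFun h i
      rw [Pi.add_apply, Pi.single_eq_same] at h1
      linarith
    rw [haj, if_neg hne]
    simp only [mul_zero, zero_sub, add_zero]
    rw [Finset.sum_eq_single i]
    · rw [if_neg, if_pos]
      · simp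
      · simp
      · intro h
        have h1 := congrFun h i
        rw [Pi.add_apply, Pi.add_apply, Pi.single_eq_same] at h1
        linarith
    · intro k _ hk
      rw [if_neg, if_neg]
      · simp
      · intro h
        have h1 := congrFun h i
        rw [Pi.sub_apply, Pi.add_apply, Pi.single_eq_same, single_ne i k hk] at h1
        linarith
      · intro h
        have h1 := congrFun h i
        rw [Pi.add_apply, Pi.add_apply, Pi.single_eq_same, single_ne i k hk] at h1
        linarith
    · intro h
      exact absurd (Finset.mem_univ i) h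
  rw [h6] at h5
  have h7 : (0 : ℂ) = -1 * (g (y + Pi.single i 1) - g y) := h5
  have h8 : g (y + Pi.single i 1) - g y = 0 := by
    linear_combination h7
  exact sub_eq_zero.1 h8

end Pool.Agent.Y662.ERG
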